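import Mathlib
set_option autoImplicit false
open Set Metric
namespace Pool.Agent.Helper968.SC

abbrev E3 := EuclideanSpace ℝ (Fin 3)

/-- support function of `K` -/
noncomputable def hs (K : Set E3) (u : E3) : ℝ := sSup ((fun x : E3 => inner ℝ x u) '' K)

/-- the face of `K` with outer normal `u` -/
def face (K : Set E3) (u : E3) : Set E3 := {x | x ∈ K ∧ inner ℝ x u = hs K u}

/-- convex bodies -/
structure Body (K : Set E3) : Prop where
  conv : Convex ℝ K
  comp : IsCompact K
  int : (interior K).Nonempty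

theorem Body.ne {K : Set E3} (h : Body K) : K.Nonempty := h.int.mono interior_subset

theorem bddAbove_inner {K : Set E3} (hK : IsCompact K) (u : E3) :
    BddAbove ((fun x : E3 => inner ℝ x u) '' K) :=
  (hK.image (by fun_prop)).bddAbove

theorem inner_le_hs {K : Set E3} (hK : IsCompact K) {x : E3} (hx : x ∈ K) (u : E3) :
    inner ℝ x u ≤ hs K u :=
  le_csSup (bddAbove_inner hK u) ⟨x, hx, rfl⟩

theorem hs_le {K : Set E3} (hne : K.Nonempty) {u : E3} {c : ℝ} (h : ∀ x ∈ K, inner ℝ x u ≤ c) :
    hs K u ≤ c := by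
  apply csSup_le (hne.image _)
  rintro _ ⟨x, hx, rfl⟩
  exact h x hx

theorem exists_face {K : Set E3} (hK : IsCompact K) (hne : K.Nonempty) (u : E3) :
    (face K u).Nonempty := by
  obtain ⟨x, hx, hmax⟩ := hK.exists_isMaxOn hne (f := fun x : E3 => inner ℝ x u) (by fun_prop)
  refine ⟨x, hx, le_antisymm (inner_le_hs hK hx u) (hs_le hne ?_)⟩
  intro y hy
  exact hmax hy

theorem hs_add_le {K : Set E3} (hK : IsCompact K) (hne : K.Nonempty) (u v : E3) :
    hs K (u + v) ≤ hs K u + hs K v := by
  apply hs_le hne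
  intro x hx
  rw [inner_add_right]
  exact add_le_add (inner_le_hs hK hx u) (inner_le_hs hK hx v)

theorem hs_smul {K : Set E3} (hK : IsCompact K) (hne : K.Nonempty) {t : ℝ} (ht : 0 ≤ t) (u : E3) :
    hs K (t • u) = t * hs K u := by
  obtain ⟨x, hx, hxe⟩ := exists_face hK hne u
  apply le_antisymm
  · apply hs_le hne
    intro y hy
    rw [inner_smul_right]
    exact mul_le_mul_of_nonneg_left (inner_le_hs hK hy u) ht
  · rw [← hxe, ← inner_smul_right]
    exact inner_le_hs hK hx _

theorem hs_lip {K : Set E3} (hK : IsCompact K) (hne : K.Nonempty) :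
    ∃ C : ℝ, 0 ≤ C ∧ (∀ x ∈ K, ‖x‖ ≤ C) ∧ ∀ u v : E3, |hs K u - hs K v| ≤ C * ‖u - v‖ := by
  obtain ⟨C, hC⟩ := hK.isBounded.exists_norm_le
  have hC0 : 0 ≤ C := by
    obtain ⟨x, hx⟩ := hne
    exact (norm_nonneg x).trans (hC x hx)
  have key : ∀ u v : E3, hs K u - hs K v ≤ C * ‖u - v‖ := by
    intro u v
    obtain ⟨x, hx, hxe⟩ := exists_face hK hne u
    have h1 := inner_le_hs hK hx v
    have h2 : inner ℝ x u - inner ℝ x v ≤ C * ‖u - v‖ := by
      rw [← inner_sub_right]
      exact (real_inner_le_norm _ _).trans (mul_le_mul_of_nonneg_right (hC x hx) (norm_nonneg _))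
    linarith
  refine ⟨C, hC0, hC, fun u v => abs_le.2 ⟨?_, key u v⟩⟩
  have := key v u
  rw [norm_sub_rev] at this
  linarith

theorem hs_continuous {K : Set E3} (hK : IsCompact K) (hne : K.Nonempty) : Continuous (hs K) := by
  obtain ⟨C, hC0, -, hC⟩ := hs_lip hK hne
  have : LipschitzWith (Real.toNNReal C) (hs K) := by
    apply LipschitzWith.of_dist_le_mul
    intro u v
    rw [Real.dist_eq, dist_eq_norm, Real.coe_toNNReal _ hC0]
    exact hC u v
  exact this.continuous

theorem mem_of_inner_le {K : Set E3} (hc : Convex ℝ K) (hK : IsCompact K) (hne : K.Nonempty)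
    {x : E3} (h : ∀ u : E3, inner ℝ x u ≤ hs K u) : x ∈ K := by
  by_contra hx
  obtain ⟨f, s, hs1, hs2⟩ := geometric_hahn_banach_closed_point hc hK.isClosed hx
  set u : E3 := (InnerProductSpace.toDual ℝ E3).symm f with hu
  have hf : ∀ y : E3, f y = inner ℝ y u := by
    intro y
    rw [real_inner_comm, hu, InnerProductSpace.toDual_symm_apply]
  have h1 : hs K u ≤ s := hs_le hne (fun y hy => by rw [← hf]; exact (hs1 y hy).le)
  have h2 := h u
  rw [← hf] at h2
  linarith

theorem eq_of_hs_eq {K L : Set E3} (hK : IsCompact K) (hL : IsCompact L) (cK : Convex ℝ K)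
    (cL : Convex ℝ L) (nK : K.Nonempty) (nL : L.Nonempty) (h : ∀ u, hs K u = hs L u) : K = L := by
  apply Set.Subset.antisymm
  · intro x hx
    exact mem_of_inner_le cL hL nL (fun u => by rw [← h u]; exact inner_le_hs hK hx u)
  · intro x hx
    exact mem_of_inner_le cK hK nK (fun u => by rw [h u]; exact inner_le_hs hL hx u)

theorem face_smul {K : Set E3} (hK : IsCompact K) (hne : K.Nonempty) {t : ℝ} (ht : 0 < t) (u : E3) :
    face K (t • u) = face K u := by
  ext x
  simp only [face, mem_ofPred_eq, inner_smul_right, hs_smul hK hne ht.le]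
  constructor
  · rintro ⟨h1, h2⟩
    exact ⟨h1, mul_left_cancel₀ ht.ne' h2⟩
  · rintro ⟨h1, h2⟩
    exact ⟨h1, by rw [h2]⟩

theorem isCompact_face {K : Set E3} (hK : IsCompact K) (u : E3) : IsCompact (face K u) := by
  have : face K u = K ∩ {x | inner ℝ x u = hs K u} := rfl
  rw [this]
  exact hK.inter_right (isClosed_eq (by fun_prop) continuous_const)

theorem convex_face {K : Set E3} (hc : Convex ℝ K) (u : E3) : Convex ℝ (face K u) := by
  intro x hx y hy a b ha hb hab
  refine ⟨hc hx.1 hy.1 ha hb hab, ?_⟩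
  rw [inner_add_left, inner_smul_left, inner_smul_left, hx.2, hy.2]
  simp only [conj_trivial]
  rw [← add_mul, hab, one_mul]

/-- limits of support points are support points -/
theorem face_limit {K : Set E3} (hK : IsCompact K) (hne : K.Nonempty) {x u : ℕ → E3} {x0 u0 : E3}
    (hx : Filter.Tendsto x Filter.atTop (nhds x0)) (hu : Filter.Tendsto u Filter.atTop (nhds u0))
    (h : ∀ n, x n ∈ face K (u n)) : x0 ∈ face K u0 := by
  refine ⟨hK.isClosed.mem_of_tendsto hx (Filter.Eventually.of_forall fun n => (h n).1), ?_⟩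
  have h1 : Filter.Tendsto (fun n => (inner ℝ (x n) (u n) : ℝ)) Filter.atTop
      (nhds (inner ℝ x0 u0)) := hx.inner hu
  have h2 : Filter.Tendsto (fun n => hs K (u n)) Filter.atTop (nhds (hs K u0)) :=
    ((hs_continuous hK hne).tendsto u0).comp hu
  refine tendsto_nhds_unique h1 (h2.congr fun n => ((h n).2).symm)

/-- the image of a convex body under an isometry is a convex body -/
theorem Body.image {K : Set E3} (h : Body K) (g : E3 ≃ᵢ E3) : Body (g '' K) := by
  have hg : ⇑g.toRealAffineIsometryEquiv = ⇑g := by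
    ext x; simp
  constructor
  · rw [← hg]
    exact h.conv.affine_image g.toRealAffineIsometryEquiv.toAffineEquiv.toAffineMap
  · exact h.comp.image g.continuous
  · have : interior (g '' K) = g '' interior K := (g.toHomeomorph.image_interior K).symm
    rw [this]
    exact h.int.image _

theorem hs_image_linear {K : Set E3} (hK : IsCompact K) (hne : K.Nonempty) (L : E3 ≃ₗᵢ[ℝ] E3)
    (v u : E3) : hs ((fun x => L x + v) '' K) u = hs K (L.symm u) + inner ℝ v u := by
  have hK' : IsCompact ((fun x => L x + v) '' K) := hK.image (by fun_prop)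
  apply le_antisymm
  · apply hs_le (hne.image _)
    rintro _ ⟨x, hx, rfl⟩
    have h1 := inner_le_hs hK hx (L.symm u)
    have h2 : inner ℝ (L x) u = (inner ℝ x (L.symm u) : ℝ) := by
      rw [← L.inner_map_map x (L.symm u)]; simp
    simp only [inner_add_left]
    linarith
  · obtain ⟨x, hx, hxe⟩ := exists_face hK hne (L.symm u)
    have h1 := inner_le_hs hK' (mem_image_of_mem (fun x => L x + v) hx) u
    have h2 : inner ℝ (L x) u = (inner ℝ x (L.symm u) : ℝ) := by
      rw [← L.inner_map_map x (L.symm u)]; simp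
    simp only [inner_add_left] at h1
    linarith

/-- chart of the open half space of normals `u` with positive `b 2` component -/
noncomputable def chart (b : OrthonormalBasis (Fin 3) ℝ E3) (z : ℂ) : E3 :=
  z.re • b 0 + z.im • b 1 + b 2

/-- chart on the opposite half space -/
noncomputable def chart' (b : OrthonormalBasis (Fin 3) ℝ E3) (z : ℂ) : E3 :=
  z.re • b 0 + z.im • b 1 - b 2

/-- property (P) -/
def PP (K : Set E3) : Prop :=
  ∀ f : E3 ≃ᵢ E3, frontier K ∩ f '' (frontier K) = ∅ ∨ IsConnected (frontier K ∩ f '' (frontier K))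

/-- the step structure of the heights of the shadow boundary in direction `e` -/
def St (K : Set E3) (e : E3) : Prop :=
  ∃ v : E3, ‖v‖ = 1 ∧ inner ℝ v e = (0:ℝ) ∧ ∃ bp bm : ℝ,
    (∀ w : E3, inner ℝ w e = (0:ℝ) → 0 < (inner ℝ w v : ℝ) → ∃ x ∈ face K w, inner ℝ x e = bp) ∧
    (∀ w : E3, inner ℝ w e = (0:ℝ) → (inner ℝ w v : ℝ) < 0 → ∃ x ∈ face K w, inner ℝ x e = bm)

/-- all faces are points or segments -/
def SegFaces (K : Set E3) : Prop := ∀ w : E3, w ≠ 0 → ∃ p q : E3, face K w = segment ℝ p q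

/-- no face contains a segment parallel to `e` -/
def Good (K : Set E3) (e : E3) : Prop :=
  ∀ w : E3, w ≠ 0 → ∀ p ∈ face K w, ∀ q ∈ face K w, ∀ t : ℝ, q - p = t • e → p = q

/-- `h_K(w) - max(<p,w>,<q,w>)` depends only on the norm of `w` and on `<w,n>` -/
def RotInv (K : Set E3) (n p q : E3) : Prop :=
  ∀ w w' : E3, ‖w‖ = ‖w'‖ → (inner ℝ w n : ℝ) = inner ℝ w' n →
    hs K w - max (inner ℝ p w : ℝ) (inner ℝ q w) = hs K w' - max (inner ℝ p w' : ℝ) (inner ℝ q w')

/-- the point at height `s` on the distant part `σ` of the ray with direction `α` -/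
noncomputable def ray (α s σ : ℝ) : ℂ := Complex.exp (α * Complex.I) * (σ + s * Complex.I)

/-- the ray is eventually in `G` -/
def EvIn (G : Set ℂ) (α s : ℝ) : Prop := ∃ T : ℝ, ∀ σ : ℝ, T ≤ σ → ray α s σ ∈ G

/-- the direction with angle `α` in the plane of `b 0, b 1` -/
noncomputable def wv (b : OrthonormalBasis (Fin 3) ℝ E3) (α : ℝ) : E3 :=
  Real.cos α • b 0 + Real.sin α • b 1

/-- the tangent direction -/
noncomputable def uv (b : OrthonormalBasis (Fin 3) ℝ E3) (α : ℝ) : E3 :=
  -Real.sin α • b 0 + Real.cos α • b 1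

/-- difference of the support functions of `K` and of its mirror image -/
noncomputable def fF (K : Set E3) (b : OrthonormalBasis (Fin 3) ℝ E3) (z : ℂ) : ℝ :=
  hs K (chart b z) - hs K (chart' b z)

/-- profile of `fF` at infinity in direction `α` -/
noncomputable def FF (K : Set E3) (b : OrthonormalBasis (Fin 3) ℝ E3) (α s : ℝ) : ℝ :=
  hs (face K (wv b α)) (s • uv b α + b 2) - hs (face K (wv b α)) (s • uv b α - b 2)

end Pool.Agent.Helper968.SC
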