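import Mathlib
import Pool.Agent.Helper968.SC.Base
set_option autoImplicit false
open Set Metric
namespace Pool.Agent.Helper968.SC.Final

/-- from rotation invariance at the normals of the faces to the sausage -/
theorem sausage_final {K : Set E3} (hK : Body K) (hseg : SegFaces K)
    (RotInv_nondeg : ∀ (n p q : E3), ‖n‖ = 1 → face K n = segment ℝ p q → p ≠ q →
      RotInv K n p q)
    (RotInv_strict : (∀ w : E3, w ≠ 0 → ∀ x ∈ face K w, ∀ y ∈ face K w, x = y) →
      ∀ (n x0 : E3), ‖n‖ = 1 → x0 ∈ face K n → RotInv K n x0 x0)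
    (face_transfer : ∀ (n n' p q : E3), ‖n‖ = 1 → ‖n'‖ = 1 → inner ℝ n n' = (0:ℝ) →
      inner ℝ (q - p) n = (0:ℝ) → inner ℝ (q - p) n' = (0:ℝ) → p ≠ q → RotInv K n p q →
      ∃ p' q' : E3, face K n' = segment ℝ p' q' ∧ q' - p' = q - p)
    (final_form : ∀ (b : OrthonormalBasis (Fin 3) ℝ E3) (t : ℝ)
      (p q p' q' : E3), q - p = t • b 2 → q' - p' = t • b 2 →
      RotInv K (b 0) p q → RotInv K (b 1) p' q' →
      ∃ m : E3, ∃ κ : ℝ, ∀ w : E3,
        hs K w = inner ℝ m w + |(inner ℝ (t • b 2) w : ℝ)| / 2 + κ * ‖w‖)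
    (sausage_of_hs : ∀ (m D : E3) (κ : ℝ),
      (∀ w : E3, hs K w = inner ℝ m w + |(inner ℝ D w : ℝ)| / 2 + κ * ‖w‖) →
      ∃ a b : E3, ∃ r : ℝ, 0 < r ∧ K = {x | Metric.infDist x (segment ℝ a b) ≤ r}) :
    ∃ a b : E3, ∃ r : ℝ, 0 < r ∧ K = {x | Metric.infDist x (segment ℝ a b) ≤ r} := by
  by_cases hA : ∀ w : E3, w ≠ 0 → ∀ x ∈ face K w, ∀ y ∈ face K w, x = y
  · let b : OrthonormalBasis (Fin 3) ℝ E3 := EuclideanSpace.basisFun (Fin 3) ℝ
    obtain ⟨x0, hx0⟩ := exists_face hK.comp hK.ne (b 0)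
    obtain ⟨x1, hx1⟩ := exists_face hK.comp hK.ne (b 1)
    obtain ⟨m, κ, h⟩ := final_form b 0 x0 x0 x1 x1 (by simp) (by simp)
      (RotInv_strict hA (b 0) x0 (b.orthonormal.1 0) hx0)
      (RotInv_strict hA (b 1) x1 (b.orthonormal.1 1) hx1)
    exact sausage_of_hs m ((0:ℝ) • b 2) κ h
  · push Not at hA
    obtain ⟨w0, hw0, x, hx, y, hy, hxy⟩ := hA
    obtain ⟨p, q, hpq⟩ := hseg w0 hw0
    obtain ⟨n, hn⟩ : ∃ n : E3, n = ‖w0‖⁻¹ • w0 := ⟨_, rfl⟩
    have hw0n : 0 < ‖w0‖ := norm_pos_iff.mpr hw0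
    have hn1 : ‖n‖ = 1 := by
      rw [hn, norm_smul, norm_inv, norm_norm, inv_mul_cancel₀ hw0n.ne']
    have hfn : face K n = segment ℝ p q := by
      rw [hn, face_smul hK.comp hK.ne (inv_pos.mpr hw0n), hpq]
    have hne : p ≠ q := by
      rintro rfl
      rw [hpq, segment_same] at hx hy
      exact hxy (hx.trans hy.symm)
    have hp : p ∈ face K n := hfn ▸ left_mem_segment ℝ p q
    have hq : q ∈ face K n := hfn ▸ right_mem_segment ℝ p q
    have hDn : inner ℝ (q - p) n = (0:ℝ) := by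
      rw [inner_sub_left, hp.2, hq.2, sub_self]
    have hD0 : q - p ≠ 0 := sub_ne_zero.mpr hne.symm
    have hDpos : 0 < ‖q - p‖ := norm_pos_iff.mpr hD0
    obtain ⟨d, hd⟩ : ∃ d : E3, d = ‖q - p‖⁻¹ • (q - p) := ⟨_, rfl⟩
    have hd1 : ‖d‖ = 1 := by
      rw [hd, norm_smul, norm_inv, norm_norm, inv_mul_cancel₀ hDpos.ne']
    have hdn : inner ℝ d n = (0:ℝ) := by
      rw [hd, inner_smul_left, hDn, mul_zero]
    have hnd : inner ℝ n d = (0:ℝ) := by rw [real_inner_comm]; exact hdn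
    have hDd : q - p = ‖q - p‖ • d := by
      rw [hd, smul_smul, mul_inv_cancel₀ hDpos.ne', one_smul]
    obtain ⟨b, hb⟩ := Orthonormal.exists_orthonormalBasis_extension_of_card_eq
      (𝕜 := ℝ) (E := E3) (ι := Fin 3) (by simp) (v := ![n, 0, d]) (s := {0, 2}) (by
        constructor
        · rintro ⟨i, hi⟩
          rcases hi with rfl | rfl
          · simpa using hn1
          · simpa using hd1
        · rintro ⟨i, hi⟩ ⟨j, hj⟩ hij
          rcases hi with rfl | rfl <;> rcases hj with rfl | rfl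
          · exact absurd rfl hij
          · simpa using hnd
          · simpa using hdn
          · exact absurd rfl hij)
    have hb0 : b 0 = n := by
      have := hb 0 (by simp)
      simpa using this
    have hb2 : b 2 = d := by
      have := hb 2 (by simp)
      simpa using this
    have h01 : inner ℝ n (b 1) = (0:ℝ) := by
      rw [← hb0]; exact b.orthonormal.2 (by decide)
    have h21 : inner ℝ (q - p) (b 1) = (0:ℝ) := by
      rw [hDd, inner_smul_left, ← hb2, b.orthonormal.2 (by decide : (2 : Fin 3) ≠ 1), mul_zero]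
    have hr := RotInv_nondeg n p q hn1 hfn hne
    obtain ⟨p', q', hf', hpq'⟩ := face_transfer n (b 1) p q hn1 (b.orthonormal.1 1) h01 hDn h21
      hne hr
    have hne' : p' ≠ q' := by
      intro e
      rw [e, sub_self] at hpq'
      exact hD0 hpq'.symm
    have hr' := RotInv_nondeg (b 1) p' q' (b.orthonormal.1 1) hf' hne'
    obtain ⟨m, κ, h⟩ := final_form b ‖q - p‖ p q p' q' (by rw [hb2]; exact hDd)
      (by rw [hb2, hpq']; exact hDd) (by rw [hb0]; exact hr) hr'
    exact sausage_of_hs m _ κ h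

end Pool.Agent.Helper968.SC.Final
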