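import Mathlib
import Pool.Agent.Helper968.SC.Base
set_option autoImplicit false
open Set Metric
namespace Pool.Agent.Helper968.SC.G1

theorem inner_chart_8683 (b : OrthonormalBasis (Fin 3) ℝ E3) (z : ℂ) :
    (inner ℝ (b 2) (chart b z) : ℝ) = 1 := by
  simp [chart, inner_add_right, inner_smul_right, OrthonormalBasis.inner_eq_ite]

theorem chart_ne_8683 (b : OrthonormalBasis (Fin 3) ℝ E3) (z : ℂ) : chart b z ≠ 0 := by
  intro h
  have := inner_chart_8683 b z
  rw [h, inner_zero_right] at this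
  exact zero_ne_one this

theorem chart_continuous_8683 (b : OrthonormalBasis (Fin 3) ℝ E3) : Continuous (chart b) := by
  unfold chart
  fun_prop

/-- inverse of the chart -/
noncomputable def q_8683 (b : OrthonormalBasis (Fin 3) ℝ E3) (ν : E3) : ℂ :=
  ⟨inner ℝ (b 0) ν / inner ℝ (b 2) ν, inner ℝ (b 1) ν / inner ℝ (b 2) ν⟩

theorem eq_chart_8683 (b : OrthonormalBasis (Fin 3) ℝ E3) {ν : E3}
    (h : 0 < (inner ℝ (b 2) ν : ℝ)) :
    (inner ℝ (b 2) ν : ℝ) • chart b (q_8683 b ν) = ν := by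
  conv_rhs => rw [← b.sum_repr' ν]
  rw [Fin.sum_univ_three]
  simp only [chart, q_8683, smul_add, smul_smul]
  rw [mul_div_cancel₀ _ h.ne', mul_div_cancel₀ _ h.ne']

theorem q_smul_chart_8683 (b : OrthonormalBasis (Fin 3) ℝ E3) {r : ℝ} (hr : 0 < r) (z : ℂ) :
    q_8683 b (r • chart b z) = z := by
  have hr' := hr.ne'
  apply Complex.ext
  · simp [q_8683, chart, inner_add_right, inner_smul_right, OrthonormalBasis.inner_eq_ite]
    field_simp
  · simp [q_8683, chart, inner_add_right, inner_smul_right, OrthonormalBasis.inner_eq_ite]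
    field_simp

/-- the cone over `U` -/
def cone_8683 (b : OrthonormalBasis (Fin 3) ℝ E3) (U : Set ℂ) : Set E3 :=
  {ν | 0 < (inner ℝ (b 2) ν : ℝ)} ∩ (q_8683 b) ⁻¹' U

theorem isOpen_cone_8683 (b : OrthonormalBasis (Fin 3) ℝ E3) {U : Set ℂ} (hU : IsOpen U) :
    IsOpen (cone_8683 b U) := by
  refine ContinuousOn.isOpen_inter_preimage ?_ (isOpen_lt continuous_const (by fun_prop)) hU
  have e : q_8683 b = fun ν : E3 => (((inner ℝ (b 0) ν / inner ℝ (b 2) ν : ℝ) : ℂ) +
      ((inner ℝ (b 1) ν / inner ℝ (b 2) ν : ℝ) : ℂ) * Complex.I) := by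
    funext ν
    exact Complex.mk_eq_add_mul_I _ _
  rw [e]
  have h2 : ContinuousOn (fun ν : E3 => (inner ℝ (b 2) ν : ℝ)) {ν | 0 < (inner ℝ (b 2) ν : ℝ)} :=
    (by fun_prop : Continuous (fun ν : E3 => (inner ℝ (b 2) ν : ℝ))).continuousOn
  have h3 : ∀ i, ContinuousOn (fun ν : E3 => (inner ℝ (b i) ν : ℝ) / (inner ℝ (b 2) ν : ℝ))
      {ν | 0 < (inner ℝ (b 2) ν : ℝ)} := fun i =>
    ((by fun_prop : Continuous (fun ν : E3 => (inner ℝ (b i) ν : ℝ))).continuousOn).div h2
      (fun ν hν => (ne_of_gt hν))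
  exact (Complex.continuous_ofReal.comp_continuousOn (h3 0)).add
    ((Complex.continuous_ofReal.comp_continuousOn (h3 1)).mul continuousOn_const)

theorem closed_D_8683 (b : OrthonormalBasis (Fin 3) ℝ E3) {M : Set ℂ} (hM : IsCompact M) :
    IsClosed {ν : E3 | ∃ z ∈ M, 0 ≤ (inner ℝ (b 2) ν : ℝ) ∧
      ν = (inner ℝ (b 2) ν : ℝ) • chart b z} := by
  haveI : CompactSpace M := isCompact_iff_compactSpace.1 hM
  have hc := chart_continuous_8683 b
  have h1 : IsClosed {p : E3 × M | 0 ≤ (inner ℝ (b 2) p.1 : ℝ) ∧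
      p.1 = (inner ℝ (b 2) p.1 : ℝ) • chart b p.2} := by
    have h2 : Continuous (fun p : E3 × M => (inner ℝ (b 2) p.1 : ℝ)) := by fun_prop
    refine (isClosed_le continuous_const h2).inter (isClosed_eq continuous_fst ?_)
    exact h2.smul (hc.comp (continuous_subtype_val.comp continuous_snd))
  have h2 := isClosedMap_fst_of_compactSpace _ h1
  convert h2 using 1
  ext ν
  constructor
  · rintro ⟨z, hz, h⟩
    exact ⟨(ν, ⟨z, hz⟩), h, rfl⟩
  · rintro ⟨⟨ν', z⟩, h, rfl⟩
    exact ⟨z, z.2, h⟩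

theorem lt_hs_8683 {K : Set E3} (hK : IsCompact K) {x ν : E3} (hx : x ∈ interior K) (hν : ν ≠ 0) :
    (inner ℝ x ν : ℝ) < hs K ν := by
  have h1 : Filter.Tendsto (fun t : ℝ => x + t • ν) (nhdsWithin 0 (Ioi 0)) (nhds x) := by
    have : Continuous (fun t : ℝ => x + t • ν) := by fun_prop
    have h2 := this.tendsto 0
    simp only [zero_smul, add_zero] at h2
    exact h2.mono_left nhdsWithin_le_nhds
  have h2 := (h1.eventually (isOpen_interior.mem_nhds hx)).and self_mem_nhdsWithin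
  obtain ⟨t, ht, ht0⟩ := h2.exists
  have h3 := inner_le_hs hK (interior_subset ht) ν
  rw [inner_add_left, inner_smul_left] at h3
  have h4 : 0 < (inner ℝ ν ν : ℝ) := by
    rw [real_inner_self_eq_norm_sq]
    exact pow_pos (norm_pos_iff.2 hν) 2
  have h5 : 0 < t * (inner ℝ ν ν : ℝ) := mul_pos ht0 h4
  simp only [conj_trivial] at h3
  linarith

theorem mem_frontier_8683 {K : Set E3} (hK : IsCompact K) {x ν : E3} (hx : x ∈ K) (hν : ν ≠ 0)
    (h : (inner ℝ x ν : ℝ) = hs K ν) : x ∈ frontier K := by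
  refine ⟨subset_closure hx, fun hi => ?_⟩
  have := lt_hs_8683 hK hi hν
  linarith

theorem not_opp_8683 {K : Set E3} (hK : Body K) {x ν : E3} (hν : ν ≠ 0)
    (h1 : (inner ℝ x ν : ℝ) = hs K ν) (h2 : (inner ℝ x (-ν) : ℝ) = hs K (-ν)) : False := by
  obtain ⟨y, hy⟩ := hK.int
  have h3 := lt_hs_8683 hK.comp hy hν
  have h4 := lt_hs_8683 hK.comp hy (neg_ne_zero.2 hν)
  rw [← h1] at h3
  rw [← h2, inner_neg_right, inner_neg_right] at h4
  linarith

theorem exists_normal_8683 {K : Set E3} (hK : Body K) {x : E3} (hx : x ∈ frontier K) :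
    ∃ ν : E3, ‖ν‖ = 1 ∧ (inner ℝ x ν : ℝ) = hs K ν := by
  have hxK : x ∈ K := hK.comp.isClosed.frontier_subset hx
  obtain ⟨f, hf⟩ := geometric_hahn_banach_open_point hK.conv.interior isOpen_interior hx.2
  set u : E3 := (InnerProductSpace.toDual ℝ E3).symm f with hu
  have hfu : ∀ y : E3, f y = inner ℝ y u := by
    intro y
    rw [real_inner_comm, hu, InnerProductSpace.toDual_symm_apply]
  have hu0 : u ≠ 0 := by
    intro h0
    obtain ⟨y, hy⟩ := hK.int
    have := hf y hy
    rw [hfu, hfu, h0, inner_zero_right, inner_zero_right] at this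
    exact lt_irrefl _ this
  have hle : ∀ y ∈ K, (inner ℝ y u : ℝ) ≤ inner ℝ x u := by
    have h1 : K ⊆ closure (interior K) := by
      rw [hK.conv.closure_interior_eq_closure_of_nonempty_interior hK.int]
      exact subset_closure
    have h2 : closure (interior K) ⊆ {y | (inner ℝ y u : ℝ) ≤ inner ℝ x u} := by
      refine closure_minimal ?_ (isClosed_le (by fun_prop) continuous_const)
      intro y hy
      have := hf y hy
      rw [hfu, hfu] at this
      exact this.le
    exact fun y hy => h2 (h1 hy)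
  have hxu : (inner ℝ x u : ℝ) = hs K u := le_antisymm (inner_le_hs hK.comp hxK u)
    (hs_le hK.ne hle)
  have hn : 0 < ‖u‖ := norm_pos_iff.2 hu0
  refine ⟨‖u‖⁻¹ • u, ?_, ?_⟩
  · rw [norm_smul, norm_inv, norm_norm, inv_mul_cancel₀ hn.ne']
  · rw [inner_smul_right, hs_smul hK.comp hK.ne (inv_pos.2 hn).le, hxu]

section

variable {K L' : Set E3} (hK : Body K) (hL : Body L')
    (b : OrthonormalBasis (Fin 3) ℝ E3) {U M : Set ℂ} (hU : IsOpen U) (hM : IsCompact M)
    (hle : ∀ z ∈ U, hs K (chart b z) ≤ hs L' (chart b z))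
    (hMe : ∀ z, z ∈ M ↔ z ∈ U ∧ hs K (chart b z) = hs L' (chart b z))

include hK hL hle in
theorem cone_le_8683 {ν : E3} (hν : ν ∈ cone_8683 b U) : hs K ν ≤ hs L' ν := by
  have h1 : 0 < (inner ℝ (b 2) ν : ℝ) := hν.1
  rw [← eq_chart_8683 b h1, hs_smul hK.comp hK.ne h1.le, hs_smul hL.comp hL.ne h1.le]
  exact mul_le_mul_of_nonneg_left (hle _ hν.2) h1.le

include hK hL hMe in
theorem cone_eq_8683 {ν : E3} (hν : ν ∈ cone_8683 b U) (h : hs K ν = hs L' ν) :
    q_8683 b ν ∈ M := by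
  have h1 : 0 < (inner ℝ (b 2) ν : ℝ) := hν.1
  refine (hMe _).2 ⟨hν.2, ?_⟩
  rw [← eq_chart_8683 b h1, hs_smul hK.comp hK.ne h1.le, hs_smul hL.comp hL.ne h1.le] at h
  exact mul_left_cancel₀ h1.ne' h

theorem chart_mem_cone_8683 {z : ℂ} (hz : z ∈ U) : chart b z ∈ cone_8683 b U := by
  refine ⟨?_, ?_⟩
  · simp only [mem_setOf_eq, inner_chart_8683]
    exact one_pos
  · have := q_smul_chart_8683 b one_pos z
    rw [one_smul] at this
    rw [mem_preimage, this]
    exact hz

include hK hL hU hle hMe in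
theorem mem_L_8683 {x : E3} {z0 : ℂ} (hz0 : z0 ∈ M) (hx : x ∈ face K (chart b z0)) : x ∈ L' := by
  refine mem_of_inner_le hL.conv hL.comp hL.ne fun ν => ?_
  by_contra hlt
  push Not at hlt
  have hz := (hMe z0).1 hz0
  have h1 : Filter.Tendsto (fun t : ℝ => chart b z0 + t • ν) (nhdsWithin 0 (Ioi 0))
      (nhds (chart b z0)) := by
    have : Continuous (fun t : ℝ => chart b z0 + t • ν) := by fun_prop
    have h2 := this.tendsto 0
    simp only [zero_smul, add_zero] at h2
    exact h2.mono_left nhdsWithin_le_nhds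
  have h2 := (h1.eventually ((isOpen_cone_8683 b hU).mem_nhds
    (chart_mem_cone_8683 b hz.1))).and self_mem_nhdsWithin
  obtain ⟨t, ht, ht0⟩ := h2.exists
  have ht0' : 0 < t := ht0
  have h3 := cone_le_8683 hK hL b hle ht
  have h4 := inner_le_hs hK.comp hx.1 (chart b z0 + t • ν)
  have h5 := hs_add_le hL.comp hL.ne (chart b z0) (t • ν)
  rw [hs_smul hL.comp hL.ne ht0'.le] at h5
  rw [inner_add_right, inner_smul_right, hx.2, hz.2] at h4
  have h6 := mul_lt_mul_of_pos_left hlt ht0'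
  linarith

include hK hL hU hM hle hMe in
theorem normals_8683 {x : E3} (hxK : x ∈ K) (hxL : x ∈ L') {z0 : ℂ} (hz0 : z0 ∈ M)
    (hx0 : (inner ℝ x (chart b z0) : ℝ) = hs L' (chart b z0)) {ν : E3} (hν0 : ν ≠ 0)
    (hν : (inner ℝ x ν : ℝ) = hs L' ν) : ν ∈ cone_8683 b U := by
  obtain ⟨ν0, hν0e⟩ : ∃ ν0, ν0 = chart b z0 := ⟨_, rfl⟩
  have hν00 : ν0 ≠ 0 := by rw [hν0e]; exact chart_ne_8683 b z0
  rw [← hν0e] at hx0
  obtain ⟨p, hp⟩ : ∃ p : unitInterval → E3, ∀ t, p t = (1 - (t : ℝ)) • ν0 + (t : ℝ) • ν :=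
    ⟨_, fun _ => rfl⟩
  have hpc : Continuous p := by
    have : p = fun t : unitInterval => (1 - (t : ℝ)) • ν0 + (t : ℝ) • ν := funext hp
    rw [this]
    fun_prop
  -- `x` is a support point in all directions `p t`
  have hpN : ∀ t, (inner ℝ x (p t) : ℝ) = hs L' (p t) := by
    intro t
    have ht := t.2
    refine le_antisymm (inner_le_hs hL.comp hxL _) ?_
    have h5 := hs_add_le hL.comp hL.ne ((1 - (t : ℝ)) • ν0) ((t : ℝ) • ν)
    rw [hs_smul hL.comp hL.ne ht.1, hs_smul hL.comp hL.ne (by linarith [ht.2])] at h5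
    rw [hp, inner_add_right, inner_smul_right, inner_smul_right, hx0, hν]
    exact h5
  have hp0 : ∀ t, p t ≠ 0 := by
    intro t h
    have ht := t.2
    rw [hp] at h
    rcases eq_or_lt_of_le ht.1 with h0 | h0
    · rw [← h0] at h
      simp only [sub_zero, one_smul, zero_smul, add_zero] at h
      exact hν00 h
    · rcases eq_or_lt_of_le ht.2 with h1 | h1
      · rw [h1] at h
        simp only [sub_self, zero_smul, one_smul, zero_add] at h
        exact hν0 h
      · have h2 : (t : ℝ) • ν = (1 - (t : ℝ)) • (-ν0) := by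
          rw [smul_neg]
          exact eq_neg_of_add_eq_zero_right h
        have h3 : 0 < 1 - (t : ℝ) := by linarith
        have h4 : -ν0 = ((1 - (t : ℝ))⁻¹ * t) • ν := by
          rw [mul_smul, h2, smul_smul, inv_mul_cancel₀ h3.ne', one_smul]
        refine not_opp_8683 hL hν00 hx0 ?_
        rw [h4, inner_smul_right, hs_smul hL.comp hL.ne (by positivity), hν]
  have hiff : ∀ t, p t ∈ cone_8683 b U ↔ p t ∈ {ν : E3 | ∃ z ∈ M, 0 ≤ (inner ℝ (b 2) ν : ℝ) ∧
      ν = (inner ℝ (b 2) ν : ℝ) • chart b z} := by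
    intro t
    constructor
    · intro h
      have h1 : hs K (p t) = hs L' (p t) := by
        refine le_antisymm (cone_le_8683 hK hL b hle h) ?_
        rw [← hpN t]
        exact inner_le_hs hK.comp hxK _
      have h0 : 0 < (inner ℝ (b 2) (p t) : ℝ) := h.1
      exact ⟨_, cone_eq_8683 hK hL b hMe h h1, h0.le, (eq_chart_8683 b h0).symm⟩
    · rintro ⟨z, hz, h1, h2⟩
      have h3 : (inner ℝ (b 2) (p t) : ℝ) ≠ 0 := by
        intro h
        rw [h, zero_smul] at h2
        exact hp0 t h2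
      have h4 : 0 < (inner ℝ (b 2) (p t) : ℝ) := lt_of_le_of_ne h1 (Ne.symm h3)
      refine ⟨h4, ?_⟩
      rw [mem_preimage, h2, q_smul_chart_8683 b h4]
      exact ((hMe z).1 hz).1
  have hclopen : IsClopen {t | p t ∈ cone_8683 b U} := by
    refine ⟨?_, (isOpen_cone_8683 b hU).preimage hpc⟩
    have e : {t | p t ∈ cone_8683 b U} = p ⁻¹' {ν : E3 | ∃ z ∈ M, 0 ≤ (inner ℝ (b 2) ν : ℝ) ∧
      ν = (inner ℝ (b 2) ν : ℝ) • chart b z} := by
      ext t
      exact hiff t
    rw [e]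
    exact (closed_D_8683 b hM).preimage hpc
  have hp0' : p 0 = ν0 := by
    rw [hp]
    simp
  have hp1' : p 1 = ν := by
    rw [hp]
    simp
  have huniv := hclopen.eq_univ ⟨0, by
    change p 0 ∈ cone_8683 b U
    rw [hp0', hν0e]
    exact chart_mem_cone_8683 b ((hMe z0).1 hz0).1⟩
  have h1 : (1 : unitInterval) ∈ {t | p t ∈ cone_8683 b U} := by
    rw [huniv]
    trivial
  rw [← hp1']
  exact h1

include hK hL hU hM hle hMe in
theorem contact_8683 (hMne : M.Nonempty) :
    ∃ X : Set E3, X.Nonempty ∧ IsCompact X ∧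
      X ⊆ frontier K ∩ frontier L' ∧
      (∃ ρ > 0, (∀ y ∈ frontier K ∩ frontier L', infDist y X < ρ → y ∈ X) ∧
        (∀ y ∈ K, infDist y X < ρ → y ∈ L')) := by
  have hc := chart_continuous_8683 b
  obtain ⟨X, hX⟩ : ∃ X : Set E3, X = {x | ∃ z ∈ M, x ∈ face K (chart b z)} := ⟨_, rfl⟩
  have hXc : IsCompact X := by
    have h1 : IsCompact ((K ×ˢ M) ∩ {p : E3 × ℂ | (inner ℝ p.1 (chart b p.2) : ℝ) =
        hs K (chart b p.2)}) := by
      refine (hK.comp.prod hM).inter_right (isClosed_eq ?_ ?_)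
      · exact continuous_fst.inner (hc.comp continuous_snd)
      · exact (hs_continuous hK.comp hK.ne).comp (hc.comp continuous_snd)
    have h2 := h1.image continuous_fst
    convert h2 using 1
    rw [hX]
    ext x
    simp only [mem_setOf_eq, mem_image, mem_inter_iff, mem_prod, Prod.exists, exists_and_right,
      exists_eq_right, face]
    constructor
    · rintro ⟨z, hz, h3, h4⟩
      exact ⟨z, ⟨h3, hz⟩, h4⟩
    · rintro ⟨z, ⟨h3, hz⟩, h4⟩
      exact ⟨z, hz, h3, h4⟩
  have hXne : X.Nonempty := by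
    obtain ⟨z, hz⟩ := hMne
    obtain ⟨x, hx⟩ := exists_face hK.comp hK.ne (chart b z)
    exact ⟨x, by rw [hX]; exact ⟨z, hz, hx⟩⟩
  have hXK : X ⊆ K := by
    rw [hX]
    rintro x ⟨z, hz, hx⟩
    exact hx.1
  have hXL : X ⊆ L' := by
    rw [hX]
    rintro x ⟨z, hz, hx⟩
    exact mem_L_8683 hK hL b hU hle hMe hz hx
  have hXf : X ⊆ frontier K ∩ frontier L' := by
    intro x hx
    have hxK := hXK hx
    have hxL := hXL hx
    rw [hX] at hx
    obtain ⟨z, hz, hxz⟩ := hx
    refine ⟨mem_frontier_8683 hK.comp hxK (chart_ne_8683 b z) hxz.2,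
      mem_frontier_8683 hL.comp hxL (chart_ne_8683 b z) ?_⟩
    rw [hxz.2]
    exact ((hMe z).1 hz).2
  -- the set of points of `L'` with a normal outside the cone
  obtain ⟨P, hP⟩ : ∃ P : Set E3, P = {y | y ∈ L' ∧ ∃ ν : E3, ‖ν‖ = 1 ∧
      (inner ℝ y ν : ℝ) = hs L' ν ∧ ν ∉ cone_8683 b U} := ⟨_, rfl⟩
  have hPc : IsCompact P := by
    have h1 : IsCompact ((L' ×ˢ sphere (0 : E3) 1) ∩ ({p : E3 × E3 | (inner ℝ p.1 p.2 : ℝ) =
        hs L' p.2} ∩ {p : E3 × E3 | p.2 ∈ (cone_8683 b U)ᶜ})) := by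
      refine (hL.comp.prod (isCompact_sphere _ _)).inter_right ((isClosed_eq ?_ ?_).inter ?_)
      · exact continuous_fst.inner continuous_snd
      · exact (hs_continuous hL.comp hL.ne).comp continuous_snd
      · exact (isOpen_cone_8683 b hU).isClosed_compl.preimage continuous_snd
    have h2 := h1.image continuous_fst
    convert h2 using 1
    rw [hP]
    ext x
    simp only [mem_setOf_eq, mem_image, mem_inter_iff, mem_prod, Prod.exists, exists_and_right,
      exists_eq_right, mem_sphere_iff_norm, sub_zero, mem_compl_iff]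
    constructor
    · rintro ⟨h3, ν, h4, h5, h6⟩
      exact ⟨ν, ⟨h3, h4⟩, h5, h6⟩
    · rintro ⟨ν, ⟨h3, h4⟩, h5, h6⟩
      exact ⟨h3, ν, h4, h5, h6⟩
  have hPX : ∀ y ∈ P, y ∉ X := by
    intro y hyP hyX
    rw [hP] at hyP
    obtain ⟨hyL, ν, h1, h2, h3⟩ := hyP
    have hyK := hXK hyX
    rw [hX] at hyX
    obtain ⟨z, hz, hyz⟩ := hyX
    refine h3 (normals_8683 hK hL b hU hM hle hMe hyK hyL hz ?_ ?_ h2)
    · rw [hyz.2]
      exact ((hMe z).1 hz).2
    · intro h0
      rw [h0, norm_zero] at h1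
      exact zero_ne_one h1
  obtain ⟨ρ, hρ0, hρ⟩ : ∃ ρ > 0, ∀ y ∈ P, ρ ≤ infDist y X := by
    rcases P.eq_empty_or_nonempty with he | hne
    · exact ⟨1, one_pos, by rw [he]; intro y hy; exact absurd hy (notMem_empty _)⟩
    · obtain ⟨y0, hy0, hmin⟩ := hPc.exists_isMinOn hne (continuous_infDist_pt X).continuousOn
      exact ⟨infDist y0 X, (hXc.isClosed.notMem_iff_infDist_pos hXne).1 (hPX y0 hy0),
        fun y hy => hmin hy⟩
  refine ⟨X, hXne, hXc, hXf, ρ / 2, half_pos hρ0, ?_, ?_⟩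
  · rintro y ⟨hyK, hyL⟩ hd
    have hyK' : y ∈ K := hK.comp.isClosed.frontier_subset hyK
    have hyL' : y ∈ L' := hL.comp.isClosed.frontier_subset hyL
    obtain ⟨ν, hν1, hν2⟩ := exists_normal_8683 hL hyL
    have hyP : y ∉ P := fun h => by
      have := hρ y h
      linarith
    have hν3 : ν ∈ cone_8683 b U := by
      by_contra h
      exact hyP (by rw [hP]; exact ⟨hyL', ν, hν1, hν2, h⟩)
    have h1 : hs K ν = hs L' ν := by
      refine le_antisymm (cone_le_8683 hK hL b hle hν3) ?_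
      rw [← hν2]
      exact inner_le_hs hK.comp hyK' _
    rw [hX]
    refine ⟨_, cone_eq_8683 hK hL b hMe hν3 h1, ?_⟩
    have h0 : 0 < (inner ℝ (b 2) ν : ℝ) := hν3.1
    rw [← face_smul hK.comp hK.ne h0, eq_chart_8683 b h0]
    exact ⟨hyK', by rw [hν2, h1]⟩
  · intro y hyK hd
    by_contra hyL
    obtain ⟨y', hy', hdist⟩ := hL.comp.exists_infDist_eq_dist hL.ne y
    have hlt : 0 < infDist y L' := (hL.comp.isClosed.notMem_iff_infDist_pos hL.ne).1 hyL
    have hn : 0 < ‖y - y'‖ := by rw [← dist_eq_norm, ← hdist]; exact hlt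
    -- the normal at the nearest point
    have hnorm : ∀ w ∈ L', (inner ℝ (y - y') (w - y') : ℝ) ≤ 0 := by
      have hmin : ‖y - y'‖ = ⨅ w : L', ‖y - w‖ := by
        rw [← dist_eq_norm, ← hdist, infDist_eq_iInf]
        simp only [dist_eq_norm]
      exact (norm_eq_iInf_iff_real_inner_le_zero hL.conv hy').1 hmin
    have hX1 : infDist y L' ≤ infDist y X := infDist_le_infDist_of_subset hXL hXne
    have hX2 : infDist y' X ≤ infDist y X + dist y' y := infDist_le_infDist_add_dist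
    have hX3 : infDist y' X < ρ := by
      rw [dist_comm, ← hdist] at hX2
      linarith
    obtain ⟨ν, hνe⟩ : ∃ ν, ν = ‖y - y'‖⁻¹ • (y - y') := ⟨_, rfl⟩
    have hν1 : ‖ν‖ = 1 := by
      rw [hνe, norm_smul, norm_inv, norm_norm, inv_mul_cancel₀ hn.ne']
    have hν2 : (inner ℝ y' ν : ℝ) = hs L' ν := by
      refine le_antisymm (inner_le_hs hL.comp hy' _) (hs_le hL.ne fun w hw => ?_)
      have h1 := hnorm w hw
      rw [real_inner_comm, inner_sub_left] at h1
      rw [hνe, inner_smul_right, inner_smul_right]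
      exact mul_le_mul_of_nonneg_left (by linarith) (inv_pos.2 hn).le
    have hν3 : ν ∈ cone_8683 b U := by
      by_contra h
      have hyP : y' ∈ P := by rw [hP]; exact ⟨hy', ν, hν1, hν2, h⟩
      have := hρ y' hyP
      linarith
    have h1 := cone_le_8683 hK hL b hle hν3
    have h2 := inner_le_hs hK.comp hyK ν
    have h3 : (inner ℝ y ν : ℝ) - inner ℝ y' ν = ‖y - y'‖ := by
      rw [← inner_sub_left, hνe, inner_smul_right, real_inner_self_eq_norm_sq]
      field_simp
    linarith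

end

/-- local contact lemma: slide `L` outwards until its support function touches that of `K` from
above over `U`; the contact set is a clopen part of the common boundary. -/
theorem local_contact {K L : Set E3} (hK : Body K) (hL : Body L)
    (b : OrthonormalBasis (Fin 3) ℝ E3) (U : Set ℂ) (hU : IsOpen U)
    (hUb : Bornology.IsBounded U)
    (hfr : ∀ z ∈ frontier U, hs K (chart b z) < hs L (chart b z)) (z1 : ℂ) (hz1 : z1 ∈ U)
    (h1 : hs L (chart b z1) ≤ hs K (chart b z1)) :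
    ∃ c : ℝ, 0 ≤ c ∧ ∃ X : Set E3, X.Nonempty ∧ IsCompact X ∧
      X ⊆ frontier K ∩ frontier ((fun x => x + c • b 2) '' L) ∧
      (∃ ρ > 0, (∀ y ∈ frontier K ∩ frontier ((fun x => x + c • b 2) '' L),
          infDist y X < ρ → y ∈ X) ∧
        (∀ y ∈ K, infDist y X < ρ → y ∈ (fun x => x + c • b 2) '' L)) ∧
      K ≠ (fun x => x + c • b 2) '' L := by
  have hc := chart_continuous_8683 b
  have hcK : Continuous fun z => hs K (chart b z) := (hs_continuous hK.comp hK.ne).comp hc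
  have hcL : Continuous fun z => hs L (chart b z) := (hs_continuous hL.comp hL.ne).comp hc
  have hcl : IsCompact (closure U) := hUb.isCompact_closure
  obtain ⟨z0, hz0, hmax⟩ := hcl.exists_isMaxOn ⟨z1, subset_closure hz1⟩
    (hcK.sub hcL).continuousOn
  obtain ⟨c, hce⟩ : ∃ c, c = hs K (chart b z0) - hs L (chart b z0) := ⟨_, rfl⟩
  have hmax' : ∀ z ∈ closure U, hs K (chart b z) - hs L (chart b z) ≤ c := by
    intro z hz
    rw [hce]
    exact hmax hz
  have hc0 : 0 ≤ c := by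
    have := hmax' z1 (subset_closure hz1)
    linarith
  have hsL : ∀ u, hs ((fun x => x + c • b 2) '' L) u = hs L u + c * inner ℝ (b 2) u := by
    intro u
    have := hs_image_linear hL.comp hL.ne (LinearIsometryEquiv.refl ℝ E3) (c • b 2) u
    rw [inner_smul_left] at this
    exact this
  have hsL' : ∀ z, hs ((fun x => x + c • b 2) '' L) (chart b z) = hs L (chart b z) + c := by
    intro z
    rw [hsL, inner_chart_8683, mul_one]
  have hL' : Body ((fun x => x + c • b 2) '' L) := hL.image (IsometryEquiv.addRight (c • b 2))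
  have hne : K ≠ (fun x => x + c • b 2) '' L := by
    intro he
    have hfne : (frontier U).Nonempty := by
      rw [Set.nonempty_iff_ne_empty]
      intro h
      have h2 : IsClopen U := isClopen_iff_frontier_eq_empty.2 h
      have h3 := h2.eq_univ ⟨z1, hz1⟩
      rw [h3, closure_univ] at hcl
      exact noncompact_univ ℂ hcl
    obtain ⟨z, hz⟩ := hfne
    have h2 := hfr z hz
    have h3 := hsL' z
    rw [← he] at h3
    linarith
  obtain ⟨M, hMe⟩ : ∃ M : Set ℂ, M = {z | z ∈ closure U ∧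
      hs K (chart b z) = hs ((fun x => x + c • b 2) '' L) (chart b z)} := ⟨_, rfl⟩
  have hM : IsCompact M := by
    rw [hMe]
    exact hcl.inter_right (isClosed_eq hcK (by simp only [hsL']; exact hcL.add continuous_const))
  have hMU : ∀ z, z ∈ M ↔ z ∈ U ∧
      hs K (chart b z) = hs ((fun x => x + c • b 2) '' L) (chart b z) := by
    intro z
    rw [hMe]
    constructor
    · rintro ⟨h2, h3⟩
      refine ⟨?_, h3⟩
      by_contra hzU
      have h4 := hfr z ⟨h2, by rw [hU.interior_eq]; exact hzU⟩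
      rw [hsL'] at h3
      linarith
    · rintro ⟨h2, h3⟩
      exact ⟨subset_closure h2, h3⟩
  have hMne : M.Nonempty := ⟨z0, by rw [hMe]; exact ⟨hz0, by rw [hsL', hce]; ring⟩⟩
  obtain ⟨X, hX1, hX2, hX3, hX4⟩ := contact_8683 hK hL' b hU hM
    (fun z hz => by rw [hsL']; linarith [hmax' z (subset_closure hz)]) hMU hMne
  exact ⟨c, hc0, X, hX1, hX2, hX3, hX4, hne⟩

end Pool.Agent.Helper968.SC.G1
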