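import Mathlib
import Pool.Agent.Helper968.SC.Base
set_option autoImplicit false
open Set Metric
namespace Pool.Agent.Helper968.SC.G10

theorem rc_const {G : ℝ → ℝ} {a b C : ℝ} (hab : a < b) (hG : Continuous G)
    (h : ∀ x ∈ Ioo a b, ∀ y ∈ Ioo a b, G x - G y ≤ C * (y - x) ^ 2) :
    ∀ x ∈ Icc a b, ∀ y ∈ Icc a b, G x = G y := by
  have hder : ∀ c ∈ Ioo a b, HasDerivAt G 0 c := by
    intro c hc
    rw [hasDerivAt_iff_isLittleO]
    refine Asymptotics.IsBigO.trans_isLittleO ?_
      (Asymptotics.isLittleO_pow_sub_sub c (show 1 < 2 by norm_num))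
    refine Asymptotics.IsBigO.of_bound C ?_
    filter_upwards [Ioo_mem_nhds hc.1 hc.2] with y hy
    have h1 := h y hy c hc
    have h2 := h c hc y hy
    rw [smul_zero, sub_zero, Real.norm_eq_abs, Real.norm_eq_abs, Real.norm_eq_abs, sq_abs,
      abs_of_nonneg (sq_nonneg (y - c)), abs_le]
    have h3 : (c - y) ^ 2 = (y - c) ^ 2 := by ring
    rw [h3] at h1
    constructor <;> linarith
  have hlt : ∀ x ∈ Icc a b, ∀ y ∈ Icc a b, x < y → G x = G y := by
    intro x hx y hy hxy
    obtain ⟨c, hc, hc'⟩ := exists_hasDerivAt_eq_slope G (fun _ => 0) hxy hG.continuousOn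
      (fun z hz => hder z ⟨lt_of_le_of_lt hx.1 hz.1, lt_of_lt_of_le hz.2 hy.2⟩)
    have h1 : G y - G x = 0 := by
      have hne : y - x ≠ 0 := by
        have : 0 < y - x := by linarith
        exact this.ne'
      have h2 := hc'.symm
      rw [div_eq_iff hne, zero_mul] at h2
      exact h2
    linarith
  intro x hx y hy
  rcases lt_trichotomy x y with hxy | hxy | hxy
  · exact hlt x hx y hy hxy
  · rw [hxy]
  · exact (hlt y hy x hx hxy).symm

theorem rc_angle {x y ρ : ℝ} (hρ : 0 ≤ ρ) (hx : 0 ≤ x) (h : x ^ 2 + y ^ 2 = ρ ^ 2) :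
    ∃ φ ∈ Icc (-(Real.pi / 2)) (Real.pi / 2), x = ρ * Real.cos φ ∧ y = ρ * Real.sin φ := by
  rcases hρ.eq_or_lt with h0 | h0
  · rw [← h0] at h
    have hx0 : x = 0 := by nlinarith [sq_nonneg x, sq_nonneg y]
    have hy0 : y = 0 := by
      rw [hx0] at h
      have : y ^ 2 = 0 := by linarith
      exact pow_eq_zero_iff (two_ne_zero) |>.1 this
    refine ⟨0, ⟨by linarith [Real.pi_pos], by linarith [Real.pi_pos]⟩, ?_, ?_⟩
    · rw [← h0, hx0]; simp
    · rw [← h0, hy0]; simp
  · have hy1 : |y / ρ| ≤ 1 := by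
      rw [abs_div, abs_of_pos h0, div_le_one h0]
      apply abs_le_of_sq_le_sq _ h0.le
      nlinarith [sq_nonneg x]
    rw [abs_le] at hy1
    refine ⟨Real.arcsin (y / ρ), ⟨Real.neg_pi_div_two_le_arcsin _, Real.arcsin_le_pi_div_two _⟩,
      ?_, ?_⟩
    · rw [Real.cos_arcsin]
      have h1 : 1 - (y / ρ) ^ 2 = (x / ρ) ^ 2 := by
        field_simp
        linarith
      rw [h1, Real.sqrt_sq (by positivity)]
      field_simp
    · rw [Real.sin_arcsin hy1.1 hy1.2]
      field_simp

/-- invariance under rotation about `n` on a half space -/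
theorem rot_const {K : Set E3} (hK : Body K) (n q D : E3) (hn : ‖n‖ = 1)
    (hD : inner ℝ D n = (0:ℝ)) (hD0 : D ≠ 0)
    (key : ∀ w e : E3, 0 < (inner ℝ D w : ℝ) → ‖e‖ = 1 → inner ℝ e n = (0:ℝ) →
      inner ℝ e w = (0:ℝ) → inner ℝ D e ≠ (0:ℝ) →
      ∃ x ∈ face K w, (inner ℝ x e : ℝ) = inner ℝ q e) :
    ∀ w w' : E3, ‖w‖ = ‖w'‖ → (inner ℝ w n : ℝ) = inner ℝ w' n → 0 ≤ (inner ℝ D w : ℝ) →
      0 ≤ (inner ℝ D w' : ℝ) → hs K w - inner ℝ q w = hs K w' - inner ℝ q w' := by
  have hDpos : 0 < ‖D‖ := norm_pos_iff.2 hD0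
  obtain ⟨d, hDd, hdn, hnd⟩ : ∃ d : E3, D = ‖D‖ • d ∧ ‖d‖ = 1 ∧ (inner ℝ n d : ℝ) = 0 := by
    refine ⟨(‖D‖)⁻¹ • D, ?_, ?_, ?_⟩
    · rw [smul_smul, mul_inv_cancel₀ hDpos.ne', one_smul]
    · rw [norm_smul, norm_inv, norm_norm, inv_mul_cancel₀ hDpos.ne']
    · rw [inner_smul_right, real_inner_comm, hD, mul_zero]
  -- the basis
  obtain ⟨g, hgn, hgg, hgd, hexp⟩ : ∃ g : E3, (inner ℝ n g : ℝ) = 0 ∧ ‖g‖ = 1 ∧
      (inner ℝ d g : ℝ) = 0 ∧ ∀ w : E3, w = (inner ℝ n w : ℝ) • n + (inner ℝ d w : ℝ) • d +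
        (inner ℝ g w : ℝ) • g := by
    have hort : Orthonormal ℝ ((({0, 1} : Set (Fin 3))).domRestrict (![n, d, 0] : Fin 3 → E3)) := by
      constructor
      · rintro ⟨i, hi⟩
        rcases hi with rfl | rfl
        · exact hn
        · exact hdn
      · rintro ⟨i, hi⟩ ⟨j, hj⟩ hij
        rcases hi with rfl | rfl <;> rcases hj with rfl | rfl
        · exact absurd rfl hij
        · exact hnd
        · show (inner ℝ d n : ℝ) = 0
          rw [real_inner_comm]; exact hnd
        · exact absurd rfl hij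
    obtain ⟨b, hb⟩ := hort.exists_orthonormalBasis_extension_of_card_eq (by simp)
    have hb0 : b 0 = n := hb 0 (by simp)
    have hb1 : b 1 = d := hb 1 (by simp)
    refine ⟨b 2, ?_, b.orthonormal.1 2, ?_, ?_⟩
    · rw [← hb0]; exact b.orthonormal.2 (by decide)
    · rw [← hb1]; exact b.orthonormal.2 (by decide)
    · intro w
      have := b.sum_repr' w
      rw [Fin.sum_univ_three, hb0, hb1] at this
      exact this.symm
  have hnn : (inner ℝ n n : ℝ) = 1 := by rw [real_inner_self_eq_norm_sq, hn]; norm_num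
  have hdd : (inner ℝ d d : ℝ) = 1 := by rw [real_inner_self_eq_norm_sq, hdn]; norm_num
  have hgg' : (inner ℝ g g : ℝ) = 1 := by rw [real_inner_self_eq_norm_sq, hgg]; norm_num
  have hdn' : (inner ℝ d n : ℝ) = 0 := by rw [real_inner_comm]; exact hnd
  have hgn' : (inner ℝ g n : ℝ) = 0 := by rw [real_inner_comm]; exact hgn
  have hgd' : (inner ℝ g d : ℝ) = 0 := by rw [real_inner_comm]; exact hgd
  -- the circle
  set r : ℝ → E3 := fun φ => Real.cos φ • d + Real.sin φ • g with hr
  set e : ℝ → E3 := fun φ => (-Real.sin φ) • d + Real.cos φ • g with he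
  have key2 : ∀ a ρ : ℝ, 0 ≤ ρ → ∀ φ ∈ Icc (-(Real.pi / 2)) (Real.pi / 2),
      ∀ φ' ∈ Icc (-(Real.pi / 2)) (Real.pi / 2),
      hs K (a • n + ρ • r φ) - inner ℝ q (a • n + ρ • r φ) =
        hs K (a • n + ρ • r φ') - inner ℝ q (a • n + ρ • r φ') := by
    intro a ρ hρ
    rcases hρ.eq_or_lt with h0 | h0
    · intro φ _ φ' _
      rw [← h0, zero_smul, zero_smul]
    set G : ℝ → ℝ := fun φ => hs K (a • n + ρ • r φ) - inner ℝ q (a • n + ρ • r φ) with hG
    have hrc : Continuous r := by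
      rw [hr]
      exact (Real.continuous_cos.smul continuous_const).add
        (Real.continuous_sin.smul continuous_const)
    have hWc : Continuous (fun φ => a • n + ρ • r φ) :=
      continuous_const.add (hrc.const_smul ρ)
    have hGc : Continuous G := by
      rw [hG]
      exact ((hs_continuous hK.comp hK.ne).comp hWc).sub (continuous_const.inner hWc)
    obtain ⟨C, hC0, hCK, -⟩ := hs_lip hK.comp hK.ne
    have hrn : ∀ φ, ‖r φ‖ ≤ 2 := by
      intro φ
      rw [hr]
      refine (norm_add_le _ _).trans ?_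
      rw [norm_smul, norm_smul, hdn, hgg, Real.norm_eq_abs, Real.norm_eq_abs]
      have h1 := Real.abs_cos_le_one φ
      have h2 := Real.abs_sin_le_one φ
      linarith
    -- the basic estimate
    have est : ∀ φ ∈ Ioo (-(Real.pi / 2)) (Real.pi / 2), Real.sin φ ≠ 0 → ∀ φ' : ℝ,
        G φ - G φ' ≤ (ρ * ((C + ‖q‖) * 2)) / 2 * (φ' - φ) ^ 2 := by
      intro φ hφ hsin φ'
      have hcos : 0 < Real.cos φ := Real.cos_pos_of_mem_Ioo hφ
      have hDW : 0 < (inner ℝ D (a • n + ρ • r φ) : ℝ) := by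
        rw [hDd, hr]
        simp only [inner_smul_left, inner_smul_right, inner_add_right, hdn', hdd, hgd,
          RCLike.conj_to_real]
        simp only [mul_zero, mul_one, zero_add, add_zero]
        positivity
      have hen : ‖e φ‖ = 1 := by
        have h1 : ‖e φ‖ ^ 2 = 1 := by
          rw [← real_inner_self_eq_norm_sq, he]
          simp only [inner_smul_left, inner_smul_right, inner_add_right, inner_add_left, hdd,
            hgd, hgd', hgg', RCLike.conj_to_real]
          have := Real.sin_sq_add_cos_sq φ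
          linarith
        nlinarith [norm_nonneg (e φ)]
      have hen' : (inner ℝ (e φ) n : ℝ) = 0 := by
        rw [he]
        simp only [inner_smul_left, inner_add_left, hdn', hgn']
        simp
      have heW : (inner ℝ (e φ) (a • n + ρ • r φ) : ℝ) = 0 := by
        rw [inner_add_right, inner_smul_right, hen', inner_smul_right, he, hr]
        simp only [inner_smul_left, inner_smul_right, inner_add_right, inner_add_left, hdd,
            hgd, hgd', hgg', RCLike.conj_to_real]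
        ring
      have hDe : (inner ℝ D (e φ) : ℝ) ≠ 0 := by
        rw [hDd, he]
        simp only [inner_smul_left, inner_smul_right, inner_add_right, hdd, hgd,
          RCLike.conj_to_real]
        simp only [mul_zero, mul_one, add_zero]
        exact mul_ne_zero (neg_ne_zero.2 hsin) hDpos.ne'
      obtain ⟨x, hx, hxe⟩ := key _ _ hDW hen hen' heW hDe
      have h1 : hs K (a • n + ρ • r φ) = inner ℝ x (a • n + ρ • r φ) := hx.2.symm
      have h2 : inner ℝ x (a • n + ρ • r φ') ≤ hs K (a • n + ρ • r φ') :=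
        inner_le_hs hK.comp hx.1 _
      have h3 : r φ' = Real.cos (φ' - φ) • r φ + Real.sin (φ' - φ) • e φ := by
        have e1 : Real.cos φ' = Real.cos (φ' - φ) * Real.cos φ - Real.sin (φ' - φ) * Real.sin φ := by
          rw [← Real.cos_add]; congr 1; ring
        have e2 : Real.sin φ' = Real.sin (φ' - φ) * Real.cos φ + Real.cos (φ' - φ) * Real.sin φ := by
          rw [← Real.sin_add]; congr 1; ring
        show Real.cos φ' • d + Real.sin φ' • g = Real.cos (φ' - φ) •
          (Real.cos φ • d + Real.sin φ • g) + Real.sin (φ' - φ) •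
          ((-Real.sin φ) • d + Real.cos φ • g)
        rw [e1, e2]
        module
      have h4 : (inner ℝ (x - q) (e φ) : ℝ) = 0 := by
        rw [inner_sub_left, hxe, sub_self]
      have h5 : (inner ℝ (x - q) (r φ') : ℝ) = Real.cos (φ' - φ) * inner ℝ (x - q) (r φ) := by
        rw [h3, inner_add_right, inner_smul_right, inner_smul_right, h4, mul_zero, add_zero]
      have h6 : G φ - G φ' ≤ ρ * ((1 - Real.cos (φ' - φ)) * inner ℝ (x - q) (r φ)) := by
        show (hs K (a • n + ρ • r φ) - inner ℝ q (a • n + ρ • r φ)) -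
          (hs K (a • n + ρ • r φ') - inner ℝ q (a • n + ρ • r φ')) ≤ _
        rw [h1]
        have e3 : inner ℝ x (a • n + ρ • r φ) - inner ℝ q (a • n + ρ • r φ) -
            (inner ℝ x (a • n + ρ • r φ') - inner ℝ q (a • n + ρ • r φ')) =
            ρ * (inner ℝ (x - q) (r φ) - inner ℝ (x - q) (r φ')) := by
          simp only [inner_add_right, inner_smul_right, inner_sub_left]
          ring
        rw [h5] at e3
        have e4 : ρ * ((1 - Real.cos (φ' - φ)) * (inner ℝ (x - q) (r φ) : ℝ)) =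
          ρ * (inner ℝ (x - q) (r φ) - Real.cos (φ' - φ) * inner ℝ (x - q) (r φ)) := by ring
        rw [e4, ← e3]
        linarith
      have h7 : (inner ℝ (x - q) (r φ) : ℝ) ≤ (C + ‖q‖) * 2 := by
        refine (real_inner_le_norm _ _).trans ?_
        apply mul_le_mul _ (hrn φ) (norm_nonneg _) (by positivity)
        exact (norm_sub_le _ _).trans (by linarith [hCK x hx.1])
      have h8 : 1 - Real.cos (φ' - φ) ≤ (φ' - φ) ^ 2 / 2 := by
        have := Real.one_sub_sq_div_two_le_cos (x := φ' - φ)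
        linarith
      have h9 : 0 ≤ 1 - Real.cos (φ' - φ) := by linarith [Real.cos_le_one (φ' - φ)]
      refine h6.trans ?_
      calc ρ * ((1 - Real.cos (φ' - φ)) * inner ℝ (x - q) (r φ))
          ≤ ρ * ((1 - Real.cos (φ' - φ)) * ((C + ‖q‖) * 2)) := by
            apply mul_le_mul_of_nonneg_left _ h0.le
            exact mul_le_mul_of_nonneg_left h7 h9
        _ ≤ ρ * (((φ' - φ) ^ 2 / 2) * ((C + ‖q‖) * 2)) := by
            apply mul_le_mul_of_nonneg_left _ h0.le
            exact mul_le_mul_of_nonneg_right h8 (by positivity)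
        _ = _ := by ring
    have hpi := Real.pi_pos
    have hpos : ∀ x ∈ Icc 0 (Real.pi / 2), ∀ y ∈ Icc 0 (Real.pi / 2), G x = G y := by
      refine rc_const (C := (ρ * ((C + ‖q‖) * 2)) / 2) (by linarith) hGc ?_
      intro x hx y hy
      exact est x ⟨by linarith [hx.1], hx.2⟩
        (Real.sin_pos_of_pos_of_lt_pi hx.1 (by linarith [hx.2])).ne' y
    have hneg : ∀ x ∈ Icc (-(Real.pi / 2)) 0, ∀ y ∈ Icc (-(Real.pi / 2)) 0, G x = G y := by
      refine rc_const (C := (ρ * ((C + ‖q‖) * 2)) / 2) (by linarith) hGc ?_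
      intro x hx y hy
      exact est x ⟨hx.1, by linarith [hx.2]⟩
        (Real.sin_neg_of_neg_of_neg_pi_lt hx.2 (by linarith [hx.1])).ne y
    have hall : ∀ x ∈ Icc (-(Real.pi / 2)) (Real.pi / 2), G x = G 0 := by
      intro x hx
      rcases le_total 0 x with h | h
      · exact hpos x ⟨h, hx.2⟩ 0 ⟨le_rfl, by linarith⟩
      · exact hneg x ⟨hx.1, h⟩ 0 ⟨by linarith, le_rfl⟩
    intro φ hφ φ' hφ'
    exact (hall φ hφ).trans (hall φ' hφ').symm
  -- parametrisation
  have par : ∀ w : E3, 0 ≤ (inner ℝ D w : ℝ) →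
      ∃ φ ∈ Icc (-(Real.pi / 2)) (Real.pi / 2),
        w = (inner ℝ w n : ℝ) • n + Real.sqrt (‖w‖ ^ 2 - (inner ℝ w n : ℝ) ^ 2) • r φ := by
    intro w hw
    have hwd : 0 ≤ (inner ℝ d w : ℝ) := by
      rw [hDd, inner_smul_left] at hw
      simp only [RCLike.conj_to_real] at hw
      exact nonneg_of_mul_nonneg_right hw hDpos
    have hnorm : ‖w‖ ^ 2 = (inner ℝ n w : ℝ) ^ 2 + (inner ℝ d w : ℝ) ^ 2 + (inner ℝ g w : ℝ) ^ 2 := by
      rw [← real_inner_self_eq_norm_sq]
      nth_rw 2 [hexp w]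
      simp only [inner_add_right, inner_smul_right]
      rw [real_inner_comm n w, real_inner_comm d w, real_inner_comm g w]
      ring
    have hρ2 : (Real.sqrt (‖w‖ ^ 2 - (inner ℝ w n : ℝ) ^ 2)) ^ 2 =
        (inner ℝ d w : ℝ) ^ 2 + (inner ℝ g w : ℝ) ^ 2 := by
      rw [Real.sq_sqrt]
      · rw [hnorm, real_inner_comm n w]; ring
      · rw [hnorm, real_inner_comm n w]; nlinarith [sq_nonneg (inner ℝ d w : ℝ), sq_nonneg (inner ℝ g w : ℝ)]
    obtain ⟨φ, hφ, h1, h2⟩ := rc_angle (Real.sqrt_nonneg _) hwd hρ2.symm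
    refine ⟨φ, hφ, ?_⟩
    rw [hr]
    simp only [smul_add, smul_smul]
    rw [← h1, ← h2, ← add_assoc, real_inner_comm n w]
    exact hexp w
  intro w w' hww hwn hw hw'
  obtain ⟨φ, hφ, h1⟩ := par w hw
  obtain ⟨φ', hφ', h2⟩ := par w' hw'
  rw [h1, h2, hww, hwn]
  exact key2 _ _ (Real.sqrt_nonneg _) φ hφ φ' hφ'

end Pool.Agent.Helper968.SC.G10
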