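import Mathlib
import Pool.Agent.Helper968.SC.Base
set_option autoImplicit false
open Set Metric
namespace Pool.Agent.Helper968.SC.G11a

theorem j8689_lim {K : Set E3} (hK : Body K) (n u e : E3) (β δ0 : ℝ) (hδ0 : 0 < δ0)
    (h : ∀ δ : ℝ, 0 < δ → δ < δ0 → ∃ x ∈ face K (n + δ • u), (inner ℝ x e : ℝ) = β) :
    ∃ y ∈ face K n, (inner ℝ y e : ℝ) = β ∧ ∀ z ∈ face K n, (inner ℝ z u : ℝ) ≤ inner ℝ y u := by
  have hd : ∀ k : ℕ, 0 < δ0 / ((k : ℝ) + 2) ∧ δ0 / ((k : ℝ) + 2) < δ0 := by
    intro k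
    have hk : (0 : ℝ) < (k : ℝ) + 2 := by positivity
    refine ⟨div_pos hδ0 hk, ?_⟩
    rw [div_lt_iff₀ hk]
    have : (0 : ℝ) ≤ k := by positivity
    nlinarith
  choose x hx hxe using fun k : ℕ => h _ (hd k).1 (hd k).2
  obtain ⟨y, hyK, φ, hφ, hlim⟩ := hK.comp.tendsto_subseq (fun k => (hx k).1)
  have hdl : Filter.Tendsto (fun k : ℕ => δ0 / ((k : ℝ) + 2)) Filter.atTop (nhds 0) := by
    apply Filter.Tendsto.div_atTop tendsto_const_nhds
    exact Filter.tendsto_atTop_add_const_right _ _ tendsto_natCast_atTop_atTop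
  have hul : Filter.Tendsto (fun k : ℕ => n + (δ0 / (((φ k : ℕ) : ℝ) + 2)) • u) Filter.atTop
      (nhds n) := by
    have h1 := ((hdl.comp hφ.tendsto_atTop).smul_const u).const_add n
    rw [zero_smul, add_zero] at h1
    exact h1
  refine ⟨y, face_limit hK.comp hK.ne hlim hul (fun k => hx (φ k)), ?_, ?_⟩
  · have h1 : Filter.Tendsto (fun k => (inner ℝ ((x ∘ φ) k) e : ℝ)) Filter.atTop
        (nhds (inner ℝ y e)) := hlim.inner tendsto_const_nhds
    have h2 : (fun k => (inner ℝ ((x ∘ φ) k) e : ℝ)) = fun _ => β := by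
      funext k
      exact hxe (φ k)
    rw [h2] at h1
    exact (tendsto_nhds_unique h1 tendsto_const_nhds)
  · intro z hz
    have h1 : Filter.Tendsto (fun k => (inner ℝ ((x ∘ φ) k) u : ℝ)) Filter.atTop
        (nhds (inner ℝ y u)) := hlim.inner tendsto_const_nhds
    refine ge_of_tendsto h1 (Filter.Eventually.of_forall fun k => ?_)
    have h2 := inner_le_hs hK.comp hz.1 (n + (δ0 / (((φ k : ℕ) : ℝ) + 2)) • u)
    rw [← (hx (φ k)).2, inner_add_right, inner_add_right, inner_smul_right, inner_smul_right] at h2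
    have h3 := inner_le_hs hK.comp (hx (φ k)).1 n
    rw [← hz.2] at h3
    have h4 := (hd (φ k)).1
    have h5 : δ0 / (((φ k : ℕ) : ℝ) + 2) * inner ℝ z u ≤
        δ0 / (((φ k : ℕ) : ℝ) + 2) * inner ℝ (x (φ k)) u := by linarith
    exact le_of_mul_le_mul_left h5 h4

theorem j8689_key {K : Set E3} (hK : Body K) (n u e v : E3) (β : ℝ)
    (hβ : ∀ w : E3, inner ℝ w e = (0:ℝ) → 0 < (inner ℝ w v : ℝ) → ∃ x ∈ face K w, inner ℝ x e = β)
    (hne : inner ℝ n e = (0:ℝ)) (hue : inner ℝ u e = (0:ℝ))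
    (hnv : 0 < (inner ℝ n v : ℝ) ∨ ((inner ℝ n v : ℝ) = 0 ∧ 0 < (inner ℝ u v : ℝ))) :
    ∃ y ∈ face K n, (inner ℝ y e : ℝ) = β ∧ ∀ z ∈ face K n, (inner ℝ z u : ℝ) ≤ inner ℝ y u := by
  have horth : ∀ δ : ℝ, inner ℝ (n + δ • u) e = (0 : ℝ) := by
    intro δ
    rw [inner_add_left, real_inner_smul_left, hne, hue, mul_zero, add_zero]
  rcases hnv with h | ⟨h, h'⟩
  · have hpos : 0 < |(inner ℝ u v : ℝ)| + 1 := by positivity
    refine j8689_lim hK n u e β (inner ℝ n v / (|(inner ℝ u v : ℝ)| + 1)) (div_pos h hpos) ?_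
    intro δ h0 h1
    apply hβ _ (horth δ)
    rw [inner_add_left, real_inner_smul_left]
    rw [lt_div_iff₀ hpos] at h1
    have h2 : -|(inner ℝ u v : ℝ)| ≤ inner ℝ u v := neg_abs_le _
    nlinarith
  · refine j8689_lim hK n u e β 1 one_pos ?_
    intro δ h0 h1
    apply hβ _ (horth δ)
    rw [inner_add_left, real_inner_smul_left, h, zero_add]
    exact mul_pos h0 h'

theorem j8689_four (a b c d : E3) (ha : a ≠ 0) (hb : b ≠ 0) (hc : c ≠ 0) (hd : d ≠ 0)
    (hab : (inner ℝ a b : ℝ) = 0) (hac : (inner ℝ a c : ℝ) = 0) (had : (inner ℝ a d : ℝ) = 0)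
    (hbc : (inner ℝ b c : ℝ) = 0) (hbd : (inner ℝ b d : ℝ) = 0) (hcd : (inner ℝ c d : ℝ) = 0) :
    False := by
  have hba : (inner ℝ b a : ℝ) = 0 := by rw [real_inner_comm]; exact hab
  have hca : (inner ℝ c a : ℝ) = 0 := by rw [real_inner_comm]; exact hac
  have hda : (inner ℝ d a : ℝ) = 0 := by rw [real_inner_comm]; exact had
  have hcb : (inner ℝ c b : ℝ) = 0 := by rw [real_inner_comm]; exact hbc
  have hdb : (inner ℝ d b : ℝ) = 0 := by rw [real_inner_comm]; exact hbd
  have hdc : (inner ℝ d c : ℝ) = 0 := by rw [real_inner_comm]; exact hcd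
  have hli : LinearIndependent ℝ ![a, b, c, d] := by
    apply linearIndependent_of_ne_zero_of_inner_eq_zero
    · intro i
      fin_cases i
      · exact ha
      · exact hb
      · exact hc
      · exact hd
    · intro i j hij
      fin_cases i <;> fin_cases j <;>
        first
          | exact absurd rfl hij
          | exact hab
          | exact hac
          | exact had
          | exact hbc
          | exact hbd
          | exact hcd
          | exact hba
          | exact hca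
          | exact hda
          | exact hcb
          | exact hdb
          | exact hdc
  have h1 := hli.fintype_card_le_finrank
  rw [finrank_euclideanSpace_fin, Fintype.card_fin] at h1
  omega

theorem j8689_core {K : Set E3} (hK : Body K) (n p q u e v w : E3) (β : ℝ)
    (hβ : ∀ w : E3, inner ℝ w e = (0:ℝ) → 0 < (inner ℝ w v : ℝ) → ∃ x ∈ face K w, inner ℝ x e = β)
    (hface : face K n = segment ℝ p q)
    (hne : inner ℝ n e = (0:ℝ)) (hue : inner ℝ u e = (0:ℝ)) (hwe : inner ℝ w e = (0:ℝ))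
    (hDu : 0 < (inner ℝ (q - p) u : ℝ)) (hDe : inner ℝ (q - p) e ≠ (0:ℝ))
    (c : ℝ) (hw : w = u + c • n)
    (hnv : 0 < (inner ℝ n v : ℝ) ∨ ((inner ℝ n v : ℝ) = 0 ∧ 0 < (inner ℝ u v : ℝ))) :
    ∃ x ∈ face K w, (inner ℝ x e : ℝ) = inner ℝ q e := by
  have hp : p ∈ face K n := by rw [hface]; exact left_mem_segment ℝ p q
  have hq : q ∈ face K n := by rw [hface]; exact right_mem_segment ℝ p q
  rw [inner_sub_left] at hDu
  obtain ⟨y, hy, hye, hyu⟩ := j8689_key hK n u e v β hβ hne hue hnv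
  have hyq : y = q := by
    have h1 := hyu q hq
    rw [hface, segment_eq_image'] at hy
    obtain ⟨t, ht, rfl⟩ := hy
    simp only at h1 ⊢
    rw [inner_add_left, real_inner_smul_left, inner_sub_left] at h1
    have ht1 : t = 1 := by
      apply le_antisymm ht.2
      by_contra hlt
      push Not at hlt
      nlinarith
    rw [ht1, one_smul]
    abel
  rw [hyq] at hye
  rcases hnv with h | ⟨h, h'⟩
  · exfalso
    have hue' : inner ℝ (-u) e = (0 : ℝ) := by rw [inner_neg_left, hue, neg_zero]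
    obtain ⟨z, hz, hze, hzu⟩ := j8689_key hK n (-u) e v β hβ hne hue' (Or.inl h)
    have hzp : z = p := by
      have h1 := hzu p hp
      rw [hface, segment_eq_image'] at hz
      obtain ⟨t, ht, rfl⟩ := hz
      simp only at h1 ⊢
      rw [inner_neg_right, inner_neg_right, inner_add_left, real_inner_smul_left,
        inner_sub_left] at h1
      have ht1 : t = 0 := by
        apply le_antisymm _ ht.1
        by_contra hlt
        push Not at hlt
        nlinarith
      rw [ht1, zero_smul, add_zero]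
    rw [hzp] at hze
    apply hDe
    rw [inner_sub_left, hye, hze, sub_self]
  · obtain ⟨x, hx, hxe⟩ := hβ w hwe (by
      rw [hw, inner_add_left, real_inner_smul_left, h, mul_zero, add_zero]
      exact h')
    exact ⟨x, hx, by rw [hxe, hye]⟩

/-- heights on the shadow boundary next to a segment face -/
theorem key_nondeg {K : Set E3} (hK : Body K) (hSt : ∀ e : E3, ‖e‖ = 1 → St K e) (n p q : E3)
    (hn : ‖n‖ = 1) (hface : face K n = segment ℝ p q) (w e : E3)
    (hDw : 0 < (inner ℝ (q - p) w : ℝ)) (he : ‖e‖ = 1) (hen : inner ℝ e n = (0:ℝ))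
    (hew : inner ℝ e w = (0:ℝ)) (hDe : inner ℝ (q - p) e ≠ (0:ℝ)) :
    ∃ x ∈ face K w, (inner ℝ x e : ℝ) = inner ℝ q e := by
  have hp : p ∈ face K n := by rw [hface]; exact left_mem_segment ℝ p q
  have hq : q ∈ face K n := by rw [hface]; exact right_mem_segment ℝ p q
  have hDn : (inner ℝ (q - p) n : ℝ) = 0 := by
    rw [inner_sub_left, hp.2, hq.2, sub_self]
  have hne : (inner ℝ n e : ℝ) = 0 := by rw [real_inner_comm]; exact hen
  have hwe : (inner ℝ w e : ℝ) = 0 := by rw [real_inner_comm]; exact hew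
  set u : E3 := w - (inner ℝ w n : ℝ) • n with hu
  have hwu : w = u + (inner ℝ w n : ℝ) • n := by rw [hu]; abel
  have hue : (inner ℝ u e : ℝ) = 0 := by
    rw [hu, inner_sub_left, real_inner_smul_left, hwe, hne, mul_zero, sub_zero]
  have hun : (inner ℝ u n : ℝ) = 0 := by
    rw [hu, inner_sub_left, real_inner_smul_left, real_inner_self_eq_norm_sq, hn]
    ring
  have hDu : 0 < (inner ℝ (q - p) u : ℝ) := by
    rw [hu, inner_sub_right, inner_smul_right, hDn, mul_zero, sub_zero]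
    exact hDw
  have hu0 : u ≠ 0 := by
    intro h
    rw [h, inner_zero_right] at hDu
    exact lt_irrefl _ hDu
  have hn0 : n ≠ 0 := by
    intro h
    rw [h, norm_zero] at hn
    exact zero_ne_one hn
  have he0 : e ≠ 0 := by
    intro h
    rw [h, norm_zero] at he
    exact zero_ne_one he
  obtain ⟨v, hv1, hve, bp, bm, hbp, hbm⟩ := hSt e he
  have hbm' : ∀ w : E3, inner ℝ w e = (0:ℝ) → 0 < (inner ℝ w (-v) : ℝ) →
      ∃ x ∈ face K w, inner ℝ x e = bm := by
    intro w h1 h2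
    rw [inner_neg_right] at h2
    exact hbm w h1 (by linarith)
  have hv0 : v ≠ 0 := by
    intro h
    rw [h, norm_zero] at hv1
    exact zero_ne_one hv1
  rcases lt_trichotomy (inner ℝ n v : ℝ) 0 with h | h | h
  · refine j8689_core hK n p q u e (-v) w bm hbm' hface hne hue hwe hDu hDe _ hwu (Or.inl ?_)
    rw [inner_neg_right]
    linarith
  · rcases lt_trichotomy (inner ℝ u v : ℝ) 0 with h' | h' | h'
    · refine j8689_core hK n p q u e (-v) w bm hbm' hface hne hue hwe hDu hDe _ hwu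
        (Or.inr ⟨?_, ?_⟩)
      · rw [inner_neg_right, h, neg_zero]
      · rw [inner_neg_right]
        linarith
    · exfalso
      exact j8689_four u n e v hu0 hn0 he0 hv0 hun hue h' hne h
        (by rw [real_inner_comm]; exact hve)
    · exact j8689_core hK n p q u e v w bp hbp hface hne hue hwe hDu hDe _ hwu (Or.inr ⟨h, h'⟩)
  · exact j8689_core hK n p q u e v w bp hbp hface hne hue hwe hDu hDe _ hwu (Or.inl h)

theorem j8689_perp (a b : E3) : ∃ ν : E3, ν ≠ 0 ∧ (inner ℝ ν a : ℝ) = 0 ∧ (inner ℝ ν b : ℝ) = 0 := by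
  classical
  set V : Submodule ℝ E3 := Submodule.span ℝ (({a, b} : Finset E3) : Set E3) with hV
  have h1 : Module.finrank ℝ V ≤ 2 :=
    (finrank_span_finset_le_card ({a, b} : Finset E3)).trans Finset.card_le_two
  have h2 : Module.finrank ℝ V + Module.finrank ℝ Vᗮ = Module.finrank ℝ E3 :=
    Submodule.finrank_add_finrank_orthogonal V
  rw [finrank_euclideanSpace_fin] at h2
  have h3 : Vᗮ ≠ ⊥ := by
    intro h
    rw [h, finrank_bot] at h2
    omega
  obtain ⟨ν, hν, hν0⟩ := Submodule.exists_mem_ne_zero_of_ne_bot h3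
  rw [Submodule.mem_orthogonal] at hν
  refine ⟨ν, hν0, ?_, ?_⟩
  · rw [real_inner_comm]
    exact hν a (Submodule.subset_span (by simp))
  · rw [real_inner_comm]
    exact hν b (Submodule.subset_span (by simp))

/-- heights on the shadow boundary of a strictly convex body -/
theorem key_strict {K : Set E3} (hK : Body K) (hSt : ∀ e : E3, ‖e‖ = 1 → St K e)
    (hstrict : ∀ w : E3, w ≠ 0 → ∀ x ∈ face K w, ∀ y ∈ face K w, x = y) (n x0 : E3)
    (hn : ‖n‖ = 1) (hx0 : x0 ∈ face K n) (w e : E3) (hw : w ≠ 0) (he : ‖e‖ = 1)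
    (hen : inner ℝ e n = (0:ℝ)) (hew : inner ℝ e w = (0:ℝ)) :
    ∃ x ∈ face K w, (inner ℝ x e : ℝ) = inner ℝ x0 e := by
  have hne : (inner ℝ n e : ℝ) = 0 := by rw [real_inner_comm]; exact hen
  have hwe : (inner ℝ w e : ℝ) = 0 := by rw [real_inner_comm]; exact hew
  have hn0 : n ≠ 0 := by
    intro h
    rw [h, norm_zero] at hn
    exact zero_ne_one hn
  obtain ⟨v, hv1, hve, bp, bm, hbp, hbm⟩ := hSt e he
  have hvv : (inner ℝ v v : ℝ) = 1 := by
    rw [real_inner_self_eq_norm_sq, hv1]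
    norm_num
  have hbm' : ∀ w : E3, inner ℝ w e = (0:ℝ) → 0 < (inner ℝ w (-v) : ℝ) →
      ∃ x ∈ face K w, inner ℝ x e = bm := by
    intro w h1 h2
    rw [inner_neg_right] at h2
    exact hbm w h1 (by linarith)
  obtain ⟨ν, hν0, hνe, hνv⟩ := j8689_perp e v
  obtain ⟨y, hy, hye, -⟩ := j8689_key hK ν v e v bp hbp hνe hve
    (Or.inr ⟨hνv, by rw [hvv]; exact one_pos⟩)
  obtain ⟨z, hz, hze, -⟩ := j8689_key hK ν (-v) e (-v) bm hbm' hνe
    (by rw [inner_neg_left, hve, neg_zero])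
    (Or.inr ⟨by rw [inner_neg_right, hνv, neg_zero], by rw [inner_neg_neg, hvv]; exact one_pos⟩)
  have hyz := hstrict ν hν0 y hy z hz
  have hb : bm = bp := by rw [← hye, ← hze, hyz]
  have hall : ∀ w' : E3, w' ≠ 0 → inner ℝ w' e = (0:ℝ) → ∃ x ∈ face K w', (inner ℝ x e : ℝ) = bp := by
    intro w' hw' hw'e
    rcases lt_trichotomy (inner ℝ w' v : ℝ) 0 with h | h | h
    · obtain ⟨x, hx, hxe⟩ := hbm w' hw'e h
      exact ⟨x, hx, by rw [hxe, hb]⟩
    · obtain ⟨x, hx, hxe, -⟩ := j8689_key hK w' v e v bp hbp hw'e hve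
        (Or.inr ⟨h, by rw [hvv]; exact one_pos⟩)
      exact ⟨x, hx, hxe⟩
    · exact hbp w' hw'e h
  obtain ⟨x, hx, hxe⟩ := hall w hw hwe
  obtain ⟨x', hx', hxe'⟩ := hall n hn0 hne
  refine ⟨x, hx, ?_⟩
  rw [hxe, ← hxe', hstrict n hn0 x' hx' x0 hx0]

end Pool.Agent.Helper968.SC.G11a
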