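import Mathlib
import Pool.Agent.Helper968.SC.Base
set_option autoImplicit false
open Set Metric
namespace Pool.Agent.Helper968.SC.G11c

/-- a nonzero vector orthogonal to two given vectors -/
theorem exists_unit_orth (n D : E3) : ∃ g : E3, ‖g‖ = 1 ∧ inner ℝ g n = (0:ℝ) ∧
    inner ℝ g D = (0:ℝ) := by
  let f : E3 →ₗ[ℝ] (Fin 2 → ℝ) := LinearMap.pi ![(innerSL ℝ n : E3 →ₗ[ℝ] ℝ), (innerSL ℝ D : E3 →ₗ[ℝ] ℝ)]
  have h1 : LinearMap.ker f ≠ ⊥ := LinearMap.ker_ne_bot_of_finrank_lt (by simp)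
  obtain ⟨g, hg, hg0⟩ := Submodule.exists_mem_ne_zero_of_ne_bot h1
  have hg' : f g = 0 := hg
  have e1 : (inner ℝ n g : ℝ) = 0 := congrFun hg' 0
  have e2 : (inner ℝ D g : ℝ) = 0 := congrFun hg' 1
  have hng : ‖g‖ ≠ 0 := norm_ne_zero_iff.2 hg0
  refine ⟨‖g‖⁻¹ • g, ?_, ?_, ?_⟩
  · rw [norm_smul, norm_inv, norm_norm, inv_mul_cancel₀ hng]
  · rw [inner_smul_left, real_inner_comm, e1, mul_zero]
  · rw [inner_smul_left, real_inner_comm, e2, mul_zero]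

theorem glue_half (F : E3 → ℝ) (n D : E3) (hn : ‖n‖ = 1) (hDn : inner ℝ D n = (0:ℝ))
    (h1 : ∀ w w' : E3, ‖w‖ = ‖w'‖ → (inner ℝ w n : ℝ) = inner ℝ w' n → 0 ≤ (inner ℝ D w : ℝ) →
        0 ≤ (inner ℝ D w' : ℝ) → F w = F w')
    (h2 : ∀ w w' : E3, ‖w‖ = ‖w'‖ → (inner ℝ w n : ℝ) = inner ℝ w' n → (inner ℝ D w : ℝ) ≤ 0 →
        (inner ℝ D w' : ℝ) ≤ 0 → F w = F w')
    (w w' : E3) (hw : ‖w‖ = ‖w'‖) (hwn : (inner ℝ w n : ℝ) = inner ℝ w' n) : F w = F w' := by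
  obtain ⟨g, hg1, hg2, hg3⟩ := exists_unit_orth n D
  set c : ℝ := inner ℝ w n with hc
  set r : ℝ := Real.sqrt (‖w‖ ^ 2 - c ^ 2) with hr
  have hcs : c ^ 2 ≤ ‖w‖ ^ 2 := by
    have h := abs_real_inner_le_norm w n
    rw [hn, mul_one] at h
    rw [← sq_abs]
    exact pow_le_pow_left₀ (abs_nonneg _) h 2
  have hr2 : r ^ 2 = ‖w‖ ^ 2 - c ^ 2 := Real.sq_sqrt (by linarith)
  set w0 : E3 := c • n + r • g with hw0
  have hnn : (inner ℝ n n : ℝ) = 1 := by rw [real_inner_self_eq_norm_sq, hn, one_pow]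
  have hgg : (inner ℝ g g : ℝ) = 1 := by rw [real_inner_self_eq_norm_sq, hg1, one_pow]
  have hng : (inner ℝ n g : ℝ) = 0 := by rw [real_inner_comm, hg2]
  have hDg : (inner ℝ D g : ℝ) = 0 := by rw [real_inner_comm, hg3]
  have e1 : (inner ℝ w0 n : ℝ) = c := by
    rw [hw0, inner_add_left, inner_smul_left, inner_smul_left, hnn, hg2]
    simp
  have e2 : (inner ℝ D w0 : ℝ) = 0 := by
    rw [hw0, inner_add_right, inner_smul_right, inner_smul_right, hDn, hDg]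
    simp
  have e3 : ‖w0‖ = ‖w‖ := by
    have h3 : ‖w0‖ ^ 2 = ‖w‖ ^ 2 := by
      rw [← real_inner_self_eq_norm_sq w0]
      rw [hw0, inner_add_left, inner_add_right, inner_add_right]
      simp only [inner_smul_left, inner_smul_right, hnn, hgg, hng, hg2, conj_trivial]
      nlinarith
    exact (pow_left_inj₀ (norm_nonneg _) (norm_nonneg _) two_ne_zero).1 h3
  have e4 : ∀ v : E3, ‖v‖ = ‖w0‖ → (inner ℝ v n : ℝ) = inner ℝ w0 n → F v = F w0 := by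
    intro v hv hvn
    rcases le_total 0 (inner ℝ D v : ℝ) with h | h
    · exact h1 v w0 hv hvn h (le_of_eq e2.symm)
    · exact h2 v w0 hv hvn h (le_of_eq e2)
  rw [e4 w e3.symm e1.symm, e4 w' (by rw [e3, hw]) (by rw [e1, ← hwn])]

/-- rotation invariance about the normal of a segment face -/
theorem RotInv_nondeg {K : Set E3} (hK : Body K)
    (key_nondeg : ∀ (n p q : E3), ‖n‖ = 1 → face K n = segment ℝ p q → ∀ w e : E3,
      0 < (inner ℝ (q - p) w : ℝ) → ‖e‖ = 1 → inner ℝ e n = (0:ℝ) →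
      inner ℝ e w = (0:ℝ) → inner ℝ (q - p) e ≠ (0:ℝ) →
      ∃ x ∈ face K w, (inner ℝ x e : ℝ) = inner ℝ q e)
    (rot_const : ∀ (n q D : E3), ‖n‖ = 1 → inner ℝ D n = (0:ℝ) → D ≠ 0 →
      (∀ w e : E3, 0 < (inner ℝ D w : ℝ) → ‖e‖ = 1 → inner ℝ e n = (0:ℝ) →
        inner ℝ e w = (0:ℝ) → inner ℝ D e ≠ (0:ℝ) →
        ∃ x ∈ face K w, (inner ℝ x e : ℝ) = inner ℝ q e) →
      ∀ w w' : E3, ‖w‖ = ‖w'‖ → (inner ℝ w n : ℝ) = inner ℝ w' n → 0 ≤ (inner ℝ D w : ℝ) →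
        0 ≤ (inner ℝ D w' : ℝ) → hs K w - inner ℝ q w = hs K w' - inner ℝ q w')
    (n p q : E3) (hn : ‖n‖ = 1) (hface : face K n = segment ℝ p q) (hpq : p ≠ q) :
    RotInv K n p q := by
  have hp : p ∈ face K n := by rw [hface]; exact left_mem_segment ℝ p q
  have hq : q ∈ face K n := by rw [hface]; exact right_mem_segment ℝ p q
  have hDn : inner ℝ (q - p) n = (0:ℝ) := by
    rw [inner_sub_left, hq.2, hp.2, sub_self]
  have hDn' : inner ℝ (p - q) n = (0:ℝ) := by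
    rw [inner_sub_left, hq.2, hp.2, sub_self]
  have hface' : face K n = segment ℝ q p := by rw [hface, segment_symm]
  have A := rot_const n q (q - p) hn hDn (sub_ne_zero.2 hpq.symm)
    (fun w e h1 h2 h3 h4 h5 => key_nondeg n p q hn hface w e h1 h2 h3 h4 h5)
  have B := rot_const n p (p - q) hn hDn' (sub_ne_zero.2 hpq)
    (fun w e h1 h2 h3 h4 h5 => key_nondeg n q p hn hface' w e h1 h2 h3 h4 h5)
  have neg : ∀ w : E3, (inner ℝ (p - q) w : ℝ) = -inner ℝ (q - p) w := by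
    intro w; rw [← inner_neg_left, neg_sub]
  have m1 : ∀ w : E3, 0 ≤ (inner ℝ (q - p) w : ℝ) →
      max (inner ℝ p w : ℝ) (inner ℝ q w) = inner ℝ q w := by
    intro w hw
    rw [inner_sub_left] at hw
    exact max_eq_right (by linarith)
  have m2 : ∀ w : E3, (inner ℝ (q - p) w : ℝ) ≤ 0 →
      max (inner ℝ p w : ℝ) (inner ℝ q w) = inner ℝ p w := by
    intro w hw
    rw [inner_sub_left] at hw
    exact max_eq_left (by linarith)
  intro w w' hw hwn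
  refine glue_half (fun w => hs K w - max (inner ℝ p w : ℝ) (inner ℝ q w)) n (q - p) hn hDn
    ?_ ?_ w w' hw hwn
  · intro v v' h1 h2 h3 h4
    show hs K v - max (inner ℝ p v : ℝ) (inner ℝ q v) =
      hs K v' - max (inner ℝ p v' : ℝ) (inner ℝ q v')
    rw [m1 v h3, m1 v' h4]
    exact A v v' h1 h2 h3 h4
  · intro v v' h1 h2 h3 h4
    show hs K v - max (inner ℝ p v : ℝ) (inner ℝ q v) =
      hs K v' - max (inner ℝ p v' : ℝ) (inner ℝ q v')
    rw [m2 v h3, m2 v' h4]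
    exact B v v' h1 h2 (by rw [neg]; linarith) (by rw [neg]; linarith)

/-- rotation invariance about every axis for strictly convex bodies -/
theorem RotInv_strict {K : Set E3} (hK : Body K)
    (hstrict : ∀ w : E3, w ≠ 0 → ∀ x ∈ face K w, ∀ y ∈ face K w, x = y)
    (key_strict : ∀ (n x0 : E3), ‖n‖ = 1 → x0 ∈ face K n → ∀ w e : E3, w ≠ 0 → ‖e‖ = 1 →
      inner ℝ e n = (0:ℝ) → inner ℝ e w = (0:ℝ) →
      ∃ x ∈ face K w, (inner ℝ x e : ℝ) = inner ℝ x0 e)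
    (rot_const : ∀ (n q D : E3), ‖n‖ = 1 → inner ℝ D n = (0:ℝ) → D ≠ 0 →
      (∀ w e : E3, 0 < (inner ℝ D w : ℝ) → ‖e‖ = 1 → inner ℝ e n = (0:ℝ) →
        inner ℝ e w = (0:ℝ) → inner ℝ D e ≠ (0:ℝ) →
        ∃ x ∈ face K w, (inner ℝ x e : ℝ) = inner ℝ q e) →
      ∀ w w' : E3, ‖w‖ = ‖w'‖ → (inner ℝ w n : ℝ) = inner ℝ w' n → 0 ≤ (inner ℝ D w : ℝ) →
        0 ≤ (inner ℝ D w' : ℝ) → hs K w - inner ℝ q w = hs K w' - inner ℝ q w')
    (n x0 : E3) (hn : ‖n‖ = 1) (hx0 : x0 ∈ face K n) :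
    RotInv K n x0 x0 := by
  obtain ⟨D, hD1, hD2, -⟩ := exists_unit_orth n n
  have hD0 : D ≠ 0 := by
    intro h; rw [h, norm_zero] at hD1; exact zero_ne_one hD1
  have w0 : ∀ (D w : E3), 0 < (inner ℝ D w : ℝ) → w ≠ 0 := by
    intro D w h h0
    rw [h0, inner_zero_right] at h
    exact lt_irrefl _ h
  have hD2' : inner ℝ (-D) n = (0:ℝ) := by rw [inner_neg_left, hD2, neg_zero]
  have A := rot_const n x0 D hn hD2 hD0
    (fun w e h1 h2 h3 h4 _ => key_strict n x0 hn hx0 w e (w0 D w h1) h2 h3 h4)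
  have B := rot_const n x0 (-D) hn hD2' (neg_ne_zero.2 hD0)
    (fun w e h1 h2 h3 h4 _ => key_strict n x0 hn hx0 w e (w0 _ w h1) h2 h3 h4)
  intro w w' hw hwn
  refine glue_half (fun w => hs K w - max (inner ℝ x0 w : ℝ) (inner ℝ x0 w)) n D hn hD2
    ?_ ?_ w w' hw hwn
  · intro v v' h1 h2 h3 h4
    show hs K v - max (inner ℝ x0 v : ℝ) (inner ℝ x0 v) =
      hs K v' - max (inner ℝ x0 v' : ℝ) (inner ℝ x0 v')
    rw [max_self, max_self]
    exact A v v' h1 h2 h3 h4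
  · intro v v' h1 h2 h3 h4
    show hs K v - max (inner ℝ x0 v : ℝ) (inner ℝ x0 v) =
      hs K v' - max (inner ℝ x0 v' : ℝ) (inner ℝ x0 v')
    rw [max_self, max_self]
    exact B v v' h1 h2 (by rw [inner_neg_left]; linarith) (by rw [inner_neg_left]; linarith)

end Pool.Agent.Helper968.SC.G11c
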