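import Mathlib
import Pool.Agent.Helper968.SC.Base
set_option autoImplicit false
open Set Metric
namespace Pool.Agent.Helper968.SC.G12

theorem seg_ends_8688 (D a b x y : E3) (lo hi : ℝ) (hlh : lo < hi)
    (hb : ∀ z ∈ segment ℝ a b, lo ≤ (inner ℝ z D : ℝ) ∧ (inner ℝ z D : ℝ) ≤ hi)
    (hx : x ∈ segment ℝ a b) (hy : y ∈ segment ℝ a b) (hx1 : (inner ℝ x D : ℝ) = hi)
    (hy1 : (inner ℝ y D : ℝ) = lo) : segment ℝ a b = segment ℝ y x := by
  obtain ⟨s, t, hs, ht, hst, rfl⟩ := hx
  obtain ⟨s', t', hs', ht', hst', rfl⟩ := hy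
  have ha := hb a (left_mem_segment ℝ a b)
  have hbb := hb b (right_mem_segment ℝ a b)
  rw [inner_add_left, inner_smul_left, inner_smul_left] at hx1 hy1
  simp only [conj_trivial] at hx1 hy1
  obtain ⟨A, hA⟩ : ∃ A : ℝ, A = inner ℝ a D := ⟨_, rfl⟩
  obtain ⟨B, hB⟩ : ∃ B : ℝ, B = inner ℝ b D := ⟨_, rfl⟩
  rw [← hA] at hx1 hy1 ha
  rw [← hB] at hx1 hy1 hbb
  have e1 : 0 ≤ s * (hi - A) := mul_nonneg hs (by linarith [ha.2])
  have e2 : 0 ≤ t * (hi - B) := mul_nonneg ht (by linarith [hbb.2])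
  have e3 : 0 ≤ s' * (A - lo) := mul_nonneg hs' (by linarith [ha.1])
  have e4 : 0 ≤ t' * (B - lo) := mul_nonneg ht' (by linarith [hbb.1])
  have e5 : s * (hi - A) + t * (hi - B) = 0 := by
    have : s * (hi - A) + t * (hi - B) = (s + t) * hi - (s * A + t * B) := by ring
    rw [this, hst, hx1]; ring
  have e6 : s' * (A - lo) + t' * (B - lo) = 0 := by
    have : s' * (A - lo) + t' * (B - lo) = (s' * A + t' * B) - (s' + t') * lo := by ring
    rw [this, hst', hy1]; ring
  have f1 : s * (hi - A) = 0 := by linarith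
  have f2 : t * (hi - B) = 0 := by linarith
  have f3 : s' * (A - lo) = 0 := by linarith
  have f4 : t' * (B - lo) = 0 := by linarith
  rcases mul_eq_zero.1 f1 with h | h
  · have ht1 : t = 1 := by linarith
    have hB1 : hi - B = 0 := by
      rw [ht1, one_mul] at f2; exact f2
    have ht' : t' = 0 := by
      rcases mul_eq_zero.1 f4 with h4 | h4
      · exact h4
      · exfalso; linarith
    have hs'1 : s' = 1 := by linarith
    rw [h, ht1, ht', hs'1]
    simp
  · have hs'0 : s' = 0 := by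
      rcases mul_eq_zero.1 f3 with h4 | h4
      · exact h4
      · exfalso; linarith
    have ht'1 : t' = 1 := by linarith
    have hB1 : B - lo = 0 := by
      rw [ht'1, one_mul] at f4; exact f4
    have ht0 : t = 0 := by
      rcases mul_eq_zero.1 f2 with h4 | h4
      · exact h4
      · exfalso; linarith
    have hs1 : s = 1 := by linarith
    rw [hs1, ht0, hs'0, ht'1]
    simp only [one_smul, zero_smul, add_zero, zero_add]
    exact segment_symm ℝ a b

theorem small_8688 {a C : ℝ} (hC : 0 ≤ C) (h : ∀ t > 0, a ≤ t * C) : a ≤ 0 := by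
  by_contra ha
  push Not at ha
  have h1 := h (a / (2 * (C + 1))) (by positivity)
  have h2 : a / (2 * (C + 1)) * C ≤ a / 2 := by
    rw [div_mul_eq_mul_div, div_le_div_iff₀ (by positivity) (by norm_num)]
    nlinarith
  linarith

theorem max_8688 (a b : ℝ) : max a b = (a + b) / 2 + |b - a| / 2 := by
  rcases le_total a b with h | h
  · rw [max_eq_right h, abs_of_nonneg (by linarith)]; ring
  · rw [max_eq_left h, abs_of_nonpos (by linarith)]; ring

/-- the segment face is transported to all normals orthogonal to it -/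
theorem face_transfer {K : Set E3} (hK : Body K) (hseg : SegFaces K) (n n' p q : E3)
    (hn : ‖n‖ = 1) (hn' : ‖n'‖ = 1) (hnn : inner ℝ n n' = (0:ℝ)) (hDn : inner ℝ (q - p) n = (0:ℝ))
    (hDn' : inner ℝ (q - p) n' = (0:ℝ)) (hpq : p ≠ q) (hR : RotInv K n p q) :
    ∃ p' q' : E3, face K n' = segment ℝ p' q' ∧ q' - p' = q - p := by
  obtain ⟨D, hD⟩ : ∃ D : E3, D = q - p := ⟨_, rfl⟩
  rw [← hD] at hDn hDn' ⊢
  have hD0 : D ≠ 0 := by
    rw [hD]
    exact sub_ne_zero.2 (Ne.symm hpq)
  obtain ⟨m, hm⟩ : ∃ m : E3, m = (1 / 2 : ℝ) • (p + q) := ⟨_, rfl⟩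
  obtain ⟨d, hd⟩ : ∃ d : ℝ, d = inner ℝ D D := ⟨_, rfl⟩
  have hdpos : 0 < d := by
    rw [hd]
    exact real_inner_self_pos.2 hD0
  have hnD : (inner ℝ n D : ℝ) = 0 := by rw [real_inner_comm]; exact hDn
  have hn'D : (inner ℝ n' D : ℝ) = 0 := by rw [real_inner_comm]; exact hDn'
  have hn'n : (inner ℝ n' n : ℝ) = 0 := by rw [real_inner_comm]; exact hnn
  have hn'n' : (inner ℝ n' n' : ℝ) = 1 := by
    rw [real_inner_self_eq_norm_sq, hn', one_pow]
  have hRF : ∀ w w' : E3, ‖w‖ = ‖w'‖ → (inner ℝ w n : ℝ) = inner ℝ w' n →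
      hs K w - (inner ℝ m w : ℝ) - |(inner ℝ D w : ℝ)| / 2 =
      hs K w' - (inner ℝ m w' : ℝ) - |(inner ℝ D w' : ℝ)| / 2 := by
    intro w w' h1 h2
    have h3 := hR w w' h1 h2
    have h4 : ∀ w : E3, max (inner ℝ p w : ℝ) (inner ℝ q w) =
        (inner ℝ m w : ℝ) + |(inner ℝ D w : ℝ)| / 2 := by
      intro w
      rw [max_8688, hm, hD, inner_smul_left, inner_add_left, inner_sub_left]
      simp only [conj_trivial]
      ring
    rw [h4, h4] at h3
    linarith
  have hsym : ∀ w : E3, hs K (w - (2 * (inner ℝ w D : ℝ) / d) • D) -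
      (inner ℝ m (w - (2 * (inner ℝ w D : ℝ) / d) • D) : ℝ) = hs K w - (inner ℝ m w : ℝ) := by
    intro w
    have hDw : (inner ℝ D w : ℝ) = inner ℝ w D := real_inner_comm _ _
    have hD2 : (inner ℝ D (w - (2 * (inner ℝ w D : ℝ) / d) • D) : ℝ) = - inner ℝ D w := by
      rw [inner_sub_right, inner_smul_right, ← hd, hDw]
      field_simp
      ring
    have h1 := hRF (w - (2 * (inner ℝ w D : ℝ) / d) • D) w (by
      rw [← sq_eq_sq₀ (norm_nonneg _) (norm_nonneg _), ← real_inner_self_eq_norm_sq,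
        ← real_inner_self_eq_norm_sq]
      rw [inner_sub_left, inner_smul_left, hD2, inner_sub_right, inner_smul_right, hDw]
      simp only [conj_trivial]
      ring) (by
      rw [inner_sub_left, inner_smul_left, hDn]
      simp)
    rw [hD2, abs_neg] at h1
    linarith
  have hstar : ∀ x ∈ face K n', x - (2 * ((inner ℝ x D : ℝ) - inner ℝ m D) / d) • D ∈ face K n' := by
    intro x hx
    constructor
    · apply mem_of_inner_le hK.conv hK.comp hK.ne
      intro w
      have h1 := hsym w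
      have h2 := inner_le_hs hK.comp hx.1 (w - (2 * (inner ℝ w D : ℝ) / d) • D)
      have hDw : (inner ℝ D w : ℝ) = inner ℝ w D := real_inner_comm _ _
      rw [inner_sub_right, inner_smul_right] at h1 h2
      rw [inner_sub_left, inner_smul_left, hDw]
      simp only [conj_trivial]
      have h3 : 2 * ((inner ℝ x D : ℝ) - inner ℝ m D) / d * inner ℝ w D =
        2 * (inner ℝ w D : ℝ) / d * inner ℝ x D - 2 * (inner ℝ w D : ℝ) / d * inner ℝ m D := by
        ring
      rw [h3]
      linarith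
    · rw [inner_sub_left, inner_smul_left, hDn', mul_zero, sub_zero]
      exact hx.2
  -- expansion
  obtain ⟨f, hf⟩ : ∃ f : ℝ, f = hs K n' - (inner ℝ m n' : ℝ) := ⟨_, rfl⟩
  have hexp : ∀ t : ℝ, 0 < t → ∃ s : ℝ, 0 ≤ s - 1 ∧ s - 1 ≤ t ^ 2 * d / 2 ∧
      hs K (n' + t • D) = t * d / 2 + s * f + inner ℝ m n' + t * inner ℝ m D := by
    intro t ht
    have hnsq : ‖n' + t • D‖ ^ 2 = 1 + t ^ 2 * d := by
      rw [← real_inner_self_eq_norm_sq]
      simp only [inner_add_left, inner_add_right, inner_smul_left, inner_smul_right, hn'n', hDn',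
        hn'D, ← hd, conj_trivial]
      ring
    have hn0 := norm_nonneg (n' + t • D)
    have ht2 : 0 < t ^ 2 * d := by positivity
    obtain ⟨s, hsd⟩ : ∃ s : ℝ, s = ‖n' + t • D‖ := ⟨_, rfl⟩
    rw [← hsd] at hnsq hn0
    have hs1 : 1 ≤ s := by
      by_contra h
      push Not at h
      nlinarith
    have hs2 : s - 1 ≤ t ^ 2 * d / 2 := by
      by_contra h
      push Not at h
      nlinarith
    refine ⟨s, by linarith, hs2, ?_⟩
    have h1 := hRF (n' + t • D) (s • n') (by
      rw [norm_smul, hn', mul_one, Real.norm_of_nonneg hn0, hsd]) (by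
      rw [inner_add_left, inner_smul_left, inner_smul_left, hDn, hn'n]
      simp)
    rw [inner_add_right, inner_add_right, inner_smul_right, inner_smul_right, inner_smul_right,
      inner_smul_right, hDn', ← hd, mul_zero, abs_zero, zero_add, abs_of_pos (by positivity),
      hs_smul hK.comp hK.ne hn0] at h1
    have h2 : s * f = s * hs K n' - s * inner ℝ m n' := by rw [hf]; ring
    rw [h2]
    linarith
  have hC : 0 ≤ d / 2 * |f| := by positivity
  have hbd : ∀ t s : ℝ, 0 < t → 0 ≤ s - 1 → s - 1 ≤ t ^ 2 * d / 2 →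
      |(s - 1) * f| ≤ t * (t * (d / 2 * |f|)) := by
    intro t s ht h1 h2
    rw [abs_mul, abs_of_nonneg h1]
    have := mul_le_mul_of_nonneg_right h2 (abs_nonneg f)
    calc (s - 1) * |f| ≤ t ^ 2 * d / 2 * |f| := this
      _ = t * (t * (d / 2 * |f|)) := by ring
  have hupper : ∀ x ∈ face K n', (inner ℝ x D : ℝ) ≤ inner ℝ m D + d / 2 := by
    intro x hx
    have h0 : (inner ℝ x D : ℝ) - inner ℝ m D - d / 2 ≤ 0 := by
      apply small_8688 hC
      intro t ht
      obtain ⟨s, h1, h2, h3⟩ := hexp t ht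
      have h4 := inner_le_hs hK.comp hx.1 (n' + t • D)
      rw [h3, inner_add_right, inner_smul_right, hx.2] at h4
      have h5 := (abs_le.1 (hbd t s ht h1 h2)).2
      have h6 : t * ((inner ℝ x D : ℝ) - inner ℝ m D - d / 2) ≤ t * (t * (d / 2 * |f|)) := by
        have h7 : t * ((inner ℝ x D : ℝ) - inner ℝ m D - d / 2) =
          t * inner ℝ x D - t * inner ℝ m D - t * d / 2 := by ring
        have h8 : (s - 1) * f = s * f - f := by ring
        rw [h7]
        linarith
      exact le_of_mul_le_mul_left h6 ht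
    linarith
  have hlower : ∀ x ∈ face K n', (inner ℝ m D : ℝ) - d / 2 ≤ inner ℝ x D := by
    intro x hx
    have h1 := hupper _ (hstar x hx)
    rw [inner_sub_left, inner_smul_left, ← hd] at h1
    simp only [conj_trivial] at h1
    have h2 : 2 * ((inner ℝ x D : ℝ) - inner ℝ m D) / d * d =
      2 * ((inner ℝ x D : ℝ) - inner ℝ m D) := by field_simp
    rw [h2] at h1
    linarith
  have hatt : ∃ x ∈ face K n', (inner ℝ m D : ℝ) + d / 2 ≤ inner ℝ x D := by
    have hex : ∀ k : ℕ, ∃ x, x ∈ face K (n' + (1 / ((k : ℝ) + 1)) • D) := fun k =>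
      exists_face hK.comp hK.ne _
    choose x hx using hex
    obtain ⟨x0, -, φ, hφ, hlim⟩ := hK.comp.tendsto_subseq (fun k => (hx k).1)
    have htl : Filter.Tendsto (fun k : ℕ => 1 / (((φ k : ℕ) : ℝ) + 1)) Filter.atTop (nhds 0) :=
      tendsto_one_div_add_atTop_nhds_zero_nat.comp hφ.tendsto_atTop
    have hul : Filter.Tendsto (fun k : ℕ => n' + (1 / (((φ k : ℕ) : ℝ) + 1)) • D) Filter.atTop
        (nhds n') := by
      have h1 := (htl.smul_const D).const_add n'
      rw [zero_smul, add_zero] at h1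
      exact h1
    refine ⟨x0, face_limit hK.comp hK.ne hlim hul (fun k => hx (φ k)), ?_⟩
    have h1 : Filter.Tendsto (fun k : ℕ => (inner ℝ (x (φ k)) D : ℝ)) Filter.atTop
        (nhds (inner ℝ x0 D)) := hlim.inner tendsto_const_nhds
    have h2 : Filter.Tendsto (fun k : ℕ => (inner ℝ m D : ℝ) + d / 2 -
        1 / (((φ k : ℕ) : ℝ) + 1) * (d / 2 * |f|)) Filter.atTop
        (nhds ((inner ℝ m D : ℝ) + d / 2 - 0 * (d / 2 * |f|))) :=
      tendsto_const_nhds.sub (htl.mul_const _)
    rw [zero_mul, sub_zero] at h2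
    refine le_of_tendsto_of_tendsto' h2 h1 (fun k => ?_)
    obtain ⟨t, ht⟩ : ∃ t : ℝ, t = 1 / (((φ k : ℕ) : ℝ) + 1) := ⟨_, rfl⟩
    have htpos : 0 < t := by rw [ht]; positivity
    have hxk := hx (φ k)
    rw [← ht] at hxk ⊢
    obtain ⟨s, h3, h4, h5⟩ := hexp t htpos
    have h6 := hxk.2
    have h7 := inner_le_hs hK.comp hxk.1 n'
    rw [h5, inner_add_right, inner_smul_right] at h6
    have h8 := (abs_le.1 (hbd t s htpos h3 h4)).1
    have h9 : t * ((inner ℝ m D : ℝ) + d / 2 - t * (d / 2 * |f|)) ≤ t * inner ℝ (x (φ k)) D := by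
      have h10 : t * ((inner ℝ m D : ℝ) + d / 2 - t * (d / 2 * |f|)) =
        t * inner ℝ m D + t * d / 2 - t * (t * (d / 2 * |f|)) := by ring
      have h11 : (s - 1) * f = s * f - f := by ring
      rw [h10]
      linarith
    exact le_of_mul_le_mul_left h9 htpos
  obtain ⟨x, hx, hx1⟩ := hatt
  have hx2 : (inner ℝ x D : ℝ) = inner ℝ m D + d / 2 := le_antisymm (hupper x hx) hx1
  have hy := hstar x hx
  have hy' : x - (2 * ((inner ℝ x D : ℝ) - inner ℝ m D) / d) • D = x - D := by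
    have : 2 * ((inner ℝ x D : ℝ) - inner ℝ m D) / d = 1 := by
      rw [hx2]
      field_simp
      ring
    rw [this, one_smul]
  rw [hy'] at hy
  have hn'0 : n' ≠ 0 := by
    intro h
    rw [h, norm_zero] at hn'
    exact absurd hn' (by norm_num)
  obtain ⟨a, b, hab⟩ := hseg n' hn'0
  refine ⟨x - D, x, ?_, by abel⟩
  rw [hab] at hx hy hupper hlower ⊢
  apply seg_ends_8688 D a b x (x - D) ((inner ℝ m D : ℝ) - d / 2) ((inner ℝ m D : ℝ) + d / 2)
    (by linarith) (fun z hz => ⟨hlower z hz, hupper z hz⟩) hx hy hx2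
  rw [inner_sub_left, hx2, ← hd]
  ring

end Pool.Agent.Helper968.SC.G12
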