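import Mathlib
import Pool.Agent.Helper968.SC.Base
set_option autoImplicit false
open Set Metric
namespace Pool.Agent.Helper968.SC.G13

/-- two orthogonal axes of rotational invariance give a ball plus a segment -/
theorem final_form {K : Set E3} (hK : Body K) (b : OrthonormalBasis (Fin 3) ℝ E3) (t : ℝ)
    (p q p' q' : E3) (hq : q - p = t • b 2) (hq' : q' - p' = t • b 2)
    (hR : RotInv K (b 0) p q) (hR' : RotInv K (b 1) p' q') :
    ∃ m : E3, ∃ κ : ℝ, ∀ w : E3,
      hs K w = inner ℝ m w + |(inner ℝ (t • b 2) w : ℝ)| / 2 + κ * ‖w‖ := by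
  have hmax : ∀ (P Q : E3) (_ : Q - P = t • b 2) (w : E3),
      max (inner ℝ P w : ℝ) (inner ℝ Q w) =
        inner ℝ ((1 / 2 : ℝ) • (P + Q)) w + |(inner ℝ (t • b 2) w : ℝ)| / 2 := by
    intro P Q hPQ w
    rw [← hPQ, inner_sub_left, inner_smul_left, inner_add_left]
    simp only [conj_trivial]
    rcases le_total (inner ℝ P w : ℝ) (inner ℝ Q w) with h | h
    · rw [max_eq_right h, abs_of_nonneg (by linarith)]
      ring
    · rw [max_eq_left h, abs_of_nonpos (by linarith)]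
      ring
  set m : E3 := (1 / 2 : ℝ) • (p + q) with hm
  set m' : E3 := (1 / 2 : ℝ) • (p' + q') with hm'
  set c : E3 := m' - m with hc
  have h00 : (inner ℝ (b 0) (b 0) : ℝ) = 1 := by
    rw [real_inner_self_eq_norm_sq, b.norm_eq_one]; norm_num
  have h11 : (inner ℝ (b 1) (b 1) : ℝ) = 1 := by
    rw [real_inner_self_eq_norm_sq, b.norm_eq_one]; norm_num
  have h22 : (inner ℝ (b 2) (b 2) : ℝ) = 1 := by
    rw [real_inner_self_eq_norm_sq, b.norm_eq_one]; norm_num
  have h01 : (inner ℝ (b 0) (b 1) : ℝ) = 0 := b.inner_eq_zero (by decide)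
  have h10 : (inner ℝ (b 1) (b 0) : ℝ) = 0 := b.inner_eq_zero (by decide)
  have h02 : (inner ℝ (b 0) (b 2) : ℝ) = 0 := b.inner_eq_zero (by decide)
  have h20 : (inner ℝ (b 2) (b 0) : ℝ) = 0 := b.inner_eq_zero (by decide)
  have h12 : (inner ℝ (b 1) (b 2) : ℝ) = 0 := b.inner_eq_zero (by decide)
  have h21 : (inner ℝ (b 2) (b 1) : ℝ) = 0 := b.inner_eq_zero (by decide)
  -- the two reduced functions
  have hRm : ∀ w w' : E3, ‖w‖ = ‖w'‖ → (inner ℝ w (b 0) : ℝ) = inner ℝ w' (b 0) →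
      hs K w - inner ℝ m w - |(inner ℝ (t • b 2) w : ℝ)| / 2 =
        hs K w' - inner ℝ m w' - |(inner ℝ (t • b 2) w' : ℝ)| / 2 := by
    intro w w' h1 h2
    have h3 := hR w w' h1 h2
    rw [hmax p q hq w, hmax p q hq w'] at h3
    linarith
  have hRm' : ∀ w w' : E3, ‖w‖ = ‖w'‖ → (inner ℝ w (b 1) : ℝ) = inner ℝ w' (b 1) →
      hs K w - inner ℝ m' w - |(inner ℝ (t • b 2) w : ℝ)| / 2 =
        hs K w' - inner ℝ m' w' - |(inner ℝ (t • b 2) w' : ℝ)| / 2 := by
    intro w w' h1 h2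
    have h3 := hR' w w' h1 h2
    rw [hmax p' q' hq' w, hmax p' q' hq' w'] at h3
    linarith
  -- the difference of the centres is orthogonal to `b 2`
  have hcb2 : (inner ℝ c (b 2) : ℝ) = 0 := by
    have hn : ‖b 2‖ = ‖-(b 2)‖ := (norm_neg _).symm
    have h1 := hRm (b 2) (-(b 2)) hn (by rw [inner_neg_left, h20]; simp)
    have h2 := hRm' (b 2) (-(b 2)) hn (by rw [inner_neg_left, h21]; simp)
    simp only [inner_neg_right, abs_neg] at h1 h2
    rw [hc, inner_sub_left]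
    linarith
  set A : ℝ := inner ℝ c (b 0) with hA
  set B : ℝ := inner ℝ c (b 1) with hB
  have hcw : ∀ w : E3, (inner ℝ c w : ℝ) = A * inner ℝ w (b 0) + B * inner ℝ w (b 1) := by
    intro w
    have h1 := b.sum_inner_mul_inner c w
    rw [Fin.sum_univ_three, hcb2, zero_mul, add_zero] at h1
    rw [← h1, real_inner_comm w (b 0), real_inner_comm w (b 1)]
  -- the common function
  have hS1 : ∀ w w' : E3, ‖w‖ = ‖w'‖ → (inner ℝ w (b 0) : ℝ) = inner ℝ w' (b 0) →
      hs K w - inner ℝ m w - |(inner ℝ (t • b 2) w : ℝ)| / 2 - A * inner ℝ w (b 0) =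
        hs K w' - inner ℝ m w' - |(inner ℝ (t • b 2) w' : ℝ)| / 2 - A * inner ℝ w' (b 0) := by
    intro w w' h1 h2
    have h3 := hRm w w' h1 h2
    rw [h2]
    linarith
  have hS2 : ∀ w w' : E3, ‖w‖ = ‖w'‖ → (inner ℝ w (b 1) : ℝ) = inner ℝ w' (b 1) →
      hs K w - inner ℝ m w - |(inner ℝ (t • b 2) w : ℝ)| / 2 - A * inner ℝ w (b 0) =
        hs K w' - inner ℝ m w' - |(inner ℝ (t • b 2) w' : ℝ)| / 2 - A * inner ℝ w' (b 0) := by
    intro w w' h1 h2
    have h3 := hRm' w w' h1 h2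
    have h4 := hcw w
    have h5 := hcw w'
    rw [hc, inner_sub_left] at h4 h5
    rw [h2] at h4
    linarith
  refine ⟨m + A • b 0, hs K (b 0) - inner ℝ m (b 0) - |(inner ℝ (t • b 2) (b 0) : ℝ)| / 2
    - A * inner ℝ (b 0) (b 0), ?_⟩
  intro w
  -- an auxiliary vector
  have hle : (inner ℝ w (b 0) : ℝ) ^ 2 ≤ ‖w‖ ^ 2 := by
    have h1 := abs_real_inner_le_norm w (b 0)
    rw [b.norm_eq_one, mul_one] at h1
    rw [← sq_abs]
    exact pow_le_pow_left₀ (abs_nonneg _) h1 2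
  set x : ℝ := inner ℝ w (b 0) with hx
  set y : ℝ := Real.sqrt (‖w‖ ^ 2 - x ^ 2) with hy
  have hy2 : y ^ 2 = ‖w‖ ^ 2 - x ^ 2 := Real.sq_sqrt (by linarith)
  have hws0 : (inner ℝ (x • b 0 + y • b 2) (b 0) : ℝ) = x := by
    rw [inner_add_left, inner_smul_left, inner_smul_left, h00, h20]; simp
  have hws1 : (inner ℝ (x • b 0 + y • b 2) (b 1) : ℝ) = 0 := by
    rw [inner_add_left, inner_smul_left, inner_smul_left, h01, h21]; simp
  have hwsn : ‖x • b 0 + y • b 2‖ = ‖w‖ := by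
    have h1 : ‖x • b 0 + y • b 2‖ ^ 2 = ‖w‖ ^ 2 := by
      rw [← real_inner_self_eq_norm_sq, inner_add_left, inner_add_right, inner_add_right,
        inner_smul_left, inner_smul_left, inner_smul_left, inner_smul_left, inner_smul_right,
        inner_smul_right, inner_smul_right, inner_smul_right, h00, h02, h20, h22]
      simp only [conj_trivial]
      nlinarith [hy2]
    exact (sq_eq_sq₀ (norm_nonneg _) (norm_nonneg _)).1 h1
  have hwn : (0:ℝ) ≤ ‖w‖ := norm_nonneg w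
  have e1 := hS1 w (x • b 0 + y • b 2) hwsn.symm (by rw [hws0])
  have e2 := hS2 (x • b 0 + y • b 2) (‖w‖ • b 0)
    (by rw [hwsn, norm_smul, b.norm_eq_one, mul_one, Real.norm_of_nonneg hwn])
    (by rw [hws1, inner_smul_left, h01]; simp)
  have e3 : hs K (‖w‖ • b 0) = ‖w‖ * hs K (b 0) := hs_smul hK.comp hK.ne hwn _
  rw [e1.trans e2 |> fun h => show hs K w = _ from by
    have h' := h
    exact (by linarith : hs K w = inner ℝ m w + |(inner ℝ (t • b 2) w : ℝ)| / 2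
      + A * inner ℝ w (b 0) + (hs K (‖w‖ • b 0) - inner ℝ m (‖w‖ • b 0)
      - |(inner ℝ (t • b 2) (‖w‖ • b 0) : ℝ)| / 2 - A * inner ℝ (‖w‖ • b 0) (b 0)))]
  rw [e3]
  simp only [inner_smul_right, inner_smul_left, inner_add_left, conj_trivial, h20, h00,
    real_inner_comm w (b 0)]
  have hxx : (inner ℝ (b 0) w : ℝ) = inner ℝ w (b 0) := real_inner_comm _ _
  simp only [hxx, mul_zero, abs_zero]
  ring

end Pool.Agent.Helper968.SC.G13
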