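import Mathlib
import Pool.Agent.Helper968.SC.Base
set_option autoImplicit false
open Set Metric
namespace Pool.Agent.Helper968.SC.G14

theorem exists_perp (D : E3) : ∃ w : E3, w ≠ 0 ∧ inner ℝ D w = (0:ℝ) := by
  by_contra hcon
  push Not at hcon
  have h1 : (Submodule.span ℝ {D})ᗮ = ⊥ := by
    rw [Submodule.eq_bot_iff]
    intro w hw
    by_contra hw0
    exact hcon w hw0 (hw D (Submodule.mem_span_singleton_self D))
  rw [Submodule.orthogonal_eq_bot_iff] at h1
  have h2 : Module.finrank ℝ (Submodule.span ℝ ({D} : Set E3)) ≤ 1 := by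
    have := finrank_span_le_card (R := ℝ) ({D} : Set E3)
    simpa using this
  rw [h1, finrank_top, finrank_euclideanSpace_fin] at h2
  omega

theorem width_pos {K : Set E3} (hK : Body K) {w : E3} (hw : w ≠ 0) : 0 < hs K w + hs K (-w) := by
  obtain ⟨x0, hx0⟩ := hK.int
  obtain ⟨ε, hε, hball⟩ := Metric.isOpen_iff.1 isOpen_interior x0 hx0
  have hwn : 0 < ‖w‖ := norm_pos_iff.2 hw
  have hin : ∀ t : ℝ, |t| * ‖w‖ < ε → x0 + t • w ∈ K := by
    intro t ht
    apply interior_subset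
    apply hball
    rw [Metric.mem_ball, dist_eq_norm, add_sub_cancel_left, norm_smul, Real.norm_eq_abs]
    exact ht
  have h0 : |ε / 2 / ‖w‖| * ‖w‖ < ε := by
    rw [abs_of_pos (by positivity), div_mul_cancel₀ _ hwn.ne']
    linarith
  have h1 := inner_le_hs hK.comp (hin (ε / 2 / ‖w‖) h0) w
  have h2 := inner_le_hs hK.comp (hin (-(ε / 2 / ‖w‖)) (by rw [abs_neg]; exact h0)) (-w)
  simp only [inner_add_left, inner_smul_left, inner_neg_right, conj_trivial,
    real_inner_self_eq_norm_sq] at h1 h2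
  have h3 : 0 < ε / 2 / ‖w‖ * ‖w‖ ^ 2 := by positivity
  nlinarith

theorem inner_seg_le {a b y w : E3} (hy : y ∈ segment ℝ a b) :
    (inner ℝ y w : ℝ) ≤ max (inner ℝ a w) (inner ℝ b w) := by
  obtain ⟨s, t, hs, ht, hst, rfl⟩ := hy
  rw [inner_add_left, inner_smul_left, inner_smul_left]
  simp only [conj_trivial]
  have h1 := mul_le_mul_of_nonneg_left (le_max_left (inner ℝ a w : ℝ) (inner ℝ b w)) hs
  have h2 := mul_le_mul_of_nonneg_left (le_max_right (inner ℝ a w : ℝ) (inner ℝ b w)) ht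
  calc s * inner ℝ a w + t * inner ℝ b w
      ≤ s * max (inner ℝ a w : ℝ) (inner ℝ b w) + t * max (inner ℝ a w : ℝ) (inner ℝ b w) :=
        add_le_add h1 h2
    _ = max (inner ℝ a w : ℝ) (inner ℝ b w) := by rw [← add_mul, hst, one_mul]

theorem seg_compact (a b : E3) : IsCompact (segment ℝ a b) := by
  rw [← convexHull_pair (𝕜 := ℝ)]
  exact (Set.toFinite _).isCompact_convexHull (𝕜 := ℝ)

theorem mem_saus {a b : E3} {κ : ℝ} {x : E3} :
    x ∈ {x | Metric.infDist x (segment ℝ a b) ≤ κ} ↔ ∃ y ∈ segment ℝ a b, dist x y ≤ κ := by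
  constructor
  · intro hx
    obtain ⟨y, hy, he⟩ := (seg_compact a b).exists_infDist_eq_dist ⟨a, left_mem_segment ℝ a b⟩ x
    refine ⟨y, hy, ?_⟩
    rw [← he]
    exact hx
  · rintro ⟨y, hy, hle⟩
    exact (Metric.infDist_le_dist_of_mem hy).trans hle

theorem saus_eq {a b : E3} {κ : ℝ} (hκ : 0 ≤ κ) :
    {x | Metric.infDist x (segment ℝ a b) ≤ κ} = Metric.cthickening κ (segment ℝ a b) := by
  rw [(seg_compact a b).cthickening_eq_biUnion_closedBall hκ]
  ext x
  rw [mem_saus]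
  simp only [Set.mem_iUnion, Metric.mem_closedBall, exists_prop]

theorem hs_saus {a b : E3} {κ : ℝ} (hκ : 0 ≤ κ) (w : E3) :
    hs {x | Metric.infDist x (segment ℝ a b) ≤ κ} w =
      max (inner ℝ a w : ℝ) (inner ℝ b w) + κ * ‖w‖ := by
  have hcomp : IsCompact {x | Metric.infDist x (segment ℝ a b) ≤ κ} := by
    rw [saus_eq hκ]
    exact (seg_compact a b).cthickening
  have hne : ({x | Metric.infDist x (segment ℝ a b) ≤ κ} : Set E3).Nonempty :=
    ⟨a, mem_saus.2 ⟨a, left_mem_segment ℝ a b, by rw [dist_self]; exact hκ⟩⟩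
  apply le_antisymm
  · apply hs_le hne
    intro x hx
    obtain ⟨y, hy, hxy⟩ := mem_saus.1 hx
    have h1 := inner_seg_le (w := w) hy
    have h2 : (inner ℝ (x - y) w : ℝ) ≤ κ * ‖w‖ := by
      refine (real_inner_le_norm _ _).trans ?_
      rw [← dist_eq_norm]
      exact mul_le_mul_of_nonneg_right hxy (norm_nonneg _)
    rw [inner_sub_left] at h2
    linarith
  · have key : ∀ c ∈ segment ℝ a b, (inner ℝ c w : ℝ) + κ * ‖w‖ ≤
        hs {x | Metric.infDist x (segment ℝ a b) ≤ κ} w := by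
      intro c hc
      by_cases hw : w = 0
      · subst hw
        have := inner_le_hs hcomp (mem_saus.2 ⟨c, hc, by rw [dist_self]; exact hκ⟩) (0 : E3)
        simpa using this
      · have hwn : 0 < ‖w‖ := norm_pos_iff.2 hw
        have hm : c + (κ / ‖w‖) • w ∈ {x | Metric.infDist x (segment ℝ a b) ≤ κ} := by
          refine mem_saus.2 ⟨c, hc, ?_⟩
          rw [dist_eq_norm, add_sub_cancel_left, norm_smul, Real.norm_eq_abs,
            abs_of_nonneg (by positivity), div_mul_cancel₀ _ hwn.ne']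
        have h1 := inner_le_hs hcomp hm w
        rw [inner_add_left, inner_smul_left, real_inner_self_eq_norm_sq] at h1
        simp only [conj_trivial] at h1
        have h2 : κ / ‖w‖ * ‖w‖ ^ 2 = κ * ‖w‖ := by field_simp
        linarith
    rcases max_cases (inner ℝ a w : ℝ) (inner ℝ b w) with ⟨h1, _⟩ | ⟨h1, _⟩
    · rw [h1]; exact key a (left_mem_segment ℝ a b)
    · rw [h1]; exact key b (right_mem_segment ℝ a b)


/-- recognising the sausage from its support function -/
theorem sausage_of_hs {K : Set E3} (hK : Body K) (m D : E3) (κ : ℝ)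
    (h : ∀ w : E3, hs K w = inner ℝ m w + |(inner ℝ D w : ℝ)| / 2 + κ * ‖w‖) :
    ∃ a b : E3, ∃ r : ℝ, 0 < r ∧ K = {x | Metric.infDist x (segment ℝ a b) ≤ r} := by
  have hκ : 0 < κ := by
    obtain ⟨w, hw, hDw⟩ := exists_perp D
    have h1 := width_pos hK hw
    rw [h w, h (-w), inner_neg_right, inner_neg_right, norm_neg, hDw] at h1
    have hwn : 0 < ‖w‖ := norm_pos_iff.2 hw
    simp only [neg_zero, abs_zero, zero_div, add_zero] at h1
    by_contra hcon
    have : κ * ‖w‖ ≤ 0 := mul_nonpos_of_nonpos_of_nonneg (not_lt.1 hcon) hwn.le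
    linarith
  refine ⟨m - (1 / 2 : ℝ) • D, m + (1 / 2 : ℝ) • D, κ, hκ, ?_⟩
  have hseg := seg_compact (m - (1 / 2 : ℝ) • D) (m + (1 / 2 : ℝ) • D)
  refine eq_of_hs_eq hK.comp ?_ hK.conv ?_ hK.ne ?_ ?_
  · rw [saus_eq hκ.le]; exact hseg.cthickening
  · rw [saus_eq hκ.le]; exact (convex_segment _ _).cthickening κ
  · exact ⟨_, mem_saus.2 ⟨_, left_mem_segment ℝ _ _, by rw [dist_self]; exact hκ.le⟩⟩
  · intro u
    rw [hs_saus hκ.le, h u]
    have : max (inner ℝ (m - (1 / 2 : ℝ) • D) u : ℝ) (inner ℝ (m + (1 / 2 : ℝ) • D) u) =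
        inner ℝ m u + |(inner ℝ D u : ℝ)| / 2 := by
      rw [inner_sub_left, inner_add_left, inner_smul_left]
      simp only [conj_trivial]
      rcases abs_cases (inner ℝ D u : ℝ) with ⟨h1, h2⟩ | ⟨h1, h2⟩
      · rw [h1, max_eq_right (by linarith)]; ring
      · rw [h1, max_eq_left (by linarith)]; ring
    rw [this]

end Pool.Agent.Helper968.SC.G14
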