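import Mathlib
import Pool.Agent.Helper968.SC.Base
set_option autoImplicit false
open Set Metric
namespace Pool.Agent.Helper968.SC.G2

/-- connectedness of the common boundary forces equality -/
theorem connected_contact
    (iso_eq : ∀ (K L : Set E3), IsCompact K → ∀ g : E3 ≃ᵢ E3, g '' K = L → K ⊆ L → K = L)
    {K L : Set E3} (hK : Body K) (hL : Body L) (g : E3 ≃ᵢ E3)
    (hg : g '' K = L) (hS : IsPreconnected (frontier K ∩ frontier L)) (X : Set E3)
    (hXn : X.Nonempty) (hXc : IsCompact X) (hXs : X ⊆ frontier K ∩ frontier L) (ρ : ℝ)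
    (hρ : 0 < ρ) (h1 : ∀ y ∈ frontier K ∩ frontier L, infDist y X < ρ → y ∈ X)
    (h2 : ∀ y ∈ K, infDist y X < ρ → y ∈ L) : K = L := by
  have hKc : IsClosed K := hK.comp.isClosed
  have hLc : IsClosed L := hL.comp.isClosed
  have hXcl : IsClosed X := hXc.isClosed
  have hUo : IsOpen {y : E3 | infDist y X < ρ} :=
    isOpen_lt (continuous_infDist_pt X) continuous_const
  have hXU : X ⊆ {y : E3 | infDist y X < ρ} := by
    intro y hy
    simp only [mem_setOf_eq, infDist_zero_of_mem hy]
    exact hρ
  -- step 1
  have hSX : frontier K ∩ frontier L ⊆ X := by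
    by_contra hne
    obtain ⟨y, hyS, hyX⟩ := not_subset.1 hne
    obtain ⟨x0, hx0⟩ := hXn
    have := hS {y : E3 | infDist y X < ρ} Xᶜ hUo hXcl.isOpen_compl
      (by
        intro z _
        by_cases hz : z ∈ X
        · exact Or.inl (hXU hz)
        · exact Or.inr hz)
      ⟨x0, hXs hx0, hXU hx0⟩ ⟨y, hyS, hyX⟩
    obtain ⟨z, hzS, hzU, hzX⟩ := this
    exact hzX (h1 z hzS hzU)
  -- step 2
  have hrank : 1 < Module.rank ℝ E3 := by
    rw [← Module.finrank_eq_rank ℝ E3, finrank_euclideanSpace_fin]
    norm_num
  have hfr : IsPreconnected (frontier K) := by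
    obtain ⟨e, -, -, he⟩ := exists_homeomorph_image_interior_closure_frontier_eq_unitBall
      hK.conv hK.int hK.comp.isBounded
    have h3 : frontier K = e.symm '' sphere (0 : E3) 1 := by
      rw [← he]
      ext x
      simp
    rw [h3]
    exact (isPreconnected_sphere hrank 0 1).image _ e.symm.continuous.continuousOn
  have hfK : frontier K ⊆ K := by
    have := frontier_subset_closure (s := K)
    rwa [hKc.closure_eq] at this
  have hfL : frontier K ⊆ L := by
    by_contra hne
    obtain ⟨y, hyS, hyL⟩ := not_subset.1 hne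
    obtain ⟨x0, hx0⟩ := hXn
    have := hfr (interior L ∪ {y : E3 | infDist y X < ρ}) Lᶜ (isOpen_interior.union hUo)
      hLc.isOpen_compl
      (by
        intro z hz
        by_cases hzL : z ∈ L
        · left
          by_cases hzi : z ∈ interior L
          · exact Or.inl hzi
          · right
            apply hXU
            apply hSX
            refine ⟨hz, ?_⟩
            rw [hLc.frontier_eq]
            exact ⟨hzL, hzi⟩
        · exact Or.inr hzL)
      ⟨x0, (hXs hx0).1, Or.inr (hXU hx0)⟩ ⟨y, hyS, hyL⟩
    obtain ⟨z, hzK, hzU, hzL⟩ := this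
    rcases hzU with hzU | hzU
    · exact hzL (interior_subset hzU)
    · exact hzL (h2 z (hfK hzK) hzU)
  -- step 3
  have hKL : K ⊆ L := by
    intro x hx
    apply mem_of_inner_le hL.conv hL.comp hL.ne
    intro u
    by_cases hu : u = 0
    · obtain ⟨y, hy⟩ := hL.ne
      have h4 := inner_le_hs hL.comp hy u
      rw [hu, inner_zero_right] at h4 ⊢
      exact h4
    · obtain ⟨p, hpK, hpe⟩ := exists_face hK.comp hK.ne u
      have hpf : p ∈ frontier K := by
        rw [hKc.frontier_eq]
        refine ⟨hpK, fun hpi => ?_⟩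
        have hcont : Continuous fun t : ℝ => p + t • u := by fun_prop
        have hop : IsOpen ((fun t : ℝ => p + t • u) ⁻¹' interior K) :=
          isOpen_interior.preimage hcont
        have h0 : (0 : ℝ) ∈ (fun t : ℝ => p + t • u) ⁻¹' interior K := by simpa using hpi
        obtain ⟨ε, hε, hball⟩ := Metric.isOpen_iff.1 hop 0 h0
        have h5 : (ε / 2 : ℝ) ∈ ball (0 : ℝ) ε := by
          rw [mem_ball, dist_zero_right, Real.norm_eq_abs, abs_of_pos (by linarith)]
          linarith
        have h6 : p + (ε / 2) • u ∈ K := interior_subset (hball h5)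
        have h7 := inner_le_hs hK.comp h6 u
        rw [inner_add_left, inner_smul_left, hpe] at h7
        have h8 : (0 : ℝ) < inner ℝ u u := by
          rw [real_inner_self_eq_norm_sq]
          have := norm_pos_iff.2 hu
          positivity
        simp only [conj_trivial] at h7
        nlinarith [mul_pos (show (0:ℝ) < ε / 2 by linarith) h8]
      have h9 := inner_le_hs hK.comp hx u
      have h10 := inner_le_hs hL.comp (hfL hpf) u
      rw [← hpe] at h9
      exact h9.trans h10
  exact iso_eq K L hK.comp g hg hKL

end Pool.Agent.Helper968.SC.G2
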