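import Mathlib
import Pool.Agent.Helper968.SC.Base
set_option autoImplicit false
open Set Metric
namespace Pool.Agent.Helper968.SC.G3

/-- a compact set contained in an isometric copy of itself is equal to it -/
theorem iso_eq {K L : Set E3} (hK : IsCompact K) (g : E3 ≃ᵢ E3) (hg : g '' K = L)
    (h : K ⊆ L) : K = L := by
  obtain ⟨φ, hφ⟩ : ∃ φ : E3 → E3, φ = fun x => g.symm x := ⟨_, rfl⟩
  have hφi : Isometry φ := by rw [hφ]; exact g.symm.isometry
  have hmap : ∀ x ∈ K, φ x ∈ K := by
    intro x hx
    have h1 := h hx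
    rw [← hg] at h1
    obtain ⟨k, hk, rfl⟩ := h1
    rw [hφ]
    simpa using hk
  have hsurj : K ⊆ φ '' K := by
    intro y hy
    by_contra hny
    have hc : IsClosed (φ '' K) := (hK.image hφi.continuous).isClosed
    obtain ⟨ε, hε, hball⟩ := Metric.isOpen_iff.1 hc.isOpen_compl y hny
    have hd : ∀ z ∈ K, ε ≤ dist (φ z) y := by
      intro z hz
      by_contra hlt
      push Not at hlt
      exact hball (Metric.mem_ball.2 hlt) ⟨z, hz, rfl⟩
    have hiter : ∀ n, φ^[n] y ∈ K := by
      intro n
      induction n with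
      | zero => exact hy
      | succ n ih =>
        rw [Function.iterate_succ_apply']
        exact hmap _ ih
    have hdist : ∀ n x z, dist (φ^[n] x) (φ^[n] z) = dist x z := by
      intro n
      induction n with
      | zero => intro x z; rfl
      | succ n ih =>
        intro x z
        rw [Function.iterate_succ_apply, Function.iterate_succ_apply, ih, hφi.dist_eq]
    obtain ⟨a, ha, ψ, hψ, hlim⟩ := hK.tendsto_subseq hiter
    obtain ⟨N, hN⟩ := Metric.cauchySeq_iff.1 hlim.cauchySeq ε hε
    have h1 := hN (N + 1) (by omega) N le_rfl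
    simp only [Function.comp_apply] at h1
    have h2 : ψ N < ψ (N + 1) := hψ (by omega)
    obtain ⟨d, hdd⟩ : ∃ d, ψ (N + 1) = ψ N + (d + 1) := ⟨ψ (N + 1) - ψ N - 1, by omega⟩
    rw [hdd, Function.iterate_add_apply, hdist, Function.iterate_succ_apply'] at h1
    exact absurd (hd _ (hiter d)) (not_le.2 h1)
  apply Set.Subset.antisymm h
  rw [← hg]
  rintro _ ⟨k, hk, rfl⟩
  obtain ⟨k', hk', rfl⟩ := hsurj hk
  rw [hφ]
  simpa using hk'

end Pool.Agent.Helper968.SC.G3
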