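import Mathlib
import Pool.Agent.Helper968.SC.Base
set_option autoImplicit false
open Set Metric
namespace Pool.Agent.Helper968.SC.G4

/-- no cap: strict inequality between the support functions of two congruent copies on the
boundary of a region of normals propagates to the region -/
theorem noCap
    (local_contact : ∀ (K L : Set E3), Body K → Body L → ∀ (b : OrthonormalBasis (Fin 3) ℝ E3)
      (U : Set ℂ), IsOpen U → Bornology.IsBounded U →
      (∀ z ∈ frontier U, hs K (chart b z) < hs L (chart b z)) → ∀ z1 ∈ U,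
      hs L (chart b z1) ≤ hs K (chart b z1) →
      ∃ c : ℝ, 0 ≤ c ∧ ∃ X : Set E3, X.Nonempty ∧ IsCompact X ∧
      X ⊆ frontier K ∩ frontier ((fun x => x + c • b 2) '' L) ∧
      (∃ ρ > 0, (∀ y ∈ frontier K ∩ frontier ((fun x => x + c • b 2) '' L),
          infDist y X < ρ → y ∈ X) ∧
        (∀ y ∈ K, infDist y X < ρ → y ∈ (fun x => x + c • b 2) '' L)) ∧
      K ≠ (fun x => x + c • b 2) '' L)
    (connected_contact : ∀ (K L : Set E3), Body K → Body L → ∀ (g : E3 ≃ᵢ E3),
      g '' K = L → IsPreconnected (frontier K ∩ frontier L) → ∀ (X : Set E3),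
      X.Nonempty → IsCompact X → X ⊆ frontier K ∩ frontier L → ∀ (ρ : ℝ),
      0 < ρ → (∀ y ∈ frontier K ∩ frontier L, infDist y X < ρ → y ∈ X) →
      (∀ y ∈ K, infDist y X < ρ → y ∈ L) → K = L)
    {K : Set E3} (hK : Body K) (hP : PP K) (g1 g2 : E3 ≃ᵢ E3)
    (b : OrthonormalBasis (Fin 3) ℝ E3) (U : Set ℂ) (hU : IsOpen U)
    (hUb : Bornology.IsBounded U)
    (hfr : ∀ z ∈ frontier U, hs (g1 '' K) (chart b z) < hs (g2 '' K) (chart b z)) :
    ∀ z ∈ U, hs (g1 '' K) (chart b z) < hs (g2 '' K) (chart b z) := by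
  intro z1 hz1
  by_contra hcon
  rw [not_lt] at hcon
  obtain ⟨c, hc, X, hXn, hXc, hXs, ⟨ρ, hρ, h1, h2⟩, hne⟩ :=
    local_contact (g1 '' K) (g2 '' K) (hK.image g1) (hK.image g2) b U hU hUb hfr z1 hz1 hcon
  set g3 : E3 ≃ᵢ E3 := g2.trans (IsometryEquiv.addRight (c • b 2)) with hg3
  have hL : (fun x => x + c • b 2) '' (g2 '' K) = g3 '' K := by
    rw [image_image]
    rfl
  rw [hL] at hXs h1 h2 hne
  have hfr1 : frontier (g1 '' K) = g1 '' frontier K := (g1.toHomeomorph.image_frontier K).symm
  have hfr3 : frontier (g3 '' K) = g3 '' frontier K := (g3.toHomeomorph.image_frontier K).symm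
  have hint : frontier (g1 '' K) ∩ frontier (g3 '' K) =
      g1 '' (frontier K ∩ (g3.trans g1.symm) '' frontier K) := by
    rw [hfr1, hfr3, image_inter g1.injective]
    congr 1
    rw [image_image]
    apply image_congr
    intro x hx
    simp
  have hpre : IsPreconnected (frontier (g1 '' K) ∩ frontier (g3 '' K)) := by
    rcases hP (g3.trans g1.symm) with h | h
    · rw [hint, h, image_empty]
      exact isPreconnected_empty
    · rw [hint]
      exact h.isPreconnected.image _ g1.continuous.continuousOn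
  refine hne (connected_contact (g1 '' K) (g3 '' K) (hK.image g1) (hK.image g3)
    (g1.symm.trans g3) ?_ hpre X hXn hXc hXs ρ hρ h1 h2)
  rw [image_image]
  apply image_congr
  intro x hx
  simp

end Pool.Agent.Helper968.SC.G4
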