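import Mathlib
import Pool.Agent.Helper968.SC.Base
set_option autoImplicit false
open Set Metric
namespace Pool.Agent.Helper968.SC.G5

theorem segFaces_tri {F : Set E3} (hc : IsCompact F) (hv : Convex ℝ F) (hne : F.Nonempty)
    (h : ∀ p q : E3, F ≠ segment ℝ p q) :
    ∃ p ∈ F, ∃ q ∈ F, ∃ r ∈ F, q ≠ p ∧ ∀ t : ℝ, r ≠ p + t • (q - p) := by
  have hcc : IsCompact (F ×ˢ F) := hc.prod hc
  obtain ⟨⟨p, q⟩, ⟨hp, hq⟩, hmax⟩ := hcc.exists_isMaxOn (hne.prod hne)
    (f := fun x : E3 × E3 => dist x.1 x.2) (by fun_prop)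
  have hmax' : ∀ x ∈ F, ∀ y ∈ F, dist x y ≤ dist p q :=
    fun x hx y hy => isMaxOn_iff.1 hmax (x, y) (Set.mk_mem_prod hx hy)
  by_contra hcon
  push Not at hcon
  apply h p q
  apply Subset.antisymm
  · intro r hr
    by_cases hqp : q = p
    · have h1 := hmax' r hr p hp
      rw [hqp, dist_self] at h1
      have h2 : r = p := dist_le_zero.1 h1
      rw [h2]
      exact left_mem_segment ℝ p q
    · obtain ⟨t, ht⟩ := hcon p hp q hq r hr hqp
      have hpos : 0 < ‖q - p‖ := norm_pos_iff.2 (sub_ne_zero.2 hqp)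
      have h1 := hmax' r hr p hp
      have h2 := hmax' r hr q hq
      rw [dist_comm p q, dist_eq_norm, dist_eq_norm] at h1 h2
      have e1 : r - p = t • (q - p) := by rw [ht]; abel
      have e2 : r - q = (t - 1) • (q - p) := by rw [ht, sub_smul, one_smul]; abel
      rw [e1, norm_smul, Real.norm_eq_abs] at h1
      rw [e2, norm_smul, Real.norm_eq_abs] at h2
      have h3 : |t| ≤ 1 := by
        by_contra h3
        push Not at h3
        nlinarith
      have h4 : |t - 1| ≤ 1 := by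
        by_contra h4
        push Not at h4
        nlinarith
      rw [segment_eq_image']
      refine ⟨t, ⟨?_, ?_⟩, ht.symm⟩
      · have := (abs_le.1 h4).1
        linarith
      · exact (abs_le.1 h3).2
  · exact hv.segment_subset hp hq

theorem segFaces_rep (b : OrthonormalBasis (Fin 3) ℝ E3) (z : ℂ) (hz : z.re ^ 2 + z.im ^ 2 = 1)
    (v : E3) (h2 : inner ℝ v (b 2) = (0:ℝ))
    (h : inner ℝ v (z.re • b 0 + z.im • b 1) = (0:ℝ)) :
    v = (inner ℝ v (-z.im • b 0 + z.re • b 1) : ℝ) • (-z.im • b 0 + z.re • b 1) := by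
  have hrep := b.sum_repr' v
  rw [Fin.sum_univ_three] at hrep
  rw [real_inner_comm v (b 0), real_inner_comm v (b 1), real_inner_comm v (b 2), h2, zero_smul,
    add_zero] at hrep
  simp only [inner_add_right, inner_smul_right] at h ⊢
  set v0 : ℝ := inner ℝ v (b 0) with hv0
  set v1 : ℝ := inner ℝ v (b 1) with hv1
  have e0 : v0 = (-z.im * v0 + z.re * v1) * (-z.im) := by
    linear_combination (-v0) * hz + z.re * h
  have e1 : v1 = (-z.im * v0 + z.re * v1) * z.re := by
    linear_combination (-v1) * hz + z.im * h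
  rw [smul_add, smul_smul, smul_smul, ← e0, ← e1]
  exact hrep.symm

theorem segFaces_gap (b : OrthonormalBasis (Fin 3) ℝ E3) (p q r : E3) (c : ℝ)
    (hp : inner ℝ p (b 2) = c) (hq : inner ℝ q (b 2) = c) (hr : inner ℝ r (b 2) = c)
    (hqp : q ≠ p) (hn : ∀ t : ℝ, r ≠ p + t • (q - p)) :
    ∃ ε > 0, ∀ z : ℂ, ∃ x ∈ ({p, q, r} : Set E3),
      ε * ‖z‖ ≤ inner ℝ (x - (1 / 3 : ℝ) • (p + q + r)) (z.re • b 0 + z.im • b 1) := by
  set q0 : E3 := (1 / 3 : ℝ) • (p + q + r) with hq0
  set f : ℂ → ℝ := fun z => max (inner ℝ (p - q0) (z.re • b 0 + z.im • b 1))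
    (max (inner ℝ (q - q0) (z.re • b 0 + z.im • b 1))
      (inner ℝ (r - q0) (z.re • b 0 + z.im • b 1))) with hf
  have hfc : Continuous f := by
    have h1 : Continuous (fun z : ℂ => z.re • b 0 + z.im • b 1) :=
      (Complex.continuous_re.smul continuous_const).add (Complex.continuous_im.smul continuous_const)
    exact (continuous_const.inner h1).max ((continuous_const.inner h1).max (continuous_const.inner h1))
  have hcs : IsCompact (sphere (0 : ℂ) 1) := isCompact_sphere 0 1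
  obtain ⟨z0, hz0, hmin⟩ := hcs.exists_isMinOn ⟨1, by simp⟩ hfc.continuousOn
  have hz0' : ‖z0‖ = 1 := by simpa using hz0
  have hz1 : z0.re ^ 2 + z0.im ^ 2 = 1 := by
    have := Complex.sq_norm z0
    rw [hz0', Complex.normSq_apply] at this
    linarith
  have hpos : 0 < f z0 := by
    by_contra hle
    push Not at hle
    rw [hf] at hle
    simp only [max_le_iff] at hle
    obtain ⟨h1, h2, h3⟩ := hle
    have hsum : (inner ℝ (p - q0) (z0.re • b 0 + z0.im • b 1) : ℝ) +
        inner ℝ (q - q0) (z0.re • b 0 + z0.im • b 1) +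
        inner ℝ (r - q0) (z0.re • b 0 + z0.im • b 1) = 0 := by
      rw [← inner_add_left, ← inner_add_left]
      have : p - q0 + (q - q0) + (r - q0) = 0 := by
        rw [hq0]
        module
      rw [this, inner_zero_left]
    have k1 : (inner ℝ (q - p) (z0.re • b 0 + z0.im • b 1) : ℝ) = 0 := by
      have : q - p = (q - q0) - (p - q0) := by abel
      rw [this, inner_sub_left]
      linarith
    have k2 : (inner ℝ (r - p) (z0.re • b 0 + z0.im • b 1) : ℝ) = 0 := by
      have : r - p = (r - q0) - (p - q0) := by abel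
      rw [this, inner_sub_left]
      linarith
    have r1 := segFaces_rep b z0 hz1 (q - p) (by rw [inner_sub_left, hq, hp, sub_self]) k1
    have r2 := segFaces_rep b z0 hz1 (r - p) (by rw [inner_sub_left, hr, hp, sub_self]) k2
    set s : ℝ := inner ℝ (q - p) (-z0.im • b 0 + z0.re • b 1) with hs'
    set t : ℝ := inner ℝ (r - p) (-z0.im • b 0 + z0.re • b 1) with ht'
    have hs0 : s ≠ 0 := by
      intro h0
      rw [h0, zero_smul] at r1
      exact hqp (sub_eq_zero.1 r1)
    apply hn (t / s)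
    have : (t / s) • (q - p) = r - p := by
      rw [r1, r2, smul_smul, div_mul_cancel₀ _ hs0]
    rw [this]
    abel
  refine ⟨f z0, hpos, ?_⟩
  intro z
  by_cases hz : z = 0
  · refine ⟨p, by simp, ?_⟩
    rw [hz]
    simp
  · have hzn : 0 < ‖z‖ := norm_pos_iff.2 hz
    set z' : ℂ := ((‖z‖⁻¹ : ℝ) : ℂ) * z with hz'
    have hz's : z' ∈ sphere (0 : ℂ) 1 := by
      rw [mem_sphere_zero_iff_norm, hz', norm_mul, Complex.norm_real, norm_inv, norm_norm,
        inv_mul_cancel₀ hzn.ne']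
    have hre : z.re = ‖z‖ * z'.re := by
      rw [hz', Complex.re_ofReal_mul, ← mul_assoc, mul_inv_cancel₀ hzn.ne', one_mul]
    have him : z.im = ‖z‖ * z'.im := by
      rw [hz', Complex.im_ofReal_mul, ← mul_assoc, mul_inv_cancel₀ hzn.ne', one_mul]
    have hy : z.re • b 0 + z.im • b 1 = ‖z‖ • (z'.re • b 0 + z'.im • b 1) := by
      rw [smul_add, smul_smul, smul_smul, ← hre, ← him]
    have hm : f z0 ≤ f z' := hmin hz's
    have hx : ∃ x ∈ ({p, q, r} : Set E3),
        f z0 ≤ inner ℝ (x - q0) (z'.re • b 0 + z'.im • b 1) := by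
      rw [hf] at hm
      simp only [le_max_iff] at hm
      rcases hm with h | h | h
      · exact ⟨p, by simp, h⟩
      · exact ⟨q, by simp, h⟩
      · exact ⟨r, by simp, h⟩
    obtain ⟨x, hxm, hx⟩ := hx
    refine ⟨x, hxm, ?_⟩
    rw [hy, inner_smul_right, mul_comm]
    exact mul_le_mul_of_nonneg_left hx hzn.le

theorem segFaces_iso (p1 o q0 w : E3) (R : ℝ) (hR : 0 < R) (h : ‖p1 - o‖ = R) (hw : ‖w‖ = 1) :
    ∃ g : E3 ≃ᵢ E3, g p1 = q0 ∧ g o = q0 - R • w := by
  have hn : ‖R⁻¹ • (p1 - o)‖ = ‖w‖ := by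
    rw [norm_smul, norm_inv, Real.norm_eq_abs, abs_of_pos hR, h, hw, inv_mul_cancel₀ hR.ne']
  set L : E3 ≃ₗᵢ[ℝ] E3 := Submodule.reflection (Submodule.span ℝ {R⁻¹ • (p1 - o) - w})ᗮ with hL
  have h1 : L (R⁻¹ • (p1 - o)) = w := by
    rw [hL]
    exact Submodule.reflection_sub hn
  have h2 : L (p1 - o) = R • w := by
    rw [← h1, ← map_smul, smul_smul, mul_inv_cancel₀ hR.ne', one_smul]
  refine ⟨(IsometryEquiv.subRight p1).trans
    (L.toIsometryEquiv.trans (IsometryEquiv.addRight q0)), ?_, ?_⟩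
  · simp
  · have h3 : L (o - p1) = -(R • w) := by
      rw [← h2, ← map_neg, neg_sub]
    simp [h3]
    abel

/-- no two-dimensional faces -/
theorem segFaces {K : Set E3} (hK : Body K)
    (noCap : ∀ (g1 g2 : E3 ≃ᵢ E3) (b : OrthonormalBasis (Fin 3) ℝ E3) (U : Set ℂ), IsOpen U →
      Bornology.IsBounded U →
      (∀ z ∈ frontier U, hs (g1 '' K) (chart b z) < hs (g2 '' K) (chart b z)) →
      ∀ z ∈ U, hs (g1 '' K) (chart b z) < hs (g2 '' K) (chart b z)) :
    SegFaces K := by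
  suffices hmain : ∀ w : E3, ‖w‖ = 1 → ∃ p q : E3, face K w = segment ℝ p q by
    intro w hw
    have hwn : 0 < ‖w‖ := norm_pos_iff.2 hw
    obtain ⟨p, q, hpq⟩ := hmain (‖w‖⁻¹ • w) (by
      rw [norm_smul, norm_inv, norm_norm, inv_mul_cancel₀ hwn.ne'])
    rw [face_smul hK.comp hK.ne (inv_pos.2 hwn)] at hpq
    exact ⟨p, q, hpq⟩
  intro w hw
  by_contra hcon
  push Not at hcon
  obtain ⟨p, hp, q, hq, r, hr, hqp, hn⟩ := segFaces_tri (isCompact_face hK.comp w)
    (convex_face hK.conv w) (exists_face hK.comp hK.ne w) hcon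
  -- basis
  have horth : Orthonormal ℝ (({2} : Set (Fin 3)).domRestrict (fun _ : Fin 3 => w)) := by
    constructor
    · intro i
      exact hw
    · intro i j hij
      exfalso
      apply hij
      apply Subtype.ext
      have hi : (i : Fin 3) = 2 := i.2
      have hj : (j : Fin 3) = 2 := j.2
      rw [hi, hj]
  obtain ⟨b, hb⟩ := Orthonormal.exists_orthonormalBasis_extension_of_card_eq
    (𝕜 := ℝ) (E := E3) (ι := Fin 3) (by simp) horth
  have hb2 : b 2 = w := hb 2 rfl
  obtain ⟨ε, hε, hgap⟩ := segFaces_gap b p q r (hs K w) (by rw [hb2]; exact hp.2)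
    (by rw [hb2]; exact hq.2) (by rw [hb2]; exact hr.2) hqp hn
  set q0 : E3 := (1 / 3 : ℝ) • (p + q + r) with hq0
  have hq0w : inner ℝ q0 w = hs K w := by
    rw [hq0, inner_smul_left, inner_add_left, inner_add_left, hp.2, hq.2, hr.2]
    simp only [conj_trivial]
    ring
  -- farthest point
  obtain ⟨p1, hp1, hmax⟩ := hK.comp.exists_isMaxOn hK.ne (f := fun x : E3 => ‖x - p‖)
    (by fun_prop)
  have hmax' : ∀ x ∈ K, ‖x - p‖ ≤ ‖p1 - p‖ := fun x hx => hmax hx
  have hR : 0 < ‖p1 - p‖ :=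
    lt_of_lt_of_le (norm_pos_iff.2 (sub_ne_zero.2 hqp)) (hmax' q hq.1)
  obtain ⟨g, hg1, hg2⟩ := segFaces_iso p1 p q0 w ‖p1 - p‖ hR rfl hw
  set R : ℝ := ‖p1 - p‖ with hRd
  have hgK : IsCompact (g '' K) := hK.comp.image g.continuous
  have hgu : ∀ u : E3, hs (g '' K) u ≤ inner ℝ (q0 - R • w) u + R * ‖u‖ := by
    intro u
    apply hs_le (hK.ne.image _)
    rintro _ ⟨x, hx, rfl⟩
    have h1 : g x = (q0 - R • w) + (g x - g p) := by rw [hg2]; abel
    have h2 : ‖g x - g p‖ ≤ R := by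
      rw [← dist_eq_norm, g.dist_eq, dist_eq_norm]
      exact hmax' x hx
    rw [h1, inner_add_left]
    have h3 : (inner ℝ (g x - g p) u : ℝ) ≤ ‖g x - g p‖ * ‖u‖ := real_inner_le_norm _ _
    have h4 : ‖g x - g p‖ * ‖u‖ ≤ R * ‖u‖ := mul_le_mul_of_nonneg_right h2 (norm_nonneg _)
    linarith
  have hb00 : ‖b 0‖ = 1 := b.norm_eq_one 0
  have hb11 : ‖b 1‖ = 1 := b.norm_eq_one 1
  have hb01 : inner ℝ (b 0) (b 1) = (0:ℝ) := b.inner_eq_zero (by decide)
  have hb02 : inner ℝ (b 0) (b 2) = (0:ℝ) := b.inner_eq_zero (by decide)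
  have hb12 : inner ℝ (b 1) (b 2) = (0:ℝ) := b.inner_eq_zero (by decide)
  have hb20 : inner ℝ (b 2) (b 0) = (0:ℝ) := b.inner_eq_zero (by decide)
  have hb21 : inner ℝ (b 2) (b 1) = (0:ℝ) := b.inner_eq_zero (by decide)
  have hb22 : inner ℝ (b 2) (b 2) = (1:ℝ) := by
    rw [hb2, real_inner_self_eq_norm_sq, hw]; norm_num
  have hwch : ∀ z : ℂ, inner ℝ w (chart b z) = (1:ℝ) := by
    intro z
    rw [← hb2]
    simp only [chart, inner_add_right, inner_smul_right, hb20, hb21, hb22]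
    ring
  have hnch : ∀ z : ℂ, ‖chart b z‖ ^ 2 = ‖z‖ ^ 2 + 1 := by
    intro z
    have hb10 : inner ℝ (b 1) (b 0) = (0:ℝ) := b.inner_eq_zero (by decide)
    have hb00' : inner ℝ (b 0) (b 0) = (1:ℝ) := by rw [real_inner_self_eq_norm_sq, hb00]; norm_num
    have hb11' : inner ℝ (b 1) (b 1) = (1:ℝ) := by rw [real_inner_self_eq_norm_sq, hb11]; norm_num
    rw [← real_inner_self_eq_norm_sq, Complex.sq_norm, Complex.normSq_apply]
    simp only [chart, inner_add_right, inner_add_left, inner_smul_right, inner_smul_left, hb20,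
      hb21, hb22, hb01, hb02, hb12, hb10, hb00', hb11', conj_trivial]
    ring
  have hkey : ∀ z : ℂ, 0 < ‖z‖ → ‖z‖ * R < 2 * ε →
      hs (g '' K) (chart b z) < hs K (chart b z) := by
    intro z hz hz2
    obtain ⟨x, hxm, hx⟩ := hgap z
    have hxK : x ∈ face K w := by
      simp only [mem_insert_iff, mem_singleton_iff] at hxm
      rcases hxm with h | h | h <;> rw [h] <;> assumption
    have h1 := hgu (chart b z)
    have h2 := inner_le_hs hK.comp hxK.1 (chart b z)
    have h3 : (inner ℝ x (chart b z) : ℝ) = inner ℝ q0 (chart b z) +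
        inner ℝ (x - q0) (z.re • b 0 + z.im • b 1) := by
      have e1 : x = q0 + (x - q0) := by abel
      have e2 : (inner ℝ x (chart b z) : ℝ) = inner ℝ q0 (chart b z) +
          inner ℝ (x - q0) (chart b z) := by
        rw [← inner_add_left, ← e1]
      rw [e2]
      congr 1
      have e3 : (inner ℝ (x - q0) (b 2) : ℝ) = 0 := by
        rw [hb2, inner_sub_left, hxK.2, hq0w, sub_self]
      unfold chart
      rw [inner_add_right, e3, add_zero]
    have h4 : (inner ℝ (q0 - R • w) (chart b z) : ℝ) = inner ℝ q0 (chart b z) - R := by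
      rw [inner_sub_left, real_inner_smul_left w, hwch, mul_one]
    have h5 : ‖chart b z‖ ≤ 1 + ‖z‖ ^ 2 / 2 := by
      apply abs_le_of_sq_le_sq' _ (by positivity) |>.2
      rw [hnch]
      nlinarith [sq_nonneg (‖z‖ ^ 2)]
    have h6 : R * ‖chart b z‖ ≤ R * (1 + ‖z‖ ^ 2 / 2) := mul_le_mul_of_nonneg_left h5 hR.le
    have h7 : R * (‖z‖ ^ 2 / 2) < ε * ‖z‖ := by nlinarith
    rw [h4] at h1
    rw [h3] at h2
    nlinarith
  have hrefl : (IsometryEquiv.refl E3 : E3 ≃ᵢ E3) '' K = K := Set.image_id K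
  have hρ : 0 < ε / R := div_pos hε hR
  have hfin := noCap g (IsometryEquiv.refl E3) b (ball 0 (ε / R)) isOpen_ball isBounded_ball (by
    intro z hz
    rw [frontier_ball _ hρ.ne', mem_sphere_zero_iff_norm] at hz
    rw [hrefl]
    apply hkey z (by rw [hz]; exact hρ)
    rw [hz, div_mul_cancel₀ _ hR.ne']
    linarith) 0 (mem_ball_self hρ)
  rw [hrefl] at hfin
  have hch0 : chart b 0 = w := by
    rw [← hb2]
    simp [chart]
  rw [hch0] at hfin
  have hge := inner_le_hs hgK (mem_image_of_mem g hp1) w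
  rw [hg1, hq0w] at hge
  exact absurd hfin (not_lt.2 hge)

end Pool.Agent.Helper968.SC.G5
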