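import Mathlib
import Pool.Agent.Helper968.SC.Base
set_option autoImplicit false
open Set Metric
namespace Pool.Agent.Helper968.SC.G6a

theorem chart_ray_8684 (b : OrthonormalBasis (Fin 3) ℝ E3) (α s σ : ℝ) :
    chart b (ray α s σ) = σ • wv b α + s • uv b α + b 2 ∧
      chart' b (ray α s σ) = σ • wv b α + s • uv b α - b 2 := by
  have hre : (ray α s σ).re = Real.cos α * σ - Real.sin α * s := by
    unfold ray
    rw [Complex.mul_re, Complex.exp_ofReal_mul_I_re, Complex.exp_ofReal_mul_I_im]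
    simp
  have him : (ray α s σ).im = Real.cos α * s + Real.sin α * σ := by
    unfold ray
    rw [Complex.mul_im, Complex.exp_ofReal_mul_I_re, Complex.exp_ofReal_mul_I_im]
    simp
  constructor
  · unfold chart wv uv
    rw [hre, him]
    module
  · unfold chart' wv uv
    rw [hre, him]
    module

theorem face_le_8684 {K : Set E3} (hK : IsCompact K) {x y v : E3} (hx : x ∈ face K v)
    (hy : y ∈ K) : 0 ≤ (inner ℝ (x - y) v : ℝ) := by
  rw [inner_sub_left, hx.2]
  have := inner_le_hs hK hy v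
  linarith

theorem ult_lim_8684 (l : Ultrafilter ℕ) {K : Set E3} (hK : IsCompact K) (x : ℕ → E3)
    (hx : ∀ n, x n ∈ K) : ∃ x0 ∈ K, Filter.Tendsto x (l : Filter ℕ) (nhds x0) := by
  obtain ⟨x0, hx0, h⟩ := isCompact_iff_ultrafilter_le_nhds.1 hK (l.map x) (by
    rw [Filter.le_principal_iff, Ultrafilter.coe_map, Filter.mem_map]
    exact Filter.Eventually.of_forall hx)
  exact ⟨x0, hx0, h⟩

theorem tri_8684 (l : Ultrafilter ℕ) (s : ℕ → ℝ) :
    (∃ s0, Filter.Tendsto s (l : Filter ℕ) (nhds s0)) ∨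
      Filter.Tendsto s (l : Filter ℕ) Filter.atTop ∨
      Filter.Tendsto s (l : Filter ℕ) Filter.atBot := by
  by_cases h : ∃ M, ∀ᶠ n in (l : Filter ℕ), |s n| ≤ M
  · obtain ⟨M, hM⟩ := h
    left
    obtain ⟨s0, _, hs0⟩ := isCompact_iff_ultrafilter_le_nhds.1 (isCompact_Icc (a := -M) (b := M))
      (l.map s) (by
        rw [Filter.le_principal_iff, Ultrafilter.coe_map, Filter.mem_map]
        filter_upwards [hM] with n hn
        exact abs_le.1 hn)
    exact ⟨s0, hs0⟩
  · right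
    push Not at h
    have h' : ∀ M, ∀ᶠ n in (l : Filter ℕ), ¬ |s n| ≤ M := fun M =>
      Ultrafilter.eventually_not.2 (by
        intro hc
        exact absurd hc (by
          have := h M
          simpa using this))
    by_cases h0 : ∀ᶠ n in (l : Filter ℕ), 0 ≤ s n
    · left
      rw [Filter.tendsto_atTop]
      intro M
      filter_upwards [h' M, h0] with n h1 h2
      rw [abs_of_nonneg h2] at h1
      linarith
    · right
      have h0' : ∀ᶠ n in (l : Filter ℕ), ¬ 0 ≤ s n := Ultrafilter.eventually_not.2 h0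
      rw [Filter.tendsto_atBot]
      intro M
      filter_upwards [h' (-M), h0'] with n h1 h2
      rw [abs_of_neg (by linarith)] at h1
      linarith

theorem lim_ge_8684 (l : Ultrafilter ℕ) {x v : ℕ → E3} {x0 y a : E3} {c : ℕ → ℝ}
    (hx : Filter.Tendsto x (l : Filter ℕ) (nhds x0))
    (hc : ∀ᶠ n in (l : Filter ℕ), 0 < c n)
    (hv : Filter.Tendsto (fun n => c n • v n) (l : Filter ℕ) (nhds a))
    (h : ∀ n, 0 ≤ (inner ℝ (x n - y) (v n) : ℝ)) : 0 ≤ (inner ℝ (x0 - y) a : ℝ) := by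
  have h1 : Filter.Tendsto (fun n => (inner ℝ (x n - y) (c n • v n) : ℝ)) (l : Filter ℕ)
      (nhds (inner ℝ (x0 - y) a)) := (hx.sub_const y).inner hv
  apply ge_of_tendsto h1
  filter_upwards [hc] with n hn
  rw [inner_smul_right]
  exact mul_nonneg hn.le (h n)

theorem mem_face_8684 {K : Set E3} (hK : IsCompact K) (hne : K.Nonempty) {x0 w : E3}
    (hx0 : x0 ∈ K) (h : ∀ y ∈ K, 0 ≤ (inner ℝ (x0 - y) w : ℝ)) : x0 ∈ face K w := by
  refine ⟨hx0, le_antisymm (inner_le_hs hK hx0 w) (hs_le hne fun y hy => ?_)⟩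
  have := h y hy
  rw [inner_sub_left] at this
  linarith

theorem diff_bd_8684 {K : Set E3} (hK : IsCompact K) {x x' z e : E3}
    (hx : x ∈ face K (z + e)) (hx' : x' ∈ face K (z - e)) :
    2 * (inner ℝ x' e : ℝ) ≤ hs K (z + e) - hs K (z - e) ∧
      hs K (z + e) - hs K (z - e) ≤ 2 * (inner ℝ x e : ℝ) := by
  have h1 := inner_le_hs hK hx.1 (z - e)
  have h2 := inner_le_hs hK hx'.1 (z + e)
  have h3 := hx.2
  have h4 := hx'.2
  rw [inner_sub_right] at h1 h4
  rw [inner_add_right] at h2 h3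
  constructor <;> linarith

theorem tend_dir_8684 (l : Ultrafilter ℕ) {σ t : ℕ → ℝ} (w u e : E3)
    (hσ : Filter.Tendsto σ (l : Filter ℕ) Filter.atTop)
    (ht : Filter.Tendsto (fun n => t n / σ n) (l : Filter ℕ) (nhds 0)) :
    Filter.Tendsto (fun n => (σ n)⁻¹ • (σ n • w + t n • u + e)) (l : Filter ℕ) (nhds w) := by
  have h1 : Filter.Tendsto (fun n => w + (t n / σ n) • u + (σ n)⁻¹ • e) (l : Filter ℕ)
      (nhds (w + (0 : ℝ) • u + (0 : ℝ) • e)) :=
    (tendsto_const_nhds.add (ht.smul_const u)).add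
      ((tendsto_inv_atTop_zero.comp hσ).smul_const e)
  rw [zero_smul, zero_smul, add_zero, add_zero] at h1
  refine h1.congr' ?_
  filter_upwards [hσ.eventually_gt_atTop 0] with n hn
  rw [smul_add, smul_add, smul_smul, smul_smul, inv_mul_cancel₀ hn.ne', one_smul,
    div_eq_inv_mul]

theorem tend_dir2_8684 (l : Ultrafilter ℕ) {t : ℕ → ℝ} (u e : E3)
    (ht : Filter.Tendsto t (l : Filter ℕ) Filter.atTop) :
    Filter.Tendsto (fun n => (t n)⁻¹ • (t n • u + e)) (l : Filter ℕ) (nhds u) := by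
  have h1 : Filter.Tendsto (fun n => u + (t n)⁻¹ • e) (l : Filter ℕ)
      (nhds (u + (0 : ℝ) • e)) :=
    tendsto_const_nhds.add ((tendsto_inv_atTop_zero.comp ht).smul_const e)
  rw [zero_smul, add_zero] at h1
  refine h1.congr' ?_
  filter_upwards [ht.eventually_gt_atTop 0] with n hn
  rw [smul_add, smul_smul, inv_mul_cancel₀ hn.ne', one_smul]

/-- limit points of the support points lie in the face -/
theorem lim_face_8684 (l : Ultrafilter ℕ) {K : Set E3} (hK : IsCompact K) (hne : K.Nonempty)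
    {σ t : ℕ → ℝ} (w u e : E3) (hσ : Filter.Tendsto σ (l : Filter ℕ) Filter.atTop)
    (ht : Filter.Tendsto (fun n => t n / σ n) (l : Filter ℕ) (nhds 0)) {x : ℕ → E3} {x0 : E3}
    (hx : ∀ n, x n ∈ face K (σ n • w + t n • u + e))
    (hl : Filter.Tendsto x (l : Filter ℕ) (nhds x0)) (hx0 : x0 ∈ K) : x0 ∈ face K w := by
  apply mem_face_8684 hK hne hx0
  intro y hy
  exact lim_ge_8684 l hl (by
    filter_upwards [hσ.eventually_gt_atTop 0] with n hn
    exact inv_pos.2 hn) (tend_dir_8684 l w u e hσ ht) (fun n => face_le_8684 hK (hx n) hy)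

/-- comparison with the points of the face -/
theorem cmp_8684 {K : Set E3} (hK : IsCompact K) {σ : ℝ} (hσ : 0 ≤ σ) {w z x y : E3}
    (hx : x ∈ face K (σ • w + z)) (hy : y ∈ face K w) : 0 ≤ (inner ℝ (x - y) z : ℝ) := by
  have h1 := face_le_8684 hK hx hy.1
  rw [inner_add_right, inner_smul_right] at h1
  have h2 := inner_le_hs hK hx.1 w
  rw [← hy.2] at h2
  have h3 : (inner ℝ (x - y) w : ℝ) ≤ 0 := by
    rw [inner_sub_left]; linarith
  nlinarith

theorem inf_case_8684 (l : Ultrafilter ℕ) {K : Set E3} (hK : IsCompact K) (hne : K.Nonempty)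
    {σ t : ℕ → ℝ} (w u e : E3) (hσ0 : ∀ n, 0 ≤ σ n)
    (hσ : Filter.Tendsto σ (l : Filter ℕ) Filter.atTop)
    (ht : Filter.Tendsto (fun n => t n / σ n) (l : Filter ℕ) (nhds 0))
    (ht' : Filter.Tendsto t (l : Filter ℕ) Filter.atTop)
    (uniq : ∀ x ∈ face K w, ∀ y ∈ face K w, (inner ℝ (x - y) u : ℝ) = 0 → x = y) :
    ∃ c : ℝ, Filter.Tendsto (fun n => hs K (σ n • w + t n • u + e) -
        hs K (σ n • w + t n • u - e)) (l : Filter ℕ) (nhds c) ∧
      Filter.Tendsto (fun n => hs (face K w) (t n • u + e) -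
        hs (face K w) (t n • u - e)) (l : Filter ℕ) (nhds c) := by
  have hF := isCompact_face hK w
  have hFne := exists_face hK hne w
  choose xp hxp using fun n => exists_face hK hne (σ n • w + t n • u + e)
  choose xm hxm using fun n => exists_face hK hne (σ n • w + t n • u - e)
  choose yp hyp using fun n => exists_face hF hFne (t n • u + e)
  choose ym hym using fun n => exists_face hF hFne (t n • u - e)
  obtain ⟨x1, hx1, lx1⟩ := ult_lim_8684 l hK xp fun n => (hxp n).1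
  obtain ⟨x2, hx2, lx2⟩ := ult_lim_8684 l hK xm fun n => (hxm n).1
  obtain ⟨y1, hy1, ly1⟩ := ult_lim_8684 l hF yp fun n => (hyp n).1
  obtain ⟨y2, hy2, ly2⟩ := ult_lim_8684 l hF ym fun n => (hym n).1
  have hx1F : x1 ∈ face K w := lim_face_8684 l hK hne w u e hσ ht hxp lx1 hx1
  have hx2F : x2 ∈ face K w := lim_face_8684 l hK hne w u (-e) hσ ht
    (fun n => by rw [← sub_eq_add_neg]; exact hxm n) lx2 hx2
  have hpos : ∀ᶠ n in (l : Filter ℕ), 0 < (t n)⁻¹ := by
    filter_upwards [ht'.eventually_gt_atTop 0] with n hn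
    exact inv_pos.2 hn
  have mx1 : ∀ y ∈ face K w, 0 ≤ (inner ℝ (x1 - y) u : ℝ) := fun y hy =>
    lim_ge_8684 l lx1 hpos (tend_dir2_8684 l u e ht') (fun n => cmp_8684 hK (hσ0 n) (w := w)
      (by rw [← add_assoc]; exact hxp n) hy)
  have mx2 : ∀ y ∈ face K w, 0 ≤ (inner ℝ (x2 - y) u : ℝ) := fun y hy =>
    lim_ge_8684 l lx2 hpos (tend_dir2_8684 l u (-e) ht') (fun n => cmp_8684 hK (hσ0 n) (w := w)
      (by rw [← add_assoc, ← sub_eq_add_neg]; exact hxm n) hy)
  have my1 : ∀ y ∈ face K w, 0 ≤ (inner ℝ (y1 - y) u : ℝ) := fun y hy =>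
    lim_ge_8684 l ly1 hpos (tend_dir2_8684 l u e ht') (fun n => face_le_8684 hF (hyp n) hy)
  have my2 : ∀ y ∈ face K w, 0 ≤ (inner ℝ (y2 - y) u : ℝ) := fun y hy =>
    lim_ge_8684 l ly2 hpos (tend_dir2_8684 l u (-e) ht') (fun n => by
      rw [← sub_eq_add_neg]; exact face_le_8684 hF (hym n) hy)
  have key : ∀ x ∈ face K w, (∀ y ∈ face K w, 0 ≤ (inner ℝ (x - y) u : ℝ)) → x = x1 := by
    intro x hx hmx
    apply uniq x hx x1 hx1F
    have h1 := hmx x1 hx1F
    have h2 := mx1 x hx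
    rw [inner_sub_left] at h1 h2 ⊢
    linarith
  have e2 := key x2 hx2F mx2
  have e3 := key y1 hy1 my1
  have e4 := key y2 hy2 my2
  rw [e2] at lx2
  rw [e3] at ly1
  rw [e4] at ly2
  refine ⟨2 * inner ℝ x1 e, ?_, ?_⟩
  · exact tendsto_of_tendsto_of_tendsto_of_le_of_le
      ((lx2.inner tendsto_const_nhds).const_mul 2) ((lx1.inner tendsto_const_nhds).const_mul 2)
      (fun n => (diff_bd_8684 hK (hxp n) (hxm n)).1) (fun n => (diff_bd_8684 hK (hxp n) (hxm n)).2)
  · exact tendsto_of_tendsto_of_tendsto_of_le_of_le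
      ((ly2.inner tendsto_const_nhds).const_mul 2) ((ly1.inner tendsto_const_nhds).const_mul 2)
      (fun n => (diff_bd_8684 hF (hyp n) (hym n)).1) (fun n => (diff_bd_8684 hF (hyp n) (hym n)).2)

theorem fin_half_8684 (l : Ultrafilter ℕ) {K : Set E3} (hK : IsCompact K) (hne : K.Nonempty)
    {σ t : ℕ → ℝ} {s0 : ℝ} (w u e : E3) (hσ0 : ∀ n, 0 ≤ σ n)
    (hσ : Filter.Tendsto σ (l : Filter ℕ) Filter.atTop)
    (ht : Filter.Tendsto (fun n => t n / σ n) (l : Filter ℕ) (nhds 0))
    (ht' : Filter.Tendsto t (l : Filter ℕ) (nhds s0)) :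
    Filter.Tendsto (fun n => hs K (σ n • w + t n • u + e) - σ n * hs K w) (l : Filter ℕ)
      (nhds (hs (face K w) (s0 • u + e))) := by
  have hF := isCompact_face hK w
  have hFne := exists_face hK hne w
  choose xp hxp using fun n => exists_face hK hne (σ n • w + t n • u + e)
  obtain ⟨x1, hx1, lx1⟩ := ult_lim_8684 l hK xp fun n => (hxp n).1
  have hx1F : x1 ∈ face K w := lim_face_8684 l hK hne w u e hσ ht hxp lx1 hx1
  have hdir : Filter.Tendsto (fun n => t n • u + e) (l : Filter ℕ) (nhds (s0 • u + e)) :=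
    (ht'.smul_const u).add_const e
  have hlow : Filter.Tendsto (fun n => hs (face K w) (t n • u + e)) (l : Filter ℕ)
      (nhds (hs (face K w) (s0 • u + e))) :=
    ((hs_continuous hF hFne).tendsto _).comp hdir
  have hup : Filter.Tendsto (fun n => (inner ℝ (xp n) (t n • u + e) : ℝ)) (l : Filter ℕ)
      (nhds (inner ℝ x1 (s0 • u + e))) := lx1.inner hdir
  have hle1 : ∀ n, hs (face K w) (t n • u + e) ≤
      hs K (σ n • w + t n • u + e) - σ n * hs K w := by
    intro n
    apply hs_le hFne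
    intro y hy
    have h1 := inner_le_hs hK hy.1 (σ n • w + t n • u + e)
    rw [add_assoc, inner_add_right, inner_smul_right, hy.2] at h1
    rw [add_assoc]
    linarith
  have hle2 : ∀ n, hs K (σ n • w + t n • u + e) - σ n * hs K w ≤
      (inner ℝ (xp n) (t n • u + e) : ℝ) := by
    intro n
    have h1 := (hxp n).2
    rw [add_assoc, inner_add_right, inner_smul_right] at h1
    have h2 := mul_le_mul_of_nonneg_left (inner_le_hs hK (hxp n).1 w) (hσ0 n)
    rw [add_assoc]
    linarith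
  have heq : (inner ℝ x1 (s0 • u + e) : ℝ) = hs (face K w) (s0 • u + e) := by
    apply le_antisymm (inner_le_hs hF hx1F _)
    exact le_of_tendsto_of_tendsto' hlow hup fun n => (hle1 n).trans (hle2 n)
  rw [heq] at hup
  exact tendsto_of_tendsto_of_tendsto_of_le_of_le hlow hup hle1 hle2

theorem orth_8684 (b : OrthonormalBasis (Fin 3) ℝ E3) (α : ℝ) (v : E3)
    (h1 : (inner ℝ v (wv b α) : ℝ) = 0) (h2 : (inner ℝ v (uv b α) : ℝ) = 0) :
    v = (inner ℝ (b 2) v : ℝ) • b 2 := by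
  unfold wv at h1
  unfold uv at h2
  rw [inner_add_right, inner_smul_right, inner_smul_right] at h1 h2
  have hcs := Real.sin_sq_add_cos_sq α
  have e0 : (inner ℝ v (b 0) : ℝ) = 0 := by
    linear_combination Real.cos α * h1 - Real.sin α * h2 - (inner ℝ v (b 0) : ℝ) * hcs
  have e1 : (inner ℝ v (b 1) : ℝ) = 0 := by
    linear_combination Real.sin α * h1 + Real.cos α * h2 - (inner ℝ v (b 1) : ℝ) * hcs
  have h := b.sum_repr' v
  rw [Fin.sum_univ_three, real_inner_comm v (b 0), real_inner_comm v (b 1), e0, e1,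
    zero_smul, zero_smul, zero_add, zero_add] at h
  exact h.symm

theorem wv_ne_8684 (b : OrthonormalBasis (Fin 3) ℝ E3) (α : ℝ) : wv b α ≠ 0 := by
  intro h
  have h0 : (inner ℝ (wv b α) (b 0) : ℝ) = Real.cos α := by
    unfold wv
    rw [inner_add_left, inner_smul_left, inner_smul_left]
    have h1 := b.inner_eq_ite 0 0
    have h2 := b.inner_eq_ite 1 0
    simp at h1 h2
    simp [h2]
  have h1 : (inner ℝ (wv b α) (b 1) : ℝ) = Real.sin α := by
    unfold wv
    rw [inner_add_left, inner_smul_left, inner_smul_left]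
    have h1 := b.inner_eq_ite 1 1
    have h2 := b.inner_eq_ite 0 1
    simp at h1 h2
    simp [h2]
  rw [h, inner_zero_left] at h0 h1
  have hcs := Real.sin_sq_add_cos_sq α
  rw [← h0, ← h1] at hcs
  norm_num at hcs

/-- asymptotics of `fF` -/
theorem asymp {K : Set E3} (hK : Body K) (hseg : SegFaces K)
    (b : OrthonormalBasis (Fin 3) ℝ E3) (hg : Good K (b 2)) (α : ℝ) :
    ∀ δ > 0, ∃ T > 0, ∃ ε > 0, ∀ σ : ℝ, T ≤ σ → ∀ s : ℝ, |s| ≤ ε * σ →
      |fF K b (ray α s σ) - FF K b α s| < δ := by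
  intro δ hδ
  by_contra hcon
  push Not at hcon
  have hseq : ∀ n : ℕ, ∃ σ : ℝ, (n : ℝ) + 1 ≤ σ ∧ ∃ s : ℝ, |s| ≤ 1 / ((n : ℝ) + 1) * σ ∧
      δ ≤ |fF K b (ray α s σ) - FF K b α s| := by
    intro n
    obtain ⟨σ, h1, s, h2, h3⟩ := hcon ((n : ℝ) + 1) (by positivity) (1 / ((n : ℝ) + 1))
      (by positivity)
    exact ⟨σ, h1, s, h2, h3⟩
  choose σ hσ1 s hs1 hs2 using hseq
  have hKc := hK.comp
  have hKn := hK.ne
  obtain ⟨l, hl⟩ : ∃ l : Ultrafilter ℕ, (l : Filter ℕ) ≤ Filter.atTop :=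
    ⟨Filter.hyperfilter ℕ, Nat.hyperfilter_le_atTop⟩
  have hσpos : ∀ n, 0 < σ n := fun n => lt_of_lt_of_le (by positivity) (hσ1 n)
  have hσ0 : ∀ n, 0 ≤ σ n := fun n => (hσpos n).le
  have hσt : Filter.Tendsto σ (l : Filter ℕ) Filter.atTop := by
    refine Filter.Tendsto.mono_left ?_ hl
    refine Filter.tendsto_atTop_mono hσ1 ?_
    exact Filter.tendsto_atTop_add_const_right _ 1 tendsto_natCast_atTop_atTop
  have hst : Filter.Tendsto (fun n => s n / σ n) (l : Filter ℕ) (nhds 0) := by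
    refine Filter.Tendsto.mono_left ?_ hl
    refine squeeze_zero_norm (a := fun n : ℕ => 1 / ((n : ℝ) + 1)) (fun n => ?_)
      tendsto_one_div_add_atTop_nhds_zero_nat
    rw [Real.norm_eq_abs, abs_div, abs_of_pos (hσpos n), div_le_iff₀ (hσpos n)]
    exact hs1 n
  have hfF : ∀ n, fF K b (ray α (s n) (σ n)) =
      hs K (σ n • wv b α + s n • uv b α + b 2) - hs K (σ n • wv b α + s n • uv b α - b 2) := by
    intro n
    unfold fF
    rw [(chart_ray_8684 b α (s n) (σ n)).1, (chart_ray_8684 b α (s n) (σ n)).2]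
  have huniq : ∀ x ∈ face K (wv b α), ∀ y ∈ face K (wv b α),
      (inner ℝ (x - y) (uv b α) : ℝ) = 0 → x = y := by
    intro x hx y hy hxy
    have h1 : (inner ℝ (x - y) (wv b α) : ℝ) = 0 := by
      rw [inner_sub_left, hx.2, hy.2, sub_self]
    have h2 := orth_8684 b α (x - y) h1 hxy
    exact (hg (wv b α) (wv_ne_8684 b α) y hy x hx _ h2).symm
  -- reduction
  have hfinal : ¬ ∃ c : ℝ, Filter.Tendsto (fun n => fF K b (ray α (s n) (σ n))) (l : Filter ℕ)
      (nhds c) ∧ Filter.Tendsto (fun n => FF K b α (s n)) (l : Filter ℕ) (nhds c) := by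
    rintro ⟨c, h1, h2⟩
    have h3 := (h1.sub h2).abs
    rw [sub_self, abs_zero] at h3
    obtain ⟨n, hn⟩ := (h3.eventually (gt_mem_nhds hδ)).exists
    exact absurd (hs2 n) (not_le.2 hn)
  apply hfinal
  rcases tri_8684 l s with ⟨s0, hs0⟩ | hinf | hinf
  · have hp := fin_half_8684 l hKc hKn (wv b α) (uv b α) (b 2) hσ0 hσt hst hs0
    have hm := fin_half_8684 l hKc hKn (wv b α) (uv b α) (-(b 2)) hσ0 hσt hst hs0
    refine ⟨FF K b α s0, ?_, ?_⟩
    · have h1 := hp.sub hm
      refine (h1.congr fun n => ?_)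
      rw [hfF, ← sub_eq_add_neg]
      ring
    · have hF := isCompact_face hKc (wv b α)
      have hFne := exists_face hKc hKn (wv b α)
      have hc := hs_continuous hF hFne
      have hcont : Continuous fun t : ℝ => FF K b α t := by
        unfold FF
        fun_prop
      exact (hcont.tendsto s0).comp hs0
  · obtain ⟨c, h1, h2⟩ := inf_case_8684 l hKc hKn (wv b α) (uv b α) (b 2) hσ0 hσt hst hinf huniq
    refine ⟨c, ?_, h2⟩
    exact h1.congr fun n => (hfF n).symm
  · have hinf' : Filter.Tendsto (fun n => -s n) (l : Filter ℕ) Filter.atTop :=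
      Filter.tendsto_neg_atBot_atTop.comp hinf
    have hst' : Filter.Tendsto (fun n => -s n / σ n) (l : Filter ℕ) (nhds 0) := by
      have := hst.neg
      rw [neg_zero] at this
      refine this.congr fun n => ?_
      ring
    obtain ⟨c, h1, h2⟩ := inf_case_8684 l hKc hKn (wv b α) (-(uv b α)) (b 2) hσ0 hσt hst' hinf'
      (fun x hx y hy hxy => huniq x hx y hy (by
        rw [inner_neg_right, neg_eq_zero] at hxy
        exact hxy))
    refine ⟨c, ?_, ?_⟩
    · refine h1.congr fun n => ?_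
      rw [hfF, smul_neg, neg_smul, neg_neg]
    · refine h2.congr fun n => ?_
      unfold FF
      rw [smul_neg, neg_smul, neg_neg]

end Pool.Agent.Helper968.SC.G6a
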