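import Mathlib
import Pool.Agent.Helper968.SC.Base
set_option autoImplicit false
open Set Metric
namespace Pool.Agent.Helper968.SC.G6b

theorem aux_hs_segment (p q y : E3) :
    hs (segment ℝ p q) y = max (inner ℝ p y : ℝ) (inner ℝ q y) := by
  have hne : (segment ℝ p q).Nonempty := ⟨p, left_mem_segment ℝ p q⟩
  have hc : IsCompact (segment ℝ p q) := by
    rw [segment_eq_image_lineMap]
    exact isCompact_Icc.image (AffineMap.lineMap_continuous)
  apply le_antisymm
  · apply hs_le hne
    rintro x ⟨a, b, ha, hb, hab, rfl⟩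
    rw [inner_add_left, real_inner_smul_left, real_inner_smul_left]
    have h1 := le_max_left (inner ℝ p y : ℝ) (inner ℝ q y)
    have h2 := le_max_right (inner ℝ p y : ℝ) (inner ℝ q y)
    have h3 := mul_le_mul_of_nonneg_left h1 ha
    have h4 := mul_le_mul_of_nonneg_left h2 hb
    have h5 : a * max (inner ℝ p y : ℝ) (inner ℝ q y) + b * max (inner ℝ p y : ℝ) (inner ℝ q y)
      = max (inner ℝ p y : ℝ) (inner ℝ q y) := by rw [← add_mul, hab, one_mul]
    linarith
  · exact max_le (inner_le_hs hc (left_mem_segment ℝ p q) y)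
      (inner_le_hs hc (right_mem_segment ℝ p q) y)

theorem aux_abs_mono {B : ℝ} (hB : 0 ≤ B) {x y : ℝ} (h : x ≤ y) :
    |x + B| - |x - B| ≤ |y + B| - |y - B| := by
  rcases abs_cases (x + B) with h1 | h1 <;> rcases abs_cases (x - B) with h2 | h2 <;>
  rcases abs_cases (y + B) with h3 | h3 <;> rcases abs_cases (y - B) with h4 | h4 <;>
  linarith

theorem aux_abs_anti {B : ℝ} (hB : B ≤ 0) {x y : ℝ} (h : x ≤ y) :
    |y + B| - |y - B| ≤ |x + B| - |x - B| := by
  have := aux_abs_mono (B := -B) (by linarith) h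
  have e1 : x + -B = x - B := by ring
  have e2 : x - -B = x + B := by ring
  have e3 : y + -B = y - B := by ring
  have e4 : y - -B = y + B := by ring
  rw [e1, e2, e3, e4] at this
  linarith

theorem aux_max (x y : ℝ) : max x y = (x + y + |y - x|) / 2 := by
  rcases le_total x y with h | h
  · rw [max_eq_right h, abs_of_nonneg (by linarith)]; ring
  · rw [max_eq_left h, abs_of_nonpos (by linarith)]; ring

theorem aux_FF {K : Set E3} (b : OrthonormalBasis (Fin 3) ℝ E3) (α : ℝ) {p q : E3}
    (h : face K (wv b α) = segment ℝ p q) (s : ℝ) :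
    FF K b α s = (inner ℝ p (b 2) + inner ℝ q (b 2) : ℝ) +
      (|s * (inner ℝ q (uv b α) - inner ℝ p (uv b α)) + (inner ℝ q (b 2) - inner ℝ p (b 2))| -
       |s * (inner ℝ q (uv b α) - inner ℝ p (uv b α)) - (inner ℝ q (b 2) - inner ℝ p (b 2))|) / 2 := by
  unfold FF
  rw [h, aux_hs_segment, aux_hs_segment, aux_max, aux_max]
  simp only [inner_add_right, inner_sub_right, real_inner_smul_right]
  have e1 : s * (inner ℝ q (uv b α) : ℝ) + inner ℝ q (b 2) - (s * inner ℝ p (uv b α) + inner ℝ p (b 2))
    = s * (inner ℝ q (uv b α) - inner ℝ p (uv b α)) + (inner ℝ q (b 2) - inner ℝ p (b 2)) := by ring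
  have e2 : s * (inner ℝ q (uv b α) : ℝ) - inner ℝ q (b 2) - (s * inner ℝ p (uv b α) - inner ℝ p (b 2))
    = s * (inner ℝ q (uv b α) - inner ℝ p (uv b α)) - (inner ℝ q (b 2) - inner ℝ p (b 2)) := by ring
  rw [e1, e2]
  ring

theorem aux_wv_ne (b : OrthonormalBasis (Fin 3) ℝ E3) (α : ℝ) : wv b α ≠ 0 := by
  intro h
  have h0 : (inner ℝ (b 0) (wv b α) : ℝ) = Real.cos α := by
    unfold wv
    rw [inner_add_right, real_inner_smul_right, real_inner_smul_right,
      orthonormal_iff_ite.1 b.orthonormal 0 0, orthonormal_iff_ite.1 b.orthonormal 0 1]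
    simp
  have h1 : (inner ℝ (b 1) (wv b α) : ℝ) = Real.sin α := by
    unfold wv
    rw [inner_add_right, real_inner_smul_right, real_inner_smul_right,
      orthonormal_iff_ite.1 b.orthonormal 1 0, orthonormal_iff_ite.1 b.orthonormal 1 1]
    simp
  rw [h, inner_zero_right] at h0 h1
  have := Real.sin_sq_add_cos_sq α
  rw [← h0, ← h1] at this
  norm_num at this

/-- each profile is monotone or antitone -/
theorem FF_mono {K : Set E3} (hK : Body K) (hseg : SegFaces K)
    (b : OrthonormalBasis (Fin 3) ℝ E3) (α : ℝ) :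
    Monotone (FF K b α) ∨ Antitone (FF K b α) := by
  obtain ⟨p, q, hpq⟩ := hseg (wv b α) (aux_wv_ne b α)
  set A : ℝ := inner ℝ q (uv b α) - inner ℝ p (uv b α) with hA
  set B : ℝ := inner ℝ q (b 2) - inner ℝ p (b 2) with hB
  have key : ∀ s, FF K b α s = (inner ℝ p (b 2) + inner ℝ q (b 2) : ℝ) +
      (|s * A + B| - |s * A - B|) / 2 := fun s => aux_FF b α hpq s
  rcases le_total 0 A with hA0 | hA0 <;> rcases le_total 0 B with hB0 | hB0
  · left
    intro x y hxy
    rw [key, key]
    have := aux_abs_mono hB0 (mul_le_mul_of_nonneg_right hxy hA0)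
    linarith
  · right
    intro x y hxy
    rw [key, key]
    have := aux_abs_anti hB0 (mul_le_mul_of_nonneg_right hxy hA0)
    linarith
  · right
    intro x y hxy
    rw [key, key]
    have := aux_abs_mono hB0 (mul_le_mul_of_nonpos_right hxy hA0)
    linarith
  · left
    intro x y hxy
    rw [key, key]
    have := aux_abs_anti hB0 (mul_le_mul_of_nonpos_right hxy hA0)
    linarith

/-- a constant profile gives constant heights on the face -/
theorem FF_const {K : Set E3} (hK : Body K) (hseg : SegFaces K)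
    (b : OrthonormalBasis (Fin 3) ℝ E3) (hg : Good K (b 2)) (α c : ℝ)
    (h : ∀ s, FF K b α s = c) : ∀ x ∈ face K (wv b α), inner ℝ x (b 2) = c / 2 := by
  obtain ⟨p, q, hpq⟩ := hseg (wv b α) (aux_wv_ne b α)
  have key : ∀ s, FF K b α s = (inner ℝ p (b 2) + inner ℝ q (b 2) : ℝ) +
      (|s * (inner ℝ q (uv b α) - inner ℝ p (uv b α)) + (inner ℝ q (b 2) - inner ℝ p (b 2))| -
       |s * (inner ℝ q (uv b α) - inner ℝ p (uv b α)) - (inner ℝ q (b 2) - inner ℝ p (b 2))|) / 2 :=
    fun s => aux_FF b α hpq s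
  have hp : p ∈ face K (wv b α) := by rw [hpq]; exact left_mem_segment ℝ p q
  have hq : q ∈ face K (wv b α) := by rw [hpq]; exact right_mem_segment ℝ p q
  have hB : (inner ℝ p (b 2) : ℝ) = inner ℝ q (b 2) := by
    by_cases hA : (inner ℝ q (uv b α) : ℝ) - inner ℝ p (uv b α) = 0
    · -- q - p is a multiple of b 2
      have hw : (inner ℝ (q - p) (wv b α) : ℝ) = 0 := by
        rw [inner_sub_left, hp.2, hq.2, sub_self]
      have hu : (inner ℝ (q - p) (uv b α) : ℝ) = 0 := by
        rw [inner_sub_left, hA]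
      set x : ℝ := inner ℝ (b 0) (q - p) with hx
      set y : ℝ := inner ℝ (b 1) (q - p) with hy
      have hw' : Real.cos α * x + Real.sin α * y = 0 := by
        rw [← hw, wv, inner_add_right, real_inner_smul_right, real_inner_smul_right, hx, hy,
          real_inner_comm, real_inner_comm (b 1)]
      have hu' : -Real.sin α * x + Real.cos α * y = 0 := by
        rw [← hu, uv, inner_add_right, real_inner_smul_right, real_inner_smul_right, hx, hy,
          real_inner_comm, real_inner_comm (b 1)]
      have hcs := Real.sin_sq_add_cos_sq α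
      have hx0 : x = 0 := by
        have : (Real.sin α ^ 2 + Real.cos α ^ 2) * x = 0 := by
          linear_combination Real.cos α * hw' - Real.sin α * hu'
        rwa [hcs, one_mul] at this
      have hy0 : y = 0 := by
        have : (Real.sin α ^ 2 + Real.cos α ^ 2) * y = 0 := by
          linear_combination Real.sin α * hw' + Real.cos α * hu'
        rwa [hcs, one_mul] at this
      have hdec : q - p = (inner ℝ (b 2) (q - p) : ℝ) • b 2 := by
        have := b.sum_repr' (q - p)
        rw [Fin.sum_univ_three, ← hx, ← hy, hx0, hy0, zero_smul, zero_smul, zero_add, zero_add] at this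
        exact this.symm
      have := hg (wv b α) (aux_wv_ne b α) p hp q hq _ hdec
      rw [this]
    · have h1 := h (|(inner ℝ q (b 2) : ℝ) - inner ℝ p (b 2)| / ((inner ℝ q (uv b α) : ℝ) - inner ℝ p (uv b α)))
      have h2 := h (-|(inner ℝ q (b 2) : ℝ) - inner ℝ p (b 2)| / ((inner ℝ q (uv b α) : ℝ) - inner ℝ p (uv b α)))
      rw [key, div_mul_cancel₀ _ hA] at h1 h2
      have hBB : (inner ℝ q (b 2) : ℝ) - inner ℝ p (b 2) = 0 := by
        generalize (inner ℝ q (b 2) : ℝ) - inner ℝ p (b 2) = B at h1 h2 ⊢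
        rcases abs_cases B with h3 | h3
        · rw [h3.1] at h1 h2
          rw [abs_of_nonneg (by linarith [h3.2] : 0 ≤ B + B), sub_self, abs_zero] at h1
          rw [neg_add_cancel, abs_zero, abs_of_nonpos (by linarith [h3.2] : -B - B ≤ 0)] at h2
          linarith
        · rw [h3.1] at h1 h2
          rw [neg_add_cancel, abs_zero, abs_of_nonneg (by linarith [h3.2] : 0 ≤ -B - B)] at h1
          rw [neg_neg, sub_self, abs_zero, abs_of_nonpos (by linarith [h3.2] : B + B ≤ 0)] at h2
          linarith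
      linarith
  have hc : (inner ℝ p (b 2) : ℝ) = c / 2 := by
    have h0 := h 0
    rw [key, ← hB] at h0
    simp at h0
    linarith
  intro x hx
  rw [hpq] at hx
  obtain ⟨a, b', ha, hb, hab, rfl⟩ := hx
  rw [inner_add_left, real_inner_smul_left, real_inner_smul_left, ← hB, ← add_mul, hab, one_mul, hc]

theorem FF_periodic {K : Set E3} (b : OrthonormalBasis (Fin 3) ℝ E3) (α s : ℝ) :
    FF K b (α + 2 * Real.pi) s = FF K b α s := by
  unfold FF wv uv
  rw [Real.cos_add_two_pi, Real.sin_add_two_pi]

end Pool.Agent.Helper968.SC.G6b
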