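import Mathlib
import Pool.Agent.Helper968.SC.Base
set_option autoImplicit false
open Set Metric
namespace Pool.Agent.Helper968.SC.G7

private theorem inner_wv (b : OrthonormalBasis (Fin 3) ℝ E3) (α γ : ℝ) :
    (inner ℝ (wv b α) (wv b γ) : ℝ) = Real.cos (α - γ) := by
  have h00 : (inner ℝ (b 0) (b 0) : ℝ) = 1 := by
    rw [b.inner_eq_ite]; simp
  have h11 : (inner ℝ (b 1) (b 1) : ℝ) = 1 := by
    rw [b.inner_eq_ite]; simp
  have h01 : (inner ℝ (b 0) (b 1) : ℝ) = 0 := by
    rw [b.inner_eq_ite]; simp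
  have h10 : (inner ℝ (b 1) (b 0) : ℝ) = 0 := by
    rw [b.inner_eq_ite]; simp
  simp only [wv, inner_add_left, inner_add_right, inner_smul_left, inner_smul_right, h00, h11, h01,
    h10, conj_trivial]
  rw [Real.cos_sub]
  ring

private theorem inner_wv_two (b : OrthonormalBasis (Fin 3) ℝ E3) (α : ℝ) :
    (inner ℝ (wv b α) (b 2) : ℝ) = 0 := by
  have h02 : (inner ℝ (b 0) (b 2) : ℝ) = 0 := by
    rw [b.inner_eq_ite]; simp
  have h12 : (inner ℝ (b 1) (b 2) : ℝ) = 0 := by
    rw [b.inner_eq_ite]; simp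
  simp only [wv, inner_add_left, inner_smul_left, h02, h12, conj_trivial]
  ring

private theorem polar_aux (β x y : ℝ) :
    ∃ r : ℝ, 0 ≤ r ∧ ∃ α ∈ Ico β (β + 2 * Real.pi), x = r * Real.cos α ∧ y = r * Real.sin α := by
  have hp : (0 : ℝ) < 2 * Real.pi := Real.two_pi_pos
  refine ⟨‖(⟨x, y⟩ : ℂ)‖, norm_nonneg _, toIcoMod hp β (Complex.arg ⟨x, y⟩),
    toIcoMod_mem_Ico hp β _, ?_, ?_⟩
  · rw [toIcoMod, zsmul_eq_mul, Real.cos_sub_int_mul_two_pi, Complex.norm_mul_cos_arg]
  · rw [toIcoMod, zsmul_eq_mul, Real.sin_sub_int_mul_two_pi, Complex.norm_mul_sin_arg]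

private theorem decomp_aux (b : OrthonormalBasis (Fin 3) ℝ E3) (β : ℝ) (w : E3)
    (hw : (inner ℝ w (b 2) : ℝ) = 0) :
    ∃ r : ℝ, 0 ≤ r ∧ ∃ α ∈ Ico β (β + 2 * Real.pi), w = r • wv b α := by
  obtain ⟨r, hr, α, hα, h0, h1⟩ := polar_aux β (inner ℝ (b 0) w) (inner ℝ (b 1) w)
  refine ⟨r, hr, α, hα, ?_⟩
  have h := b.sum_repr' w
  rw [Fin.sum_univ_three] at h
  have h2 : (inner ℝ (b 2) w : ℝ) = 0 := by rw [real_inner_comm]; exact hw
  rw [← h, h0, h1, h2, zero_smul, add_zero, wv, smul_add, smul_smul, smul_smul]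

private theorem inner_chart (b : OrthonormalBasis (Fin 3) ℝ E3) (p q c : ℝ) (z : ℂ) :
    (inner ℝ (p • b 0 + q • b 1 + c • b 2) (chart b z) : ℝ) = p * z.re + q * z.im + c := by
  have h : ∀ i j : Fin 3, (inner ℝ (b i) (b j) : ℝ) = if i = j then 1 else 0 := fun i j =>
    b.inner_eq_ite i j
  simp only [chart, inner_add_left, inner_add_right, inner_smul_left, inner_smul_right, h,
    conj_trivial]
  simp
  ring

private theorem refl_chart (b : OrthonormalBasis (Fin 3) ℝ E3) (z : ℂ) :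
    ((ℝ ∙ b 2)ᗮ.reflection : E3 ≃ₗᵢ[ℝ] E3).symm (chart b z) = chart' b z := by
  have h : ∀ i j : Fin 3, (inner ℝ (b i) (b j) : ℝ) = if i = j then 1 else 0 := fun i j =>
    b.inner_eq_ite i j
  rw [Submodule.reflection_symm, chart, map_add, map_add, map_smul, map_smul]
  have h0 : (ℝ ∙ b 2)ᗮ.reflection (b 0) = b 0 := by
    apply Submodule.reflection_mem_subspace_eq_self
    rw [Submodule.mem_orthogonal_singleton_iff_inner_right, h]
    simp
  have h1 : (ℝ ∙ b 2)ᗮ.reflection (b 1) = b 1 := by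
    apply Submodule.reflection_mem_subspace_eq_self
    rw [Submodule.mem_orthogonal_singleton_iff_inner_right, h]
    simp
  have h2 : (ℝ ∙ b 2)ᗮ.reflection (b 2) = - b 2 :=
    Submodule.reflection_orthogonalComplement_singleton_eq_neg _
  rw [h0, h1, h2, chart', sub_eq_add_neg]

private theorem exists_basis (e : E3) (he : ‖e‖ = 1) :
    ∃ b : OrthonormalBasis (Fin 3) ℝ E3, b 2 = e := by
  have hv : Orthonormal ℝ (({2} : Set (Fin 3)).restrict (fun _ : Fin 3 => e)) := by
    constructor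
    · intro i; exact he
    · intro i j hij
      exact absurd (Subtype.ext (i.2.trans j.2.symm)) hij
  obtain ⟨b, hb⟩ := hv.exists_orthonormalBasis_extension_of_card_eq (by simp)
  exact ⟨b, hb 2 rfl⟩

/-- the step structure in a direction which is not parallel to any segment of a face -/
theorem St_good {K : Set E3} (hK : Body K) (hseg : SegFaces K)
    (noCap : ∀ (g1 g2 : E3 ≃ᵢ E3) (b : OrthonormalBasis (Fin 3) ℝ E3) (U : Set ℂ), IsOpen U →
      Bornology.IsBounded U →
      (∀ z ∈ frontier U, hs (g1 '' K) (chart b z) < hs (g2 '' K) (chart b z)) →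
      ∀ z ∈ U, hs (g1 '' K) (chart b z) < hs (g2 '' K) (chart b z))
    (asymp : ∀ b : OrthonormalBasis (Fin 3) ℝ E3, Good K (b 2) → ∀ α : ℝ,
      ∀ δ > 0, ∃ T > 0, ∃ ε > 0, ∀ σ : ℝ, T ≤ σ → ∀ s : ℝ, |s| ≤ ε * σ →
        |fF K b (ray α s σ) - FF K b α s| < δ)
    (FF_mono : ∀ (b : OrthonormalBasis (Fin 3) ℝ E3) (α : ℝ),
      Monotone (FF K b α) ∨ Antitone (FF K b α))
    (FF_const : ∀ b : OrthonormalBasis (Fin 3) ℝ E3, Good K (b 2) → ∀ α c : ℝ,
      (∀ s, FF K b α s = c) → ∀ x ∈ face K (wv b α), inner ℝ x (b 2) = c / 2)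
    (FF_periodic : ∀ (b : OrthonormalBasis (Fin 3) ℝ E3) (α s : ℝ),
      FF K b (α + 2 * Real.pi) s = FF K b α s)
    (twoD : ∀ (f : ℂ → ℝ), Continuous f → ∀ B : ℝ, (∀ z, |f z| ≤ B) →
      (∀ (U : Set ℂ) (a b c : ℝ), IsOpen U → Bornology.IsBounded U →
        (∀ z ∈ frontier U, f z ≤ a * z.re + b * z.im + c) →
        ∀ z ∈ U, f z ≤ a * z.re + b * z.im + c) →
      (∀ (U : Set ℂ) (a b c : ℝ), IsOpen U → Bornology.IsBounded U →
        (∀ z ∈ frontier U, a * z.re + b * z.im + c ≤ f z) →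
        ∀ z ∈ U, a * z.re + b * z.im + c ≤ f z) →
      ∀ F : ℝ → ℝ → ℝ,
      (∀ α : ℝ, ∀ δ > 0, ∃ T > 0, ∃ ε > 0, ∀ σ : ℝ, T ≤ σ → ∀ s : ℝ, |s| ≤ ε * σ →
        |f (ray α s σ) - F α s| < δ) →
      (∀ α, Monotone (F α) ∨ Antitone (F α)) →
      (∀ α s, F (α + 2 * Real.pi) s = F α s) →
      ∃ β m M : ℝ, (∀ α ∈ Ioo β (β + Real.pi), ∀ s, F α s = m) ∧
        (∀ α ∈ Ioo (β + Real.pi) (β + 2 * Real.pi), ∀ s, F α s = M))
    (e : E3) (he : ‖e‖ = 1) (hg : Good K e) : St K e := by
  obtain ⟨b, hb⟩ := exists_basis e he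
  subst hb
  have hne := hK.ne
  have hKc := hK.comp
  -- the moved body
  let ρ : E3 ≃ₗᵢ[ℝ] E3 := (ℝ ∙ b 2)ᗮ.reflection
  have hmov : ∀ p q c : ℝ, ∃ g : E3 ≃ᵢ E3, ∀ z : ℂ,
      hs (g '' K) (chart b z) = hs K (chart' b z) + (p * z.re + q * z.im + c) := by
    intro p q c
    refine ⟨ρ.toIsometryEquiv.trans (IsometryEquiv.addRight (p • b 0 + q • b 1 + c • b 2)), ?_⟩
    intro z
    have h1 := hs_image_linear hKc hne ρ (p • b 0 + q • b 1 + c • b 2) (chart b z)
    rw [inner_chart, refl_chart] at h1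
    exact h1
  have hid : ∀ z : ℂ, hs ((IsometryEquiv.refl E3) '' K) (chart b z) = hs K (chart b z) := by
    intro z
    have : ((IsometryEquiv.refl E3) '' K) = K := Set.image_id K
    rw [this]
  obtain ⟨C, hC0, -, hC⟩ := hs_lip hKc hne
  have hcont : Continuous (fF K b) := by
    have h1 : Continuous (chart b) := by
      unfold chart
      fun_prop
    have h2 : Continuous (chart' b) := by
      unfold chart'
      fun_prop
    have h3 := hs_continuous hKc hne
    exact (h3.comp h1).sub (h3.comp h2)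
  have hbound : ∀ z, |fF K b z| ≤ C * 2 := by
    intro z
    refine (hC _ _).trans ?_
    refine mul_le_mul_of_nonneg_left ?_ hC0
    have : chart b z - chart' b z = (2 : ℝ) • b 2 := by
      simp only [chart, chart']
      module
    rw [this, norm_smul, b.norm_eq_one]
    simp
  have NC1 : ∀ (U : Set ℂ) (a b' c : ℝ), IsOpen U → Bornology.IsBounded U →
        (∀ z ∈ frontier U, fF K b z ≤ a * z.re + b' * z.im + c) →
        ∀ z ∈ U, fF K b z ≤ a * z.re + b' * z.im + c := by
    intro U p q c hU hUb hfr z1 hz1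
    by_contra hcon
    push Not at hcon
    obtain ⟨d, hd⟩ : ∃ d : ℝ, d = fF K b z1 - (p * z1.re + q * z1.im + c) := ⟨_, rfl⟩
    have hd0 : 0 < d := by rw [hd]; linarith
    obtain ⟨g, hgg⟩ := hmov p q (c + d / 2)
    have h1 := noCap (IsometryEquiv.refl E3) g b U hU hUb (by
      intro z hz
      rw [hid, hgg]
      have := hfr z hz
      unfold fF at this
      linarith) z1 hz1
    rw [hid, hgg] at h1
    unfold fF at hd
    linarith
  have NC2 : ∀ (U : Set ℂ) (a b' c : ℝ), IsOpen U → Bornology.IsBounded U →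
        (∀ z ∈ frontier U, a * z.re + b' * z.im + c ≤ fF K b z) →
        ∀ z ∈ U, a * z.re + b' * z.im + c ≤ fF K b z := by
    intro U p q c hU hUb hfr z1 hz1
    by_contra hcon
    push Not at hcon
    obtain ⟨d, hd⟩ : ∃ d : ℝ, d = (p * z1.re + q * z1.im + c) - fF K b z1 := ⟨_, rfl⟩
    have hd0 : 0 < d := by rw [hd]; linarith
    obtain ⟨g, hgg⟩ := hmov p q (c - d / 2)
    have h1 := noCap g (IsometryEquiv.refl E3) b U hU hUb (by
      intro z hz
      rw [hid, hgg]
      have := hfr z hz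
      unfold fF at this
      linarith) z1 hz1
    rw [hid, hgg] at h1
    unfold fF at hd
    linarith
  obtain ⟨β, m, M, hm, hM⟩ := twoD (fF K b) hcont (C * 2) hbound NC1 NC2 (FF K b)
    (asymp b hg) (FF_mono b) (FF_periodic b)
  · have key : ∀ w : E3, ∀ r α : ℝ, 0 < r → w = r • wv b α → ∀ c : ℝ, (∀ s, FF K b α s = c) →
        ∃ x ∈ face K w, (inner ℝ x (b 2) : ℝ) = c / 2 := by
      intro w r α hr hw c hc
      obtain ⟨x, hx⟩ := exists_face hKc hne (wv b α)
      refine ⟨x, ?_, FF_const b hg α c hc x hx⟩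
      rw [hw, face_smul hKc hne hr]
      exact hx
    refine ⟨wv b (β + Real.pi / 2), ?_, inner_wv_two b _, m / 2, M / 2, ?_, ?_⟩
    · have h1 := inner_wv b (β + Real.pi / 2) (β + Real.pi / 2)
      rw [sub_self, Real.cos_zero, real_inner_self_eq_norm_sq] at h1
      have h2 : 0 ≤ ‖wv b (β + Real.pi / 2)‖ := norm_nonneg _
      nlinarith
    · intro w hw0 hw1
      obtain ⟨r, hr, α, hα, hw⟩ := decomp_aux b β w hw0
      have hin : (inner ℝ w (wv b (β + Real.pi / 2)) : ℝ) = r * Real.sin (α - β) := by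
        rw [hw, inner_smul_left, inner_wv, conj_trivial]
        congr 1
        rw [show α - (β + Real.pi / 2) = (α - β) - Real.pi / 2 by ring, Real.cos_sub_pi_div_two]
      rw [hin] at hw1
      have hr0 : 0 < r := by
        rcases hr.lt_or_eq with h | h
        · exact h
        · rw [← h, zero_mul] at hw1; exact absurd hw1 (lt_irrefl _)
      have hs0 : 0 < Real.sin (α - β) := by
        by_contra hcon
        push Not at hcon
        nlinarith
      refine key w r α hr0 hw m (hm α ⟨?_, ?_⟩)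
      · rcases hα.1.lt_or_eq with h | h
        · exact h
        · rw [← h, sub_self, Real.sin_zero] at hs0; exact absurd hs0 (lt_irrefl _)
      · by_contra hcon
        push Not at hcon
        have h1 : Real.sin (α - β) = - Real.sin (α - β - Real.pi) := by
          rw [Real.sin_sub_pi]; ring
        have h2 : 0 ≤ Real.sin (α - β - Real.pi) :=
          Real.sin_nonneg_of_nonneg_of_le_pi (by linarith) (by linarith [hα.2])
        linarith
    · intro w hw0 hw1
      obtain ⟨r, hr, α, hα, hw⟩ := decomp_aux b β w hw0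
      have hin : (inner ℝ w (wv b (β + Real.pi / 2)) : ℝ) = r * Real.sin (α - β) := by
        rw [hw, inner_smul_left, inner_wv, conj_trivial]
        congr 1
        rw [show α - (β + Real.pi / 2) = (α - β) - Real.pi / 2 by ring, Real.cos_sub_pi_div_two]
      rw [hin] at hw1
      have hr0 : 0 < r := by
        rcases hr.lt_or_eq with h | h
        · exact h
        · rw [← h, zero_mul] at hw1; exact absurd hw1 (lt_irrefl _)
      have hs0 : Real.sin (α - β) < 0 := by
        by_contra hcon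
        push Not at hcon
        have := mul_nonneg hr hcon
        linarith
      refine key w r α hr0 hw M (hM α ⟨?_, hα.2⟩)
      by_contra hcon
      push Not at hcon
      have h2 : 0 ≤ Real.sin (α - β) :=
        Real.sin_nonneg_of_nonneg_of_le_pi (by linarith [hα.1]) (by linarith)
      linarith

end Pool.Agent.Helper968.SC.G7
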