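import Mathlib
import Pool.Agent.Helper968.SC.Base
set_option autoImplicit false
open Set Metric
namespace Pool.Agent.Helper968.SC.G8

private theorem inner_coord (x w : E3) {i j k : Fin 3} (hij : i ≠ j) (hjk : j ≠ k) (hik : i ≠ k) :
    (inner ℝ x w : ℝ) = x i * w i + x j * w j + x k * w k := by
  have h : (inner ℝ x w : ℝ) = x 0 * w 0 + x 1 * w 1 + x 2 * w 2 := by
    rw [PiLp.inner_apply, Fin.sum_univ_three]
    simp only [RCLike.inner_apply, conj_trivial]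
    ring
  rw [h]
  fin_cases i <;> fin_cases j <;> fin_cases k <;> first | (exfalso; revert hij hjk hik; decide) | (simp; ring) | simp

private theorem ext_coord {x w : E3} {i j k : Fin 3} (hij : i ≠ j) (hjk : j ≠ k) (hik : i ≠ k)
    (h1 : x i = w i) (h2 : x j = w j) (h3 : x k = w k) : x = w := by
  have h : inner ℝ (x - w) (x - w) = (0 : ℝ) := by
    rw [inner_coord _ _ hij hjk hik]
    simp [h1, h2, h3]
  exact sub_eq_zero.mp (inner_self_eq_zero.mp h)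

private def Pc (K : Set E3) (i j k : Fin 3) (ε t0 t1 : ℝ) : Set E3 :=
  {d | ∃ x0 x1 w : E3, x0 ∈ face K w ∧ x1 ∈ face K w ∧ x0 i = t0 ∧ x1 i = t1 ∧ w j = ε ∧
    |w k| ≤ 1 ∧ d = x1 - x0}

private theorem pair_est {K : Set E3} (hK : Body K) {i j k : Fin 3} (hij : i ≠ j)
    (hjk : j ≠ k) (hik : i ≠ k) {ε t : ℝ} (hε : ε = 1 ∨ ε = -1) {x w x' w' : E3}
    (hx : x ∈ face K w) (hx' : x' ∈ face K w') (h1 : x i = t) (h1' : x' i = t)
    (hw : w j = ε) (hw' : w' j = ε) (hm : |w k| ≤ 1) (hm' : |w' k| ≤ 1) :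
    0 ≤ ε * (x j - x' j) + w k * (x k - x' k) ∧ ε * (x j - x' j) + w' k * (x k - x' k) ≤ 0 ∧
    ‖x - x'‖ ≤ 2 * |x k - x' k| := by
  have e1 : (inner ℝ x' w : ℝ) ≤ inner ℝ x w := by
    rw [hx.2]
    exact inner_le_hs hK.comp hx'.1 w
  have e2 : (inner ℝ x w' : ℝ) ≤ inner ℝ x' w' := by
    rw [hx'.2]
    exact inner_le_hs hK.comp hx.1 w'
  rw [inner_coord _ _ hij hjk hik, inner_coord _ _ hij hjk hik, h1, h1', hw] at e1
  rw [inner_coord _ _ hij hjk hik, inner_coord _ _ hij hjk hik, h1, h1', hw'] at e2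
  have f1 : 0 ≤ ε * (x j - x' j) + w k * (x k - x' k) := by nlinarith
  have f2 : ε * (x j - x' j) + w' k * (x k - x' k) ≤ 0 := by nlinarith
  refine ⟨f1, f2, ?_⟩
  have g1 : |w k * (x k - x' k)| ≤ |x k - x' k| := by
    rw [abs_mul]
    exact mul_le_of_le_one_left (abs_nonneg _) hm
  have g2 : |w' k * (x k - x' k)| ≤ |x k - x' k| := by
    rw [abs_mul]
    exact mul_le_of_le_one_left (abs_nonneg _) hm'
  have g3 : |x j - x' j| ≤ |x k - x' k| := by
    have g4 : |ε * (x j - x' j)| ≤ |x k - x' k| := by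
      rw [abs_le]
      constructor
      · have := le_abs_self (w k * (x k - x' k))
        linarith
      · have := neg_abs_le (w' k * (x k - x' k))
        linarith
    rw [abs_mul] at g4
    rcases hε with h | h <;> rw [h] at g4 <;> simpa using g4
  have g5 : ‖x - x'‖ ^ 2 ≤ (2 * |x k - x' k|) ^ 2 := by
    rw [← real_inner_self_eq_norm_sq, inner_coord _ _ hij hjk hik]
    simp only [PiLp.sub_apply, h1, h1']
    have g6 : (x j - x' j) * (x j - x' j) ≤ |x k - x' k| * |x k - x' k| := by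
      rw [← abs_mul_abs_self (x j - x' j)]
      exact mul_self_le_mul_self (abs_nonneg _) g3
    have g7 : (x k - x' k) * (x k - x' k) = |x k - x' k| * |x k - x' k| := (abs_mul_abs_self _).symm
    nlinarith [abs_nonneg (x k - x' k)]
  exact (sq_le_sq₀ (norm_nonneg _) (by positivity)).mp g5

private theorem seg_eq {p q x x' y : E3} {i : Fin 3} (hx : x ∈ segment ℝ p q)
    (hx' : x' ∈ segment ℝ p q) (hy : y ∈ segment ℝ p q) (h : x i = x' i) (hne : y i ≠ x i) :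
    x = x' := by
  rw [segment_eq_image'] at hx hx' hy
  obtain ⟨s, -, rfl⟩ := hx
  obtain ⟨s', -, rfl⟩ := hx'
  obtain ⟨r, -, rfl⟩ := hy
  simp only [PiLp.add_apply, PiLp.smul_apply, PiLp.sub_apply, smul_eq_mul] at h hne
  have hd : q i - p i ≠ 0 := by
    intro h0
    rw [h0] at hne
    simp at hne
  have : s = s' := by
    have : (s - s') * (q i - p i) = 0 := by linarith
    rcases mul_eq_zero.mp this with h1 | h1
    · linarith
    · exact absurd h1 hd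
  rw [this]

private theorem key_est {K : Set E3} (hK : Body K) (hseg : SegFaces K) {i j k : Fin 3}
    (hij : i ≠ j) (hjk : j ≠ k) (hik : i ≠ k) {ε t0 t1 : ℝ} (hε : ε = 1 ∨ ε = -1) (ht : t0 < t1)
    {x0 x1 w x0' x1' w' : E3}
    (hx0 : x0 ∈ face K w) (hx1 : x1 ∈ face K w) (hx0' : x0' ∈ face K w') (hx1' : x1' ∈ face K w')
    (h0 : x0 i = t0) (h1 : x1 i = t1) (h0' : x0' i = t0) (h1' : x1' i = t1)
    (hw : w j = ε) (hw' : w' j = ε) (hm : |w k| ≤ 1) (hm' : |w' k| ≤ 1) :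
    ‖(x1 - x0) - (x1' - x0')‖ ≤ 2 * |(x0 k + x1 k) - (x0' k + x1' k)| := by
  obtain ⟨a1, a2, a3⟩ := pair_est hK hij hjk hik hε hx0 hx0' h0 h0' hw hw' hm hm'
  obtain ⟨b1, b2, b3⟩ := pair_est hK hij hjk hik hε hx1 hx1' h1 h1' hw hw' hm hm'
  by_cases hmm : w k = w' k
  · -- same normal
    have hwi : w i = w' i := by
      have c1 : (inner ℝ x0 w : ℝ) = inner ℝ x1 w := by rw [hx0.2, hx1.2]
      have c2 : (inner ℝ x0' w' : ℝ) = inner ℝ x1' w' := by rw [hx0'.2, hx1'.2]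
      rw [inner_coord _ _ hij hjk hik, inner_coord _ _ hij hjk hik, h0, h1, hw] at c1
      rw [inner_coord _ _ hij hjk hik, inner_coord _ _ hij hjk hik, h0', h1', hw', ← hmm] at c2
      rw [← hmm] at a2 b2
      have d1 : ε * (x0 j - x0' j) + w k * (x0 k - x0' k) = 0 := le_antisymm a2 a1
      have d2 : ε * (x1 j - x1' j) + w k * (x1 k - x1' k) = 0 := le_antisymm b2 b1
      have : (t0 - t1) * (w i - w' i) = 0 := by linear_combination c1 - c2 - d1 + d2
      rcases mul_eq_zero.mp this with h | h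
      · linarith
      · linarith
    have hww : w = w' := ext_coord hij hjk hik hwi (hw.trans hw'.symm) hmm
    subst hww
    have hw0 : w ≠ 0 := by
      intro h
      rw [h] at hw
      simp at hw
      rcases hε with h | h <;> rw [h] at hw <;> norm_num at hw
    obtain ⟨p, q, hpq⟩ := hseg w hw0
    rw [hpq] at hx0 hx1 hx0' hx1'
    have e0 : x0 = x0' := seg_eq hx0 hx0' hx1 (h0.trans h0'.symm) (by rw [h0, h1]; exact ht.ne')
    have e1 : x1 = x1' := seg_eq hx1 hx1' hx0 (h1.trans h1'.symm) (by rw [h0, h1]; exact ht.ne)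
    rw [e0, e1]
    simp
  · have hd : w k - w' k ≠ 0 := sub_ne_zero.mpr hmm
    have s0 : 0 ≤ (w k - w' k) * (x0 k - x0' k) := by nlinarith
    have s1 : 0 ≤ (w k - w' k) * (x1 k - x1' k) := by nlinarith
    have s2 : 0 ≤ (x0 k - x0' k) * (x1 k - x1' k) := by
      have h3 : 0 ≤ (w k - w' k) ^ 2 * ((x0 k - x0' k) * (x1 k - x1' k)) := by
        have := mul_nonneg s0 s1
        nlinarith
      have h4 : 0 < (w k - w' k) ^ 2 := by positivity
      exact nonneg_of_mul_nonneg_right h3 h4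
    have s3 : |x0 k - x0' k| + |x1 k - x1' k| = |(x0 k + x1 k) - (x0' k + x1' k)| := by
      have h5 : (x0 k + x1 k) - (x0' k + x1' k) = (x0 k - x0' k) + (x1 k - x1' k) := by ring
      rw [h5]
      symm
      rw [abs_add_eq_add_abs_iff]
      rcases le_total 0 (x0 k - x0' k) with h | h
      · rcases le_total 0 (x1 k - x1' k) with h' | h'
        · exact Or.inl ⟨h, h'⟩
        · have : (x0 k - x0' k) * (x1 k - x1' k) = 0 :=
            le_antisymm (mul_nonpos_of_nonneg_of_nonpos h h') s2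
          rcases mul_eq_zero.mp this with h6 | h6
          · exact Or.inr ⟨h6.le, h'⟩
          · exact Or.inl ⟨h, h6.ge⟩
      · rcases le_total 0 (x1 k - x1' k) with h' | h'
        · have : (x0 k - x0' k) * (x1 k - x1' k) = 0 :=
            le_antisymm (mul_nonpos_of_nonpos_of_nonneg h h') s2
          rcases mul_eq_zero.mp this with h6 | h6
          · exact Or.inl ⟨h6.ge, h'⟩
          · exact Or.inr ⟨h, h6.le⟩
        · exact Or.inr ⟨h, h'⟩
    calc ‖(x1 - x0) - (x1' - x0')‖ = ‖(x1 - x1') - (x0 - x0')‖ := by congr 1; abel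
      _ ≤ ‖x1 - x1'‖ + ‖x0 - x0'‖ := norm_sub_le _ _
      _ ≤ 2 * |x1 k - x1' k| + 2 * |x0 k - x0' k| := add_le_add b3 a3
      _ = 2 * |(x0 k + x1 k) - (x0' k + x1' k)| := by rw [← s3]; ring

private theorem piece_lip {K : Set E3} (hK : Body K) (hseg : SegFaces K) {i j k : Fin 3}
    (hij : i ≠ j) (hjk : j ≠ k) (hik : i ≠ k) {ε t0 t1 : ℝ} (hε : ε = 1 ∨ ε = -1) (ht : t0 < t1) :
    ∃ (C : NNReal) (g : ℝ → E3), LipschitzWith C g ∧ Pc K i j k ε t0 t1 ⊆ range g := by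
  classical
  let R : ℝ → E3 → Prop := fun σ d => ∃ x0 x1 w : E3, x0 ∈ face K w ∧ x1 ∈ face K w ∧ x0 i = t0 ∧
    x1 i = t1 ∧ w j = ε ∧ |w k| ≤ 1 ∧ d = x1 - x0 ∧ σ = x0 k + x1 k
  have hR : ∀ σ d σ' d', R σ d → R σ' d' → ‖d - d'‖ ≤ 2 * |σ - σ'| := by
    rintro σ d σ' d' ⟨x0, x1, w, a1, a2, a3, a4, a5, a6, rfl, rfl⟩
      ⟨x0', x1', w', b1, b2, b3, b4, b5, b6, rfl, rfl⟩
    exact key_est hK hseg hij hjk hik hε ht a1 a2 b1 b2 a3 a4 b3 b4 a5 b5 a6 b6
  have hch : ∀ σ : ℝ, ∃ d : E3, (∃ d', R σ d') → R σ d := by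
    intro σ
    by_cases h : ∃ d', R σ d'
    · obtain ⟨d, hd⟩ := h
      exact ⟨d, fun _ => hd⟩
    · exact ⟨0, fun h' => absurd h' h⟩
  choose g0 hg0 using hch
  have hlip : LipschitzOnWith 2 g0 {σ | ∃ d', R σ d'} := by
    apply LipschitzOnWith.of_dist_le_mul
    intro σ hσ σ' hσ'
    rw [dist_eq_norm, Real.dist_eq]
    exact hR _ _ _ _ (hg0 σ hσ) (hg0 σ' hσ')
  obtain ⟨g, hg, heq⟩ := hlip.extend_finite_dimension
  refine ⟨_, g, hg, ?_⟩
  rintro d ⟨x0, x1, w, a1, a2, a3, a4, a5, a6, rfl⟩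
  have hRd : R (x0 k + x1 k) (x1 - x0) := ⟨x0, x1, w, a1, a2, a3, a4, a5, a6, rfl, rfl⟩
  refine ⟨x0 k + x1 k, ?_⟩
  rw [← heq ⟨_, hRd⟩]
  have := hR _ _ _ _ (hg0 _ ⟨_, hRd⟩) hRd
  simp only [sub_self, abs_zero, mul_zero] at this
  exact sub_eq_zero.mp (norm_le_zero_iff.mp this)

private theorem dimH_cone_le {C : NNReal} {g : ℝ → E3} (hg : LipschitzWith C g) :
    dimH (range (fun p : ℝ × ℝ => p.1 • g p.2)) ≤ 2 := by
  have h2 : dimH (univ : Set (ℝ × ℝ)) = 2 := by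
    rw [Real.dimH_univ_eq_finrank]
    simp
  refine le_trans ?_ h2.le
  apply dimH_range_le_of_locally_lipschitzOn
  rintro ⟨t0, σ0⟩
  let M : ℝ := (|t0| + 1) * C + (‖g σ0‖ + C)
  have hM : 0 ≤ M := by positivity
  refine ⟨M.toNNReal, Metric.ball (t0, σ0) 1, Metric.ball_mem_nhds _ one_pos, ?_⟩
  apply LipschitzOnWith.of_dist_le_mul
  rintro ⟨t, σ⟩ h ⟨t', σ'⟩ h'
  rw [Real.coe_toNNReal _ hM]
  simp only [Metric.mem_ball, Prod.dist_eq, max_lt_iff] at h h'
  have e1 : |t| ≤ |t0| + 1 := by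
    have := h.1
    rw [Real.dist_eq] at this
    have h3 := abs_sub_abs_le_abs_sub t t0
    linarith
  have e2 : ‖g σ'‖ ≤ ‖g σ0‖ + C := by
    have h3 := hg.dist_le_mul σ' σ0
    rw [dist_eq_norm] at h3
    have h4 : ‖g σ'‖ ≤ ‖g σ0‖ + ‖g σ' - g σ0‖ := by
      have := norm_add_le (g σ0) (g σ' - g σ0)
      simpa using this
    have h5 : (C : ℝ) * dist σ' σ0 ≤ C * 1 := mul_le_mul_of_nonneg_left h'.2.le C.2
    linarith
  have e3 : dist (g σ) (g σ') ≤ C * dist σ σ' := hg.dist_le_mul σ σ'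
  rw [Prod.dist_eq]
  simp only
  have hd1 : dist t t' ≤ max (dist t t') (dist σ σ') := le_max_left _ _
  have hd2 : dist σ σ' ≤ max (dist t t') (dist σ σ') := le_max_right _ _
  set mx := max (dist t t') (dist σ σ') with hmx
  have hmx0 : 0 ≤ mx := le_trans dist_nonneg hd1
  calc dist (t • g σ) (t' • g σ') ≤ dist (t • g σ) (t • g σ') + dist (t • g σ') (t' • g σ') :=
        dist_triangle _ _ _
    _ = |t| * dist (g σ) (g σ') + dist t t' * ‖g σ'‖ := by
        rw [dist_smul₀, dist_eq_norm (t • g σ'), ← sub_smul, norm_smul, Real.norm_eq_abs,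
          Real.norm_eq_abs, Real.dist_eq]
    _ ≤ (|t0| + 1) * (C * mx) + mx * (‖g σ0‖ + C) := by
        apply add_le_add
        · apply mul_le_mul e1 _ dist_nonneg (by positivity)
          exact e3.trans (mul_le_mul_of_nonneg_left hd2 C.2)
        · exact mul_le_mul hd1 e2 (norm_nonneg _) hmx0
    _ = M * mx := by
        show _ = ((|t0| + 1) * C + (‖g σ0‖ + C)) * mx
        ring

private theorem exists_piece {K : Set E3} (hK : Body K) {w : E3} (hw : w ≠ 0) {p q : E3}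
    (hp : p ∈ face K w) (hq : q ∈ face K w) {i : Fin 3} (hi : p i < q i) :
    ∃ (j k : Fin 3) (ε : ℤ) (t0 t1 : ℚ), i ≠ j ∧ j ≠ k ∧ i ≠ k ∧ ((ε : ℝ) = 1 ∨ (ε : ℝ) = -1) ∧
      (t0 : ℝ) < t1 ∧ ∃ d ∈ Pc K i j k ε t0 t1, ∃ s : ℝ, q - p = s • d := by
  have hjk : ∃ j k : Fin 3, i ≠ j ∧ j ≠ k ∧ i ≠ k ∧ |w k| ≤ |w j| := by
    have : ∀ i : Fin 3, ∃ j k : Fin 3, i ≠ j ∧ j ≠ k ∧ i ≠ k := by decide
    obtain ⟨j, k, h1, h2, h3⟩ := this i
    rcases le_total |w k| |w j| with h | h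
    · exact ⟨j, k, h1, h2, h3, h⟩
    · exact ⟨k, j, h3, h2.symm, h1, h⟩
  obtain ⟨j, k, hij, hjk, hik, hle⟩ := hjk
  have hwj : w j ≠ 0 := by
    intro h0
    rw [h0, abs_zero] at hle
    have hk0 : w k = 0 := abs_nonpos_iff.mp hle
    have c1 : (inner ℝ p w : ℝ) = inner ℝ q w := by rw [hp.2, hq.2]
    rw [inner_coord _ _ hij hjk hik, inner_coord _ _ hij hjk hik, h0, hk0] at c1
    have : (q i - p i) * w i = 0 := by linarith
    rcases mul_eq_zero.mp this with h | h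
    · linarith
    · exact hw (ext_coord hij hjk hik (by simpa using h) (by simpa using h0) (by simpa using hk0))
  have hpos : 0 < |w j| := abs_pos.mpr hwj
  obtain ⟨t0, ht0, ht0'⟩ := exists_rat_btwn hi
  obtain ⟨t1, ht1, ht1'⟩ := exists_rat_btwn ht0'
  have hd : 0 < q i - p i := by linarith
  have hface : face K (|w j|⁻¹ • w) = face K w := face_smul hK.comp hK.ne (by positivity) w
  have hε : ∃ ε : ℤ, ((ε : ℝ) = 1 ∨ (ε : ℝ) = -1) ∧ |w j|⁻¹ * w j = ε := by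
    rcases lt_or_gt_of_ne hwj with h | h
    · refine ⟨-1, by simp, ?_⟩
      rw [abs_of_neg h]
      push_cast
      field_simp
    · refine ⟨1, by simp, ?_⟩
      rw [abs_of_pos h]
      push_cast
      field_simp
  obtain ⟨ε, hε1, hε2⟩ := hε
  set l0 : ℝ := (t0 - p i) / (q i - p i) with hl0
  set l1 : ℝ := (t1 - p i) / (q i - p i) with hl1
  have hl0m : l0 ∈ Icc (0:ℝ) 1 := by
    constructor
    · apply div_nonneg _ hd.le
      linarith
    · rw [hl0, div_le_one hd]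
      linarith
  have hl1m : l1 ∈ Icc (0:ℝ) 1 := by
    constructor
    · apply div_nonneg _ hd.le
      linarith
    · rw [hl1, div_le_one hd]
      linarith
  have hx0 : p + l0 • (q - p) ∈ face K w := (convex_face hK.conv w).add_smul_sub_mem hp hq hl0m
  have hx1 : p + l1 • (q - p) ∈ face K w := (convex_face hK.conv w).add_smul_sub_mem hp hq hl1m
  have hll : l1 - l0 ≠ 0 := by
    rw [hl0, hl1, ← sub_div]
    apply div_ne_zero _ hd.ne'
    intro h
    linarith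
  refine ⟨j, k, ε, t0, t1, hij, hjk, hik, hε1, ht1, (p + l1 • (q - p)) - (p + l0 • (q - p)),
    ⟨p + l0 • (q - p), p + l1 • (q - p), |w j|⁻¹ • w, ?_, ?_, ?_, ?_, ?_, ?_, rfl⟩,
    (l1 - l0)⁻¹, ?_⟩
  · rw [hface]; exact hx0
  · rw [hface]; exact hx1
  · simp only [PiLp.add_apply, PiLp.smul_apply, PiLp.sub_apply, smul_eq_mul]
    rw [hl0, div_mul_cancel₀ _ hd.ne']
    ring
  · simp only [PiLp.add_apply, PiLp.smul_apply, PiLp.sub_apply, smul_eq_mul]
    rw [hl1, div_mul_cancel₀ _ hd.ne']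
    ring
  · simp only [PiLp.smul_apply, smul_eq_mul]
    exact hε2
  · simp only [PiLp.smul_apply, smul_eq_mul]
    rw [abs_mul, abs_of_pos (inv_pos.mpr hpos), inv_mul_le_iff₀ hpos]
    linarith
  · have : (p + l1 • (q - p)) - (p + l0 • (q - p)) = (l1 - l0) • (q - p) := by
      rw [sub_smul]
      abel
    rw [this, smul_smul, inv_mul_cancel₀ hll, one_smul]

/-- directions that are not parallel to any segment in a face are dense -/
theorem good_dense {K : Set E3} (hK : Body K) (hseg : SegFaces K) :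
    Dense {e : E3 | e ≠ 0 ∧ Good K e} := by
  classical
  let Q : Fin 3 × Fin 3 × Fin 3 × ℤ × ℚ × ℚ → Set E3 := fun a =>
    {e | (a.1 ≠ a.2.1 ∧ a.2.1 ≠ a.2.2.1 ∧ a.1 ≠ a.2.2.1 ∧
      ((a.2.2.2.1 : ℝ) = 1 ∨ (a.2.2.2.1 : ℝ) = -1) ∧ (a.2.2.2.2.1 : ℝ) < a.2.2.2.2.2) ∧
      ∃ d ∈ Pc K a.1 a.2.1 a.2.2.1 a.2.2.2.1 a.2.2.2.2.1 a.2.2.2.2.2, ∃ s : ℝ, e = s • d}
  have hQ : ∀ a, dimH (Q a) ≤ 2 := by
    intro a
    by_cases hv : (a.1 ≠ a.2.1 ∧ a.2.1 ≠ a.2.2.1 ∧ a.1 ≠ a.2.2.1 ∧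
      ((a.2.2.2.1 : ℝ) = 1 ∨ (a.2.2.2.1 : ℝ) = -1) ∧ (a.2.2.2.2.1 : ℝ) < a.2.2.2.2.2)
    · obtain ⟨C, g, hg, hsub⟩ := piece_lip hK hseg hv.1 hv.2.1 hv.2.2.1 hv.2.2.2.1 hv.2.2.2.2
      refine le_trans (dimH_mono ?_) (dimH_cone_le hg)
      rintro e ⟨-, d, hd, s, rfl⟩
      obtain ⟨σ, rfl⟩ := hsub hd
      exact ⟨(s, σ), rfl⟩
    · have : Q a = ∅ := by
        ext e
        constructor
        · rintro ⟨h, -⟩
          exact hv h
        · intro h
          exact absurd h (Set.notMem_empty e)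
      rw [this]
      simp
  have hB : dimH ((⋃ a, Q a) ∪ {0}) < Module.finrank ℝ E3 := by
    have h1 : dimH ((⋃ a, Q a) ∪ {0}) ≤ 2 := by
      rw [dimH_union, dimH_iUnion]
      apply max_le
      · exact iSup_le hQ
      · simp
    refine lt_of_le_of_lt h1 ?_
    simp only [finrank_euclideanSpace, Fintype.card_fin]
    norm_num
  have hD := dense_compl_of_dimH_lt_finrank hB
  refine hD.mono ?_
  intro e he
  have he0 : e ≠ 0 := by
    intro h
    exact he (Or.inr h)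
  refine ⟨he0, ?_⟩
  intro w hw p hp q hq t hpq
  by_contra hne
  apply he
  left
  have ht : t ≠ 0 := by
    intro h
    rw [h, zero_smul] at hpq
    exact hne (sub_eq_zero.mp hpq).symm
  have hi : ∃ i : Fin 3, p i ≠ q i := by
    by_contra hcon
    push Not at hcon
    exact hne (ext_coord (i := 0) (j := 1) (k := 2) (by decide) (by decide) (by decide)
      (hcon 0) (hcon 1) (hcon 2))
  obtain ⟨i, hi⟩ := hi
  rcases lt_or_gt_of_ne hi with h | h
  · obtain ⟨j, k, ε, t0, t1, h1, h2, h3, h4, h5, d, hd, s, hs⟩ := exists_piece hK hw hp hq h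
    refine Set.mem_iUnion.mpr ⟨(i, j, k, ε, t0, t1), ⟨h1, h2, h3, h4, h5⟩, d, hd, t⁻¹ * s, ?_⟩
    rw [mul_smul, ← hs, hpq, smul_smul, inv_mul_cancel₀ ht, one_smul]
  · obtain ⟨j, k, ε, t0, t1, h1, h2, h3, h4, h5, d, hd, s, hs⟩ := exists_piece hK hw hq hp h
    refine Set.mem_iUnion.mpr ⟨(i, j, k, ε, t0, t1), ⟨h1, h2, h3, h4, h5⟩, d, hd, -t⁻¹ * s, ?_⟩
    rw [mul_smul, ← hs, ← neg_sub q p, hpq, neg_smul, smul_neg, neg_neg, smul_smul,
      inv_mul_cancel₀ ht, one_smul]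

end Pool.Agent.Helper968.SC.G8
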