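import Mathlib
import Pool.Agent.Helper968.SC.Base
set_option autoImplicit false
open Set Metric
namespace Pool.Agent.Helper968.SC.G9

/-- one side of the limit argument -/
theorem St_side {K : Set E3} (hK : Body K) (e v : ℕ → E3) (b : ℕ → ℝ) (e0 v0 : E3) (b0 : ℝ)
    (h0 : e0 ≠ 0) (he : Filter.Tendsto e Filter.atTop (nhds e0))
    (hv : Filter.Tendsto v Filter.atTop (nhds v0)) (hb : Filter.Tendsto b Filter.atTop (nhds b0))
    (h : ∀ n, ∀ w : E3, inner ℝ w (e n) = (0:ℝ) → 0 < (inner ℝ w (v n) : ℝ) →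
      ∃ x ∈ face K w, inner ℝ x (e n) = b n) :
    ∀ w : E3, inner ℝ w e0 = (0:ℝ) → 0 < (inner ℝ w v0 : ℝ) → ∃ x ∈ face K w, inner ℝ x e0 = b0 := by
  intro w hw hwv
  let wn : ℕ → E3 := fun n => w - ((inner ℝ w (e n) : ℝ) / ‖e n‖ ^ 2) • e n
  have hwn0 : ∀ n, inner ℝ (wn n) (e n) = (0:ℝ) := by
    intro n
    show inner ℝ (w - ((inner ℝ w (e n) : ℝ) / ‖e n‖ ^ 2) • e n) (e n) = (0:ℝ)
    by_cases hen : e n = 0
    · rw [hen, inner_zero_right]
    · have h1 : ‖e n‖ ^ 2 ≠ 0 := pow_ne_zero _ (norm_ne_zero_iff.2 hen)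
      rw [inner_sub_left, inner_smul_left, real_inner_self_eq_norm_sq]
      simp only [conj_trivial]
      rw [div_mul_cancel₀ _ h1, sub_self]
  have hwnl : Filter.Tendsto wn Filter.atTop (nhds w) := by
    have h1 : Filter.Tendsto (fun n => (inner ℝ w (e n) : ℝ)) Filter.atTop (nhds (inner ℝ w e0)) :=
      tendsto_const_nhds.inner he
    have h2 : Filter.Tendsto (fun n => ‖e n‖ ^ 2) Filter.atTop (nhds (‖e0‖ ^ 2)) :=
      he.norm.pow 2
    have h3 := h1.div h2 (pow_ne_zero _ (norm_ne_zero_iff.2 h0))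
    have h4 := h3.smul he
    have h5 := (tendsto_const_nhds (x := w)).sub h4
    rw [hw, zero_div, zero_smul, sub_zero] at h5
    exact h5
  have hin : Filter.Tendsto (fun n => (inner ℝ (wn n) (v n) : ℝ)) Filter.atTop
      (nhds (inner ℝ w v0)) := hwnl.inner hv
  obtain ⟨N, hN⟩ := Filter.eventually_atTop.1 (hin.eventually (lt_mem_nhds hwv))
  have hex : ∀ n, ∃ x ∈ face K (wn (n + N)), inner ℝ x (e (n + N)) = b (n + N) :=
    fun n => h (n + N) _ (hwn0 _) (hN _ (by omega))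
  choose x hx hxb using hex
  obtain ⟨x0, _, ψ, hψ, hxl⟩ := hK.comp.tendsto_subseq (fun n => (hx n).1)
  have hshift : Filter.Tendsto (fun n => ψ n + N) Filter.atTop Filter.atTop :=
    (Filter.tendsto_add_atTop_nat N).comp hψ.tendsto_atTop
  refine ⟨x0, face_limit hK.comp hK.ne hxl (hwnl.comp hshift) (fun n => hx (ψ n)), ?_⟩
  have h6 : Filter.Tendsto (fun n => (inner ℝ (x (ψ n)) (e (ψ n + N)) : ℝ)) Filter.atTop
      (nhds (inner ℝ x0 e0)) := hxl.inner (he.comp hshift)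
  have h7 : Filter.Tendsto (fun n => b (ψ n + N)) Filter.atTop (nhds b0) := hb.comp hshift
  exact tendsto_nhds_unique h6 (h7.congr (fun n => (hxb (ψ n)).symm))

/-- the step structure passes to limits of directions -/
theorem St_closed {K : Set E3} (hK : Body K) (e : ℕ → E3) (e0 : E3) (he : ∀ n, St K (e n))
    (hlim : Filter.Tendsto e Filter.atTop (nhds e0)) (h0 : e0 ≠ 0) : St K e0 := by
  choose v hv1 hve bp bm hbp hbm using he
  obtain ⟨C, hC⟩ := hK.comp.isBounded.exists_norm_le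
  have hC0 : 0 ≤ C := by
    obtain ⟨x, hx⟩ := hK.ne
    exact (norm_nonneg x).trans (hC x hx)
  obtain ⟨B, hB⟩ := hlim.norm.bddAbove_range
  have hB' : ∀ n, ‖e n‖ ≤ B := fun n => hB ⟨n, rfl⟩
  have hbnd : ∀ (x : E3) (n : ℕ), x ∈ K → |(inner ℝ x (e n) : ℝ)| ≤ C * B := by
    intro x n hx
    exact (abs_real_inner_le_norm _ _).trans (mul_le_mul (hC x hx) (hB' n) (norm_nonneg _) hC0)
  have hvv : ∀ n, (inner ℝ (v n) (v n) : ℝ) = 1 := by
    intro n
    rw [real_inner_self_eq_norm_sq, hv1 n, one_pow]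
  have hbpb : ∀ n, bp n ∈ Set.Icc (-(C * B)) (C * B) := by
    intro n
    obtain ⟨x, hx, hxe⟩ := hbp n (v n) (hve n) (by rw [hvv]; norm_num)
    rw [← hxe]
    exact abs_le.1 (hbnd x n hx.1)
  have hbmb : ∀ n, bm n ∈ Set.Icc (-(C * B)) (C * B) := by
    intro n
    obtain ⟨x, hx, hxe⟩ := hbm n (-(v n)) (by rw [inner_neg_left, hve n, neg_zero])
      (by rw [inner_neg_left, hvv]; norm_num)
    rw [← hxe]
    exact abs_le.1 (hbnd x n hx.1)
  have hcomp : IsCompact ((Metric.sphere (0 : E3) 1) ×ˢ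
      ((Set.Icc (-(C * B)) (C * B)) ×ˢ (Set.Icc (-(C * B)) (C * B)))) :=
    (isCompact_sphere _ _).prod (isCompact_Icc.prod isCompact_Icc)
  obtain ⟨⟨v0, bp0, bm0⟩, hmem, φ, hφ, hφl⟩ := hcomp.tendsto_subseq
    (x := fun n => (v n, (bp n, bm n)))
    (fun n => ⟨by simpa using hv1 n, hbpb n, hbmb n⟩)
  have hvl : Filter.Tendsto (fun n => v (φ n)) Filter.atTop (nhds v0) :=
    (continuous_fst.tendsto _).comp hφl
  have hbpl : Filter.Tendsto (fun n => bp (φ n)) Filter.atTop (nhds bp0) :=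
    ((continuous_fst.comp continuous_snd).tendsto _).comp hφl
  have hbml : Filter.Tendsto (fun n => bm (φ n)) Filter.atTop (nhds bm0) :=
    ((continuous_snd.comp continuous_snd).tendsto _).comp hφl
  have hel : Filter.Tendsto (fun n => e (φ n)) Filter.atTop (nhds e0) :=
    hlim.comp hφ.tendsto_atTop
  refine ⟨v0, by simpa using hmem.1, ?_, bp0, bm0, ?_, ?_⟩
  · have h1 : Filter.Tendsto (fun n => (inner ℝ (v (φ n)) (e (φ n)) : ℝ)) Filter.atTop
        (nhds (inner ℝ v0 e0)) := hvl.inner hel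
    have h2 : (fun n => (inner ℝ (v (φ n)) (e (φ n)) : ℝ)) = fun _ => 0 := by
      funext n; exact hve _
    rw [h2] at h1
    exact tendsto_nhds_unique h1 tendsto_const_nhds
  · exact St_side hK _ _ _ e0 v0 bp0 h0 hel hvl hbpl (fun n => hbp (φ n))
  · intro w hw hwv
    refine St_side hK _ (fun n => -(v (φ n))) _ e0 (-v0) bm0 h0 hel hvl.neg hbml ?_ w hw ?_
    · intro n w' h1 h2
      refine hbm (φ n) w' h1 ?_
      rw [inner_neg_right] at h2
      linarith
    · rw [inner_neg_right]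
      linarith

end Pool.Agent.Helper968.SC.G9
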