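import Mathlib
import Pool.Agent.Helper968.SC.Base
set_option autoImplicit false
open Set Metric
namespace Pool.Agent.Helper968.SC.J1

/-- Continuous angle function of a nowhere zero planar field on the plane. -/
theorem exists_angle (φ ψ : ℝ × ℝ → ℝ) (hφ : Continuous φ) (hψ : Continuous ψ)
    (hne : ∀ p, ¬ (φ p = 0 ∧ ψ p = 0)) :
    ∃ θ : ℝ × ℝ → ℝ, Continuous θ ∧ ∀ p, ∃ r : ℝ, 0 < r ∧ ψ p = r * Real.cos (θ p) ∧
      φ p = r * Real.sin (θ p) := by
  let G : ℝ × ℝ → ℂ := fun p => (ψ p : ℂ) + (φ p : ℂ) * Complex.I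
  have hG : Continuous G := by fun_prop
  have hG0 : ∀ p, G p ≠ 0 := by
    intro p hp
    apply hne p
    have hre := congrArg Complex.re hp
    have him := congrArg Complex.im hp
    simp [G] at hre him
    exact ⟨him, hre⟩
  have hnorm : ∀ p, ‖G p / (‖G p‖ : ℂ)‖ = 1 := by
    intro p
    rw [norm_div, Complex.norm_real, norm_norm]
    exact div_self (norm_ne_zero_iff.2 (hG0 p))
  let U : C(ℝ × ℝ, Circle) :=
    ⟨fun p => ⟨G p / (‖G p‖ : ℂ), mem_sphere_zero_iff_norm.2 (hnorm p)⟩, by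
      apply Continuous.subtype_mk
      apply Continuous.div hG
      · exact Complex.continuous_ofReal.comp hG.norm
      · intro p
        exact_mod_cast norm_ne_zero_iff.2 (hG0 p)⟩
  obtain ⟨e0, he0⟩ : ∃ e0 : ℝ, Circle.exp e0 = U (0, 0) :=
    ⟨Complex.arg (U (0, 0)), Circle.exp_arg (U (0, 0))⟩
  obtain ⟨Θ, ⟨_, hΘ⟩, _⟩ :=
    Circle.isCoveringMap_exp.existsUnique_continuousMap_lifts U (0, 0) e0 he0
  refine ⟨Θ, Θ.continuous, ?_⟩
  intro p
  have h1 : Circle.exp (Θ p) = U p := congrFun hΘ p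
  have h2 : Complex.exp ((Θ p : ℝ) * Complex.I) = G p / (‖G p‖ : ℂ) := by
    have h4 : ((Circle.exp (Θ p) : Circle) : ℂ) = ((U p : Circle) : ℂ) := congrArg _ h1
    rw [Circle.coe_exp] at h4
    exact h4
  have hpos : 0 < ‖G p‖ := norm_pos_iff.2 (hG0 p)
  have h3 : G p = (‖G p‖ : ℂ) * Complex.exp ((Θ p : ℝ) * Complex.I) := by
    rw [h2, mul_div_cancel₀]
    exact_mod_cast hpos.ne'
  refine ⟨‖G p‖, hpos, ?_, ?_⟩
  · have := congrArg Complex.re h3
    rw [Complex.re_ofReal_mul, Complex.exp_ofReal_mul_I_re] at this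
    rw [← this]; simp [G]
  · have := congrArg Complex.im h3
    rw [Complex.im_ofReal_mul, Complex.exp_ofReal_mul_I_im] at this
    rw [← this]; simp [G]


theorem edge_aux {θ : ℝ → ℝ} (hθ : Continuous θ) (a : ℝ) (hc : ∀ s, 0 < Real.cos (θ s - a))
    (p q : ℝ) (hp : a - Real.pi / 2 < θ p ∧ θ p < a + Real.pi / 2) :
    a - Real.pi / 2 < θ q ∧ θ q < a + Real.pi / 2 := by
  constructor
  · by_contra h
    push Not at h
    obtain ⟨s, hs⟩ := mem_range_of_exists_le_of_exists_ge hθ ⟨q, h⟩ ⟨p, hp.1.le⟩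
    have h1 := hc s
    rw [hs] at h1
    have h2 : a - Real.pi / 2 - a = -(Real.pi / 2) := by ring
    rw [h2, Real.cos_neg, Real.cos_pi_div_two] at h1
    exact lt_irrefl _ h1
  · by_contra h
    push Not at h
    obtain ⟨s, hs⟩ := mem_range_of_exists_le_of_exists_ge hθ ⟨p, hp.2.le⟩ ⟨q, h⟩
    have h1 := hc s
    rw [hs] at h1
    have h2 : a + Real.pi / 2 - a = Real.pi / 2 := by ring
    rw [h2, Real.cos_pi_div_two] at h1
    exact lt_irrefl _ h1

theorem angle_eq_aux {θ φ r ρ : ℝ} (hr : 0 < r) (hρ : 0 < ρ)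
    (h1 : r * Real.cos θ = ρ * Real.cos φ) (h2 : r * Real.sin θ = ρ * Real.sin φ) :
    ∃ k : ℤ, θ = φ + 2 * Real.pi * k := by
  have e1 := Real.sin_sq_add_cos_sq θ
  have e2 := Real.sin_sq_add_cos_sq φ
  have e3 : r ^ 2 = ρ ^ 2 := by
    have : (r * Real.cos θ) ^ 2 + (r * Real.sin θ) ^ 2 =
        (ρ * Real.cos φ) ^ 2 + (ρ * Real.sin φ) ^ 2 := by rw [h1, h2]
    have f1 : (r * Real.cos θ) ^ 2 + (r * Real.sin θ) ^ 2 = r ^ 2 := by
      linear_combination r ^ 2 * e1
    have f2 : (ρ * Real.cos φ) ^ 2 + (ρ * Real.sin φ) ^ 2 = ρ ^ 2 := by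
      linear_combination ρ ^ 2 * e2
    rw [f1, f2] at this
    exact this
  have e4 : r = ρ := (pow_left_inj₀ hr.le hρ.le two_ne_zero).1 e3
  subst e4
  have h3 : Real.cos θ = Real.cos φ := mul_left_cancel₀ hr.ne' h1
  have h4 : Real.sin θ = Real.sin φ := mul_left_cancel₀ hr.ne' h2
  have h5 := Real.Angle.cos_sin_inj h3 h4
  rw [Real.Angle.angle_eq_iff_two_pi_dvd_sub] at h5
  obtain ⟨k, hk⟩ := h5
  exact ⟨k, by linarith⟩

theorem corner_aux {θ x a : ℝ} (hk : ∃ k : ℤ, θ = x + 2 * Real.pi * k)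
    (hθ : a - Real.pi / 2 < θ ∧ θ < a + Real.pi / 2)
    (hx : a - Real.pi / 2 < x ∧ x < a + Real.pi / 2) : θ = x := by
  obtain ⟨k, hk⟩ := hk
  have hpi := Real.pi_pos
  have h1 : (-1 : ℝ) < k := by
    by_contra h
    push Not at h
    nlinarith [hθ.1, hx.2]
  have h2 : (k : ℝ) < 1 := by
    by_contra h
    push Not at h
    nlinarith [hθ.2, hx.1]
  have h3 : (-1 : ℤ) < k := by exact_mod_cast h1
  have h4 : k < (1 : ℤ) := by exact_mod_cast h2
  have h5 : k = 0 := by omega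
  rw [hk, h5]
  simp

/-- the direction of a chord -/
theorem chord_aux (R a b : ℝ) :
    R * Real.cos a - R * Real.cos b =
      (2 * R * Real.sin ((b - a) / 2)) * Real.cos ((a + b) / 2 - Real.pi / 2) ∧
    R * Real.sin a - R * Real.sin b =
      (2 * R * Real.sin ((b - a) / 2)) * Real.sin ((a + b) / 2 - Real.pi / 2) := by
  rw [Real.cos_sub_pi_div_two, Real.sin_sub_pi_div_two]
  have ha : a = (a + b) / 2 - (b - a) / 2 := by ring
  have hb : b = (a + b) / 2 + (b - a) / 2 := by ring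
  constructor
  · conv_lhs => rw [ha, hb]
    have hx : ((a + b) / 2 - (b - a) / 2 + ((a + b) / 2 + (b - a) / 2)) / 2 = (a + b) / 2 := by ring
    have hy : ((a + b) / 2 + (b - a) / 2 - ((a + b) / 2 - (b - a) / 2)) / 2 = (b - a) / 2 := by ring
    rw [Real.cos_sub, Real.cos_add]
    ring_nf
  · conv_lhs => rw [ha, hb]
    rw [Real.sin_sub, Real.sin_add]
    ring_nf

theorem disc_aux {R : ℝ} (hR : 0 < R) {z : ℂ} (hz : ‖z‖ ≤ R) (τ : ℝ)
    (hne : z ≠ R * Complex.exp (τ * Complex.I)) :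
    z.re * Real.cos τ + z.im * Real.sin τ < R := by
  by_contra hcon
  push Not at hcon
  apply hne
  have h1 : z.re ^ 2 + z.im ^ 2 ≤ R ^ 2 := by
    have e := Complex.sq_norm z
    rw [Complex.normSq_apply] at e
    have : ‖z‖ ^ 2 ≤ R ^ 2 := pow_le_pow_left₀ (norm_nonneg _) hz 2
    nlinarith
  have h2 := Real.sin_sq_add_cos_sq τ
  have h3 : (z.re - R * Real.cos τ) ^ 2 + (z.im - R * Real.sin τ) ^ 2 ≤ 0 := by
    have e : (z.re - R * Real.cos τ) ^ 2 + (z.im - R * Real.sin τ) ^ 2 =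
        (z.re ^ 2 + z.im ^ 2) - 2 * R * (z.re * Real.cos τ + z.im * Real.sin τ) + R ^ 2 := by
      linear_combination R ^ 2 * h2
    rw [e]
    nlinarith [mul_le_mul_of_nonneg_left hcon hR.le]
  have h4 : z.re - R * Real.cos τ = 0 := by
    have : (z.re - R * Real.cos τ) ^ 2 = 0 := by
      nlinarith [sq_nonneg (z.re - R * Real.cos τ), sq_nonneg (z.im - R * Real.sin τ)]
    exact pow_eq_zero_iff (two_ne_zero) |>.1 this
  have h5 : z.im - R * Real.sin τ = 0 := by
    have : (z.im - R * Real.sin τ) ^ 2 = 0 := by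
      nlinarith [sq_nonneg (z.re - R * Real.cos τ), sq_nonneg (z.im - R * Real.sin τ)]
    exact pow_eq_zero_iff (two_ne_zero) |>.1 this
  apply Complex.ext
  · rw [Complex.re_ofReal_mul, Complex.exp_ofReal_mul_I_re]
    linarith
  · rw [Complex.im_ofReal_mul, Complex.exp_ofReal_mul_I_im]
    linarith

/-- Two paths in a closed disc joining alternating boundary points meet. -/
theorem disc_cross (R : ℝ) (hR : 0 < R) (t1 t2 t3 t4 : ℝ) (h12 : t1 < t2) (h23 : t2 < t3)
    (h34 : t3 < t4) (h41 : t4 < t1 + 2 * Real.pi) (g h : ℝ → ℂ) (hg : Continuous g)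
    (hh : Continuous h) (bg : ∀ t ∈ Icc (0:ℝ) 1, ‖g t‖ ≤ R) (bh : ∀ t ∈ Icc (0:ℝ) 1, ‖h t‖ ≤ R)
    (g0 : g 0 = R * Complex.exp (t3 * Complex.I)) (g1 : g 1 = R * Complex.exp (t1 * Complex.I))
    (h0 : h 0 = R * Complex.exp (t4 * Complex.I)) (h1 : h 1 = R * Complex.exp (t2 * Complex.I)) :
    ∃ s ∈ Icc (0:ℝ) 1, ∃ t ∈ Icc (0:ℝ) 1, g s = h t := by
  by_contra hcon
  push Not at hcon
  have hpi := Real.pi_pos
  obtain ⟨c, hc, hcm, hcid⟩ : ∃ c : ℝ → ℝ, Continuous c ∧ (∀ t, c t ∈ Icc (0 : ℝ) 1) ∧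
      (∀ t ∈ Icc (0 : ℝ) 1, c t = t) := by
    refine ⟨fun t => (projIcc (0 : ℝ) 1 zero_le_one t : ℝ),
      continuous_subtype_val.comp (continuous_projIcc (h := zero_le_one)),
      fun t => (projIcc (0 : ℝ) 1 zero_le_one t).2, fun t ht => ?_⟩
    show ((projIcc (0 : ℝ) 1 zero_le_one t : Icc (0 : ℝ) 1) : ℝ) = t
    rw [projIcc_of_mem zero_le_one ht]
  have hc0 : c 0 = 0 := hcid 0 ⟨le_rfl, zero_le_one⟩
  have hc1 : c 1 = 1 := hcid 1 ⟨zero_le_one, le_rfl⟩
  have hF : ∀ s t, g (c s) ≠ h (c t) := fun s t => hcon _ (hcm s) _ (hcm t)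
  obtain ⟨θ0, hθ0, hr0⟩ := exists_angle (fun p => (g (c p.1) - h (c p.2)).im)
    (fun p => (g (c p.1) - h (c p.2)).re)
    (Complex.continuous_im.comp ((hg.comp (hc.comp continuous_fst)).sub
      (hh.comp (hc.comp continuous_snd))))
    (Complex.continuous_re.comp ((hg.comp (hc.comp continuous_fst)).sub
      (hh.comp (hc.comp continuous_snd)))) (by
      rintro p ⟨h1, h2⟩
      apply hF p.1 p.2
      rw [← sub_eq_zero]
      exact Complex.ext h2 h1)
  -- coordinates of the four points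
  have cre : ∀ τ : ℝ, (R * Complex.exp (τ * Complex.I) : ℂ).re = R * Real.cos τ := by
    intro τ
    rw [Complex.re_ofReal_mul, Complex.exp_ofReal_mul_I_re]
  have cim : ∀ τ : ℝ, (R * Complex.exp (τ * Complex.I) : ℂ).im = R * Real.sin τ := by
    intro τ
    rw [Complex.im_ofReal_mul, Complex.exp_ofReal_mul_I_im]
  have hs : ∀ a b : ℝ, a < b → b < a + 2 * Real.pi → 0 < 2 * R * Real.sin ((b - a) / 2) := by
    intro a b hab hba
    have : 0 < Real.sin ((b - a) / 2) := Real.sin_pos_of_pos_of_lt_pi (by linarith) (by linarith)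
    positivity
  -- angle at the corner (1,1)
  obtain ⟨k0, hk0⟩ : ∃ k : ℤ, θ0 (1, 1) = ((t1 + t2) / 2 - Real.pi / 2) + 2 * Real.pi * k := by
    obtain ⟨r, hr, e1, e2⟩ := hr0 (1, 1)
    have e1' : (g (c 1) - h (c 1)).re = r * Real.cos (θ0 (1, 1)) := e1
    have e2' : (g (c 1) - h (c 1)).im = r * Real.sin (θ0 (1, 1)) := e2
    rw [hc1, g1, h1, Complex.sub_re, cre, cre, (chord_aux R t1 t2).1] at e1'
    rw [hc1, g1, h1, Complex.sub_im, cim, cim, (chord_aux R t1 t2).2] at e2'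
    exact angle_eq_aux hr (hs t1 t2 h12 (by linarith)) e1'.symm e2'.symm
  obtain ⟨θ, hθ, hr, h11⟩ : ∃ θ : ℝ × ℝ → ℝ, Continuous θ ∧ (∀ s t, ∃ r : ℝ, 0 < r ∧
      (g (c s) - h (c t)).re = r * Real.cos (θ (s, t)) ∧
      (g (c s) - h (c t)).im = r * Real.sin (θ (s, t))) ∧
      θ (1, 1) = (t1 + t2) / 2 - Real.pi / 2 := by
    refine ⟨fun p => θ0 p - k0 * (2 * Real.pi), hθ0.sub continuous_const, ?_, ?_⟩
    · intro s t
      obtain ⟨r, hr, e1, e2⟩ := hr0 (s, t)
      refine ⟨r, hr, ?_, ?_⟩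
      · rw [Real.cos_sub_int_mul_two_pi]
        exact e1
      · rw [Real.sin_sub_int_mul_two_pi]
        exact e2
    · show θ0 (1, 1) - k0 * (2 * Real.pi) = _
      rw [hk0]
      ring
  -- edges
  have edge1 : ∀ t, 0 < Real.cos (θ (1, t) - t1) := by
    intro t
    obtain ⟨r, hr, e1, e2⟩ := hr 1 t
    have hd := disc_aux hR (bh _ (hcm t)) t1 (by
      rw [← g1]
      intro h
      exact hF 1 t (by rw [hc1]; exact h.symm))
    rw [hc1, g1, Complex.sub_re, cre] at e1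
    rw [hc1, g1, Complex.sub_im, cim] at e2
    have h2 := Real.sin_sq_add_cos_sq t1
    have e3 : r * Real.cos (θ (1, t) - t1) =
        R - ((h (c t)).re * Real.cos t1 + (h (c t)).im * Real.sin t1) := by
      rw [Real.cos_sub]
      linear_combination (-Real.cos t1) * e1 - Real.sin t1 * e2 + R * h2
    by_contra hle
    push Not at hle
    nlinarith
  have edge3 : ∀ t, 0 < Real.cos (θ (0, t) - t3) := by
    intro t
    obtain ⟨r, hr, e1, e2⟩ := hr 0 t
    have hd := disc_aux hR (bh _ (hcm t)) t3 (by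
      rw [← g0]
      intro h
      exact hF 0 t (by rw [hc0]; exact h.symm))
    rw [hc0, g0, Complex.sub_re, cre] at e1
    rw [hc0, g0, Complex.sub_im, cim] at e2
    have h2 := Real.sin_sq_add_cos_sq t3
    have e3 : r * Real.cos (θ (0, t) - t3) =
        R - ((h (c t)).re * Real.cos t3 + (h (c t)).im * Real.sin t3) := by
      rw [Real.cos_sub]
      linear_combination (-Real.cos t3) * e1 - Real.sin t3 * e2 + R * h2
    by_contra hle
    push Not at hle
    nlinarith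
  have edge2 : ∀ s, Real.cos (θ (s, 1) - t2) < 0 := by
    intro s
    obtain ⟨r, hr, e1, e2⟩ := hr s 1
    have hd := disc_aux hR (bg _ (hcm s)) t2 (by
      rw [← h1]
      intro h
      exact hF s 1 (by rw [hc1]; exact h))
    rw [hc1, h1, Complex.sub_re, cre] at e1
    rw [hc1, h1, Complex.sub_im, cim] at e2
    have h2 := Real.sin_sq_add_cos_sq t2
    have e3 : r * Real.cos (θ (s, 1) - t2) =
        ((g (c s)).re * Real.cos t2 + (g (c s)).im * Real.sin t2) - R := by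
      rw [Real.cos_sub]
      linear_combination (-Real.cos t2) * e1 - Real.sin t2 * e2 - R * h2
    by_contra hle
    push Not at hle
    nlinarith [mul_nonneg hr.le hle]
  have edge4 : ∀ s, Real.cos (θ (s, 0) - t4) < 0 := by
    intro s
    obtain ⟨r, hr, e1, e2⟩ := hr s 0
    have hd := disc_aux hR (bg _ (hcm s)) t4 (by
      rw [← h0]
      intro h
      exact hF s 0 (by rw [hc0]; exact h))
    rw [hc0, h0, Complex.sub_re, cre] at e1
    rw [hc0, h0, Complex.sub_im, cim] at e2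
    have h2 := Real.sin_sq_add_cos_sq t4
    have e3 : r * Real.cos (θ (s, 0) - t4) =
        ((g (c s)).re * Real.cos t4 + (g (c s)).im * Real.sin t4) - R := by
      rw [Real.cos_sub]
      linear_combination (-Real.cos t4) * e1 - Real.sin t4 * e2 - R * h2
    by_contra hle
    push Not at hle
    nlinarith [mul_nonneg hr.le hle]
  -- corners
  have corner01 : ∃ k : ℤ, θ (0, 1) = ((t2 + t3) / 2 - 3 * Real.pi / 2) + 2 * Real.pi * k := by
    obtain ⟨r, hr, e1, e2⟩ := hr 0 1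
    rw [hc0, hc1, g0, h1, Complex.sub_re, cre, cre] at e1
    rw [hc0, hc1, g0, h1, Complex.sub_im, cim, cim] at e2
    have c1 := (chord_aux R t2 t3).1
    have c2 := (chord_aux R t2 t3).2
    have hx : (t2 + t3) / 2 - 3 * Real.pi / 2 = ((t2 + t3) / 2 - Real.pi / 2) - Real.pi := by ring
    rw [hx]
    refine angle_eq_aux hr (hs t2 t3 h23 (by linarith)) ?_ ?_
    · rw [Real.cos_sub_pi]
      linarith
    · rw [Real.sin_sub_pi]
      linarith
  have corner00 : ∃ k : ℤ, θ (0, 0) = ((t3 + t4) / 2 - 5 * Real.pi / 2) + 2 * Real.pi * k := by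
    obtain ⟨r, hr, e1, e2⟩ := hr 0 0
    rw [hc0, g0, h0, Complex.sub_re, cre, cre] at e1
    rw [hc0, g0, h0, Complex.sub_im, cim, cim] at e2
    have c1 := (chord_aux R t3 t4).1
    have c2 := (chord_aux R t3 t4).2
    have hx : (t3 + t4) / 2 - 5 * Real.pi / 2 = ((t3 + t4) / 2 - Real.pi / 2) - 2 * Real.pi := by
      ring
    rw [hx]
    refine angle_eq_aux hr (hs t3 t4 h34 (by linarith)) ?_ ?_
    · rw [Real.cos_sub_two_pi]
      linarith
    · rw [Real.sin_sub_two_pi]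
      linarith
  have corner10 : ∃ k : ℤ, θ (1, 0) = ((t1 + t4) / 2 - 5 * Real.pi / 2) + 2 * Real.pi * k := by
    obtain ⟨r, hr, e1, e2⟩ := hr 1 0
    rw [hc0, hc1, g1, h0, Complex.sub_re, cre, cre] at e1
    rw [hc0, hc1, g1, h0, Complex.sub_im, cim, cim] at e2
    have c1 := (chord_aux R t1 t4).1
    have c2 := (chord_aux R t1 t4).2
    have hx : (t1 + t4) / 2 - 5 * Real.pi / 2 = ((t1 + t4) / 2 - Real.pi / 2) - 2 * Real.pi := by
      ring
    rw [hx]
    refine angle_eq_aux hr (hs t1 t4 (by linarith) (by linarith)) ?_ ?_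
    · rw [Real.cos_sub_two_pi]
      linarith
    · rw [Real.sin_sub_two_pi]
      linarith
  -- going around
  have i1 := edge_aux (θ := fun s => θ (s, 1)) (hθ.comp (continuous_id.prodMk continuous_const))
    (t2 - Real.pi) (fun s => by
      have e : θ (s, 1) - (t2 - Real.pi) = θ (s, 1) - t2 + Real.pi := by ring
      rw [e, Real.cos_add_pi]
      linarith [edge2 s]) 1 0 (by
      show t2 - Real.pi - Real.pi / 2 < θ (1, 1) ∧ θ (1, 1) < t2 - Real.pi + Real.pi / 2
      rw [h11]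
      constructor <;> linarith)
  have v01 : θ (0, 1) = (t2 + t3) / 2 - 3 * Real.pi / 2 :=
    corner_aux corner01 i1 ⟨by linarith, by linarith⟩
  have i2 := edge_aux (θ := fun t => θ (0, t)) (hθ.comp (continuous_const.prodMk continuous_id))
    (t3 - 2 * Real.pi) (fun t => by
      have e : θ (0, t) - (t3 - 2 * Real.pi) = θ (0, t) - t3 + 2 * Real.pi := by ring
      rw [e, Real.cos_add_two_pi]
      exact edge3 t) 1 0 (by
      show t3 - 2 * Real.pi - Real.pi / 2 < θ (0, 1) ∧ θ (0, 1) < t3 - 2 * Real.pi + Real.pi / 2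
      rw [v01]
      constructor <;> linarith)
  have v00 : θ (0, 0) = (t3 + t4) / 2 - 5 * Real.pi / 2 :=
    corner_aux corner00 i2 ⟨by linarith, by linarith⟩
  have i3 := edge_aux (θ := fun s => θ (s, 0)) (hθ.comp (continuous_id.prodMk continuous_const))
    (t4 - 3 * Real.pi) (fun s => by
      have e : θ (s, 0) - (t4 - 3 * Real.pi) = (θ (s, 0) - t4 + Real.pi) + 2 * Real.pi := by ring
      rw [e, Real.cos_add_two_pi, Real.cos_add_pi]
      linarith [edge4 s]) 0 1 (by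
      show t4 - 3 * Real.pi - Real.pi / 2 < θ (0, 0) ∧ θ (0, 0) < t4 - 3 * Real.pi + Real.pi / 2
      rw [v00]
      constructor <;> linarith)
  have v10 : θ (1, 0) = (t1 + t4) / 2 - 5 * Real.pi / 2 :=
    corner_aux corner10 i3 ⟨by linarith, by linarith⟩
  have i4 := edge_aux (θ := fun t => θ (1, t)) (hθ.comp (continuous_const.prodMk continuous_id))
    (t1 - 2 * Real.pi) (fun t => by
      have e : θ (1, t) - (t1 - 2 * Real.pi) = θ (1, t) - t1 + 2 * Real.pi := by ring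
      rw [e, Real.cos_add_two_pi]
      exact edge1 t) 0 1 (by
      show t1 - 2 * Real.pi - Real.pi / 2 < θ (1, 0) ∧ θ (1, 0) < t1 - 2 * Real.pi + Real.pi / 2
      rw [v10]
      constructor <;> linarith)
  have h9 : θ (1, 1) < t1 - 2 * Real.pi + Real.pi / 2 := i4.2
  rw [h11] at h9
  linarith

end Pool.Agent.Helper968.SC.J1
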