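import Mathlib
import Pool.Agent.Helper968.SC.Base
set_option autoImplicit false
open Set Metric
namespace Pool.Agent.Helper968.SC.J2

theorem rc_norm_sq (α s σ : ℝ) : ‖ray α s σ‖ ^ 2 = σ ^ 2 + s ^ 2 := by
  unfold ray
  rw [norm_mul, Complex.norm_exp_ofReal_mul_I, one_mul, ← Complex.normSq_eq_norm_sq,
    Complex.normSq_add_mul_I]

theorem rc_norm_le {α s σ R : ℝ} (hR : 0 ≤ R) (h : σ ^ 2 + s ^ 2 ≤ R ^ 2) :
    ‖ray α s σ‖ ≤ R := by
  rw [← rc_norm_sq α s σ] at h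
  exact (pow_le_pow_iff_left₀ (norm_nonneg _) hR two_ne_zero).mp h

theorem rc_end {a s R : ℝ} (hR : 0 < R) (hs : |s| < R) :
    ray a s (√(R ^ 2 - s ^ 2)) =
      R * Complex.exp (((a + Real.arcsin (s / R) : ℝ) : ℂ) * Complex.I) := by
  have h1 : |s / R| ≤ 1 := by
    rw [abs_div, abs_of_pos hR, div_le_one hR]
    exact hs.le
  have h2 := abs_le.mp h1
  have hsin : Real.sin (Real.arcsin (s / R)) = s / R := Real.sin_arcsin h2.1 h2.2
  have hcos : Real.cos (Real.arcsin (s / R)) = √(1 - (s / R) ^ 2) := Real.cos_arcsin _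
  have hsq : √(R ^ 2 - s ^ 2) = R * √(1 - (s / R) ^ 2) := by
    have e : R ^ 2 - s ^ 2 = R ^ 2 * (1 - (s / R) ^ 2) := by
      field_simp
    rw [e, Real.sqrt_mul (sq_nonneg R), Real.sqrt_sq hR.le]
  have he : ((a + Real.arcsin (s / R) : ℝ) : ℂ) * Complex.I =
      (a : ℂ) * Complex.I + ((Real.arcsin (s / R) : ℝ) : ℂ) * Complex.I := by
    push_cast
    ring
  have hR' : (R : ℂ) ≠ 0 := by exact_mod_cast hR.ne'
  unfold ray
  rw [he, Complex.exp_add, Complex.exp_mul_I ((Real.arcsin (s / R) : ℝ) : ℂ),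
    ← Complex.ofReal_cos, ← Complex.ofReal_sin, hsin, hcos, hsq]
  push_cast
  field_simp

theorem rc_arcsin_tendsto (s : ℝ) :
    Filter.Tendsto (fun R : ℝ => Real.arcsin (s / R)) Filter.atTop (nhds 0) := by
  have h1 : Filter.Tendsto (fun R : ℝ => s / R) Filter.atTop (nhds 0) :=
    tendsto_const_nhds.div_atTop Filter.tendsto_id
  have h2 := (Real.continuous_arcsin.tendsto 0).comp h1
  rwa [Real.arcsin_zero] at h2

theorem rc_order {a s a' s' : ℝ} (h : a < a' ∨ (a = a' ∧ s < s')) :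
    ∀ᶠ R : ℝ in Filter.atTop, a + Real.arcsin (s / R) < a' + Real.arcsin (s' / R) := by
  rcases h with h | ⟨rfl, h⟩
  · have h1 : Filter.Tendsto (fun R : ℝ => a + Real.arcsin (s / R)) Filter.atTop (nhds (a + 0)) :=
      tendsto_const_nhds.add (rc_arcsin_tendsto s)
    have h2 : Filter.Tendsto (fun R : ℝ => a' + Real.arcsin (s' / R)) Filter.atTop
        (nhds (a' + 0)) := tendsto_const_nhds.add (rc_arcsin_tendsto s')
    exact h1.eventually_lt h2 (by linarith)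
  · filter_upwards [Filter.eventually_gt_atTop |s|, Filter.eventually_gt_atTop |s'|,
      Filter.eventually_gt_atTop 0] with R h1 h2 h3
    have h4 : ∀ u : ℝ, |u| < R → u / R ∈ Icc (-1 : ℝ) 1 := by
      intro u hu
      have : |u / R| ≤ 1 := by
        rw [abs_div, abs_of_pos h3, div_le_one h3]
        exact hu.le
      exact abs_le.mp this
    have h5 : s / R < s' / R := div_lt_div_of_pos_right h h3
    have := Real.strictMonoOn_arcsin (h4 s h1) (h4 s' h2) h5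
    linarith

theorem rc_ray_cont (α s : ℝ) : Continuous (ray α s) := by
  unfold ray
  fun_prop

/-- moving along the ray -/
theorem rc_joined {G : Set ℂ} {α s T σ₀ σ₁ R : ℝ} (hR : 0 ≤ R) (hT : ∀ σ : ℝ, T ≤ σ → ray α s σ ∈ G)
    (h0 : 0 ≤ σ₀) (h1 : T ≤ σ₀) (h2 : σ₀ ≤ σ₁) (h3 : σ₁ ^ 2 + s ^ 2 ≤ R ^ 2) :
    JoinedIn (G ∩ closedBall 0 R) (ray α s σ₀) (ray α s σ₁) := by
  have hpc : IsPathConnected (Icc σ₀ σ₁) := (convex_Icc σ₀ σ₁).isPathConnected ⟨σ₀, le_rfl, h2⟩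
  have him := hpc.image (rc_ray_cont α s)
  have hJ := him.joinedIn (ray α s σ₀) ⟨σ₀, ⟨le_rfl, h2⟩, rfl⟩ (ray α s σ₁) ⟨σ₁, ⟨h2, le_rfl⟩, rfl⟩
  refine hJ.mono ?_
  rintro _ ⟨σ, hσ, rfl⟩
  refine ⟨hT σ (h1.trans hσ.1), ?_⟩
  rw [mem_closedBall_zero_iff]
  refine rc_norm_le hR ?_
  have h5 : 0 ≤ σ := h0.trans hσ.1
  have h6 : σ ^ 2 ≤ σ₁ ^ 2 := pow_le_pow_left₀ h5 hσ.2 2
  linarith

theorem rc_bdd {G : Set ℂ} {x y : ℂ} (h : JoinedIn G x y) :
    ∀ᶠ R : ℝ in Filter.atTop, JoinedIn (G ∩ closedBall 0 R) x y := by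
  have hc : IsCompact (range h.somePath) := isCompact_range h.somePath.continuous
  obtain ⟨R1, hR1⟩ := hc.isBounded.subset_closedBall 0
  filter_upwards [Filter.eventually_ge_atTop R1] with R hR
  exact ⟨h.somePath, fun t => ⟨h.somePath_mem t,
    closedBall_subset_closedBall hR (hR1 (mem_range_self t))⟩⟩

/-- joining the ends of two rays -/
theorem rc_two {G : Set ℂ} (hGo : IsOpen G) (hG : IsConnected G) {a s a' s' : ℝ}
    (r : EvIn G a s) (r' : EvIn G a' s') :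
    ∀ᶠ R : ℝ in Filter.atTop, JoinedIn (G ∩ closedBall 0 R)
      (R * Complex.exp (((a + Real.arcsin (s / R) : ℝ) : ℂ) * Complex.I))
      (R * Complex.exp (((a' + Real.arcsin (s' / R) : ℝ) : ℂ) * Complex.I)) := by
  obtain ⟨T, hT⟩ := r
  obtain ⟨T', hT'⟩ := r'
  set T0 : ℝ := max 0 (max T T') with hT0
  have h0 : 0 ≤ T0 := le_max_left _ _
  have h1 : T ≤ T0 := (le_max_left _ _).trans (le_max_right _ _)
  have h2 : T' ≤ T0 := (le_max_right _ _).trans (le_max_right _ _)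
  have hpc : IsPathConnected G := hGo.isConnected_iff_isPathConnected.mp hG
  have hJ := hpc.joinedIn (ray a s T0) (hT T0 h1) (ray a' s' T0) (hT' T0 h2)
  have hbound : ∀ u : ℝ, ∀ᶠ R : ℝ in Filter.atTop, |u| < R ∧ T0 ≤ √(R ^ 2 - u ^ 2) := by
    intro u
    filter_upwards [Filter.eventually_gt_atTop |u|, Filter.eventually_ge_atTop (T0 + |u|)] with
      R h3 h4
    refine ⟨h3, ?_⟩
    apply Real.le_sqrt_of_sq_le
    have h5 : |u| ^ 2 = u ^ 2 := sq_abs u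
    have h6 := abs_nonneg u
    have h7 : (T0 + |u|) ^ 2 ≤ R ^ 2 := pow_le_pow_left₀ (by linarith) h4 2
    have h8 : 0 ≤ T0 * |u| := mul_nonneg h0 h6
    nlinarith
  filter_upwards [rc_bdd hJ, hbound s, hbound s', Filter.eventually_gt_atTop 0] with R hb hs hs' hR
  have hsq : ∀ u : ℝ, |u| < R → (√(R ^ 2 - u ^ 2)) ^ 2 + u ^ 2 ≤ R ^ 2 := by
    intro u hu
    have h5 : |u| ^ 2 = u ^ 2 := sq_abs u
    have h6 : |u| ^ 2 ≤ R ^ 2 := pow_le_pow_left₀ (abs_nonneg u) hu.le 2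
    rw [Real.sq_sqrt (by linarith)]
    linarith
  have j1 := rc_joined hR.le hT h0 h1 hs.2 (hsq s hs.1)
  have j2 := rc_joined hR.le hT' h0 h2 hs'.2 (hsq s' hs'.1)
  rw [rc_end hR hs.1] at j1
  rw [rc_end hR hs'.1] at j2
  exact (j1.symm.trans hb).trans j2

/-- Two disjoint connected open sets cannot contain the ends of alternating rays. -/
theorem rays_cross
    (disc_cross : ∀ (R : ℝ), 0 < R → ∀ (t1 t2 t3 t4 : ℝ), t1 < t2 → t2 < t3 → t3 < t4 →
      t4 < t1 + 2 * Real.pi → ∀ (g h : ℝ → ℂ), Continuous g → Continuous h →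
      (∀ t ∈ Icc (0:ℝ) 1, ‖g t‖ ≤ R) → (∀ t ∈ Icc (0:ℝ) 1, ‖h t‖ ≤ R) →
      g 0 = R * Complex.exp (t3 * Complex.I) → g 1 = R * Complex.exp (t1 * Complex.I) →
      h 0 = R * Complex.exp (t4 * Complex.I) → h 1 = R * Complex.exp (t2 * Complex.I) →
      ∃ s ∈ Icc (0:ℝ) 1, ∃ t ∈ Icc (0:ℝ) 1, g s = h t)
    (G H : Set ℂ) (hGo : IsOpen G) (hHo : IsOpen H) (hG : IsConnected G) (hH : IsConnected H)
    (hd : Disjoint G H) (a1 s1 a2 s2 a3 s3 a4 s4 : ℝ)
    (h12 : a1 < a2 ∨ (a1 = a2 ∧ s1 < s2)) (h23 : a2 < a3 ∨ (a2 = a3 ∧ s2 < s3))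
    (h34 : a3 < a4 ∨ (a3 = a4 ∧ s3 < s4))
    (h41 : a4 < a1 + 2 * Real.pi ∨ (a4 = a1 + 2 * Real.pi ∧ s4 < s1))
    (r1 : EvIn G a1 s1) (r2 : EvIn H a2 s2) (r3 : EvIn G a3 s3) (r4 : EvIn H a4 s4) : False := by
  obtain ⟨R, jG, jH, o12, o23, o34, o41, hR⟩ := ((rc_two hGo hG r3 r1).and
    ((rc_two hHo hH r4 r2).and ((rc_order h12).and ((rc_order h23).and ((rc_order h34).and
      ((rc_order h41).and (Filter.eventually_gt_atTop (0 : ℝ)))))))).exists
  have hmem : ∀ {K : Set ℂ} {x y : ℂ} (J : JoinedIn (K ∩ closedBall 0 R) x y),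
      ∀ t ∈ Icc (0 : ℝ) 1, J.somePath.extend t ∈ K ∩ closedBall 0 R := by
    intro K x y J t ht
    rw [Path.extend_apply _ ht]
    exact J.somePath_mem _
  obtain ⟨u, hu, v, hv, huv⟩ := disc_cross R hR _ _ _ _ o12 o23 o34 (by linarith)
    jG.somePath.extend jH.somePath.extend jG.somePath.continuous_extend
    jH.somePath.continuous_extend
    (fun t ht => by
      have := (hmem jG t ht).2
      rwa [mem_closedBall_zero_iff] at this)
    (fun t ht => by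
      have := (hmem jH t ht).2
      rwa [mem_closedBall_zero_iff] at this)
    jG.somePath.extend_zero jG.somePath.extend_one jH.somePath.extend_zero
    jH.somePath.extend_one
  have e1 := (hmem jG u hu).1
  have e2 := (hmem jH v hv).1
  rw [huv] at e1
  exact (Set.disjoint_left.mp hd) e1 e2

end Pool.Agent.Helper968.SC.J2
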