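import Mathlib
import Pool.Agent.Helper968.SC.Base
set_option autoImplicit false
open Set Metric
namespace Pool.Agent.Helper968.SC.J3

theorem j8345_g_re (α : ℝ) : (Complex.exp (α * Complex.I)).re = Real.cos α := Complex.exp_ofReal_mul_I_re α
theorem j8345_g_im (α : ℝ) : (Complex.exp (α * Complex.I)).im = Real.sin α := Complex.exp_ofReal_mul_I_im α

theorem j8345_per (α : ℝ) (k : ℤ) :
    Complex.exp (((α - k * (2 * Real.pi) : ℝ) : ℂ) * Complex.I) = Complex.exp (α * Complex.I) := by
  apply Complex.ext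
  · rw [j8345_g_re, j8345_g_re, Real.cos_sub_int_mul_two_pi]
  · rw [j8345_g_im, j8345_g_im, Real.sin_sub_int_mul_two_pi]

/-- linear form used for the half circle -/
noncomputable def j8345_ip (β : ℝ) (z : ℂ) : ℝ := Real.sin β * z.re - Real.cos β * z.im

theorem j8345_ip_le (β : ℝ) (z : ℂ) : |j8345_ip β z| ≤ ‖z‖ := by
  rw [Complex.norm_def]
  apply Real.abs_le_sqrt
  rw [Complex.normSq_apply]
  unfold j8345_ip
  have h := Real.sin_sq_add_cos_sq β
  have h2 : z.re * z.re + z.im * z.im - (Real.sin β * z.re - Real.cos β * z.im) ^ 2 =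
      (Real.cos β * z.re + Real.sin β * z.im) ^ 2 := by
    have h3 : z.re * z.re + z.im * z.im = (z.re * z.re + z.im * z.im) * (Real.sin β ^ 2 + Real.cos β ^ 2) := by
      rw [h, mul_one]
    rw [h3]; ring
  nlinarith [sq_nonneg (Real.cos β * z.re + Real.sin β * z.im)]

theorem j8345_ip_cont (β : ℝ) : Continuous (j8345_ip β) := by
  unfold j8345_ip
  exact (continuous_const.mul Complex.continuous_re).sub (continuous_const.mul Complex.continuous_im)

theorem j8345_ip_div (β : ℝ) (z : ℂ) (r : ℝ) : j8345_ip β (z / (r : ℂ)) = j8345_ip β z / r := by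
  unfold j8345_ip
  rw [Complex.div_ofReal_re, Complex.div_ofReal_im]
  ring

theorem j8345_ip_exp (β a : ℝ) : j8345_ip β (Complex.exp (a * Complex.I)) = - Real.sin (a - β) := by
  unfold j8345_ip
  rw [j8345_g_re, j8345_g_im, Real.sin_sub a β]
  ring

/-- a unit vector in the closed half circle is `exp (i α)` with `α` in the interval -/
theorem j8345_half (β : ℝ) (u : ℂ) (hu : ‖u‖ = 1) (hip : j8345_ip β u ≤ 0) :
    ∃ α ∈ Icc β (β + Real.pi), Complex.exp (α * Complex.I) = u := by
  have hpi := Real.pi_pos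
  have h0 : Complex.exp (Complex.arg u * Complex.I) = u := by
    have := Complex.norm_mul_exp_arg_mul_I u
    rwa [hu, Complex.ofReal_one, one_mul] at this
  set α0 := Complex.arg u with hα0
  set k : ℤ := ⌊(α0 - β) / (2 * Real.pi)⌋ with hk
  have hk1 : (k : ℝ) * (2 * Real.pi) ≤ α0 - β := by
    have := Int.floor_le ((α0 - β) / (2 * Real.pi))
    rwa [le_div_iff₀ (by positivity)] at this
  have hk2 : α0 - β < ((k : ℝ) + 1) * (2 * Real.pi) := by
    have := Int.lt_floor_add_one ((α0 - β) / (2 * Real.pi))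
    rwa [div_lt_iff₀ (by positivity)] at this
  have hg : Complex.exp (((α0 - k * (2 * Real.pi) : ℝ) : ℂ) * Complex.I) = u := by
    rw [j8345_per, h0]
  refine ⟨α0 - k * (2 * Real.pi), ⟨by linarith, ?_⟩, hg⟩
  by_contra hcon
  push Not at hcon
  set α : ℝ := α0 - k * (2 * Real.pi) with hα
  have h1 : j8345_ip β u = - Real.sin (α - β) := by
    rw [← hg]
    exact j8345_ip_exp β α
  have h2 : 0 < Real.sin (α - β - Real.pi) :=
    Real.sin_pos_of_pos_of_lt_pi (by linarith) (by linarith)
  rw [Real.sin_sub_pi] at h2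
  linarith

/-- the coordinates of a far point with direction close to `exp (i α)` -/
theorem j8345_coord (α : ℝ) (z : ℂ) (hz : 0 < ‖z‖) {ε : ℝ} 
    (h : ‖z / (‖z‖ : ℂ) - Complex.exp (α * Complex.I)‖ < ε) :
    ∃ s σ : ℝ, z = ray α s σ ∧ ‖z‖ * (1 - ε) < σ ∧ |s| < ‖z‖ * ε := by
  set w : ℂ := z * Complex.exp (-(α * Complex.I)) with hw
  have hne : (‖z‖ : ℂ) ≠ 0 := by exact_mod_cast hz.ne'
  have hexp : Complex.exp (α * Complex.I) * Complex.exp (-(α * Complex.I)) = 1 := by
    rw [← Complex.exp_add, add_neg_cancel, Complex.exp_zero]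
  have hzw : z = ray α w.im w.re := by
    unfold ray
    rw [Complex.re_add_im, hw]
    calc z = z * (Complex.exp (α * Complex.I) * Complex.exp (-(α * Complex.I))) := by rw [hexp, mul_one]
      _ = _ := by ring
  have hn1 : ‖Complex.exp (-(α * Complex.I))‖ = 1 := by
    have : (-(α * Complex.I) : ℂ) = ((-α : ℝ) : ℂ) * Complex.I := by push_cast; ring
    rw [this, Complex.norm_exp_ofReal_mul_I]
  have h1 : ‖w / (‖z‖ : ℂ) - 1‖ < ε := by
    have e1 : w / (‖z‖ : ℂ) - 1 = (z / (‖z‖ : ℂ) - Complex.exp (α * Complex.I)) * Complex.exp (-(α * Complex.I)) := by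
      rw [sub_mul, hexp, hw]; ring
    rw [e1, norm_mul, hn1, mul_one]
    exact h
  have h2 := lt_of_le_of_lt (Complex.abs_re_le_norm _) h1
  have h3 := lt_of_le_of_lt (Complex.abs_im_le_norm _) h1
  rw [Complex.sub_re, Complex.div_ofReal_re, Complex.one_re] at h2
  rw [Complex.sub_im, Complex.div_ofReal_im, Complex.one_im, sub_zero, abs_div, abs_of_pos hz,
    div_lt_iff₀ hz] at h3
  refine ⟨w.im, w.re, hzw, ?_, by linarith⟩
  have h4 := (abs_lt.1 h2).1
  have h5 : 1 - ε < w.re / ‖z‖ := by linarith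
  rw [lt_div_iff₀ hz] at h5
  linarith

/-- The directions of the near-maximal points of a component of `{f > c}` meet every closed half
circle, and every such direction carries a ray of the component. -/
theorem wide (f : ℂ → ℝ) (hf : Continuous f) (B : ℝ) (hB : ∀ z, |f z| ≤ B)
    (NC : ∀ (U : Set ℂ) (a b c : ℝ), IsOpen U → Bornology.IsBounded U →
      (∀ z ∈ frontier U, f z ≤ a * z.re + b * z.im + c) →
      ∀ z ∈ U, f z ≤ a * z.re + b * z.im + c)
    (F : ℝ → ℝ → ℝ)
    (AS : ∀ α : ℝ, ∀ δ > 0, ∃ T > 0, ∃ ε > 0, ∀ σ : ℝ, T ≤ σ → ∀ s : ℝ, |s| ≤ ε * σ →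
      |f (ray α s σ) - F α s| < δ)
    (c : ℝ) (G : Set ℂ) (hGo : IsOpen G) (hGn : G.Nonempty) (hG1 : ∀ z ∈ G, c < f z)
    (hG2 : ∀ z ∈ frontier G, f z ≤ c) :
    ∃ A : Set ℝ, IsClosed A ∧ (∀ α ∈ A, α + 2 * Real.pi ∈ A) ∧ (∀ α ∈ A, α - 2 * Real.pi ∈ A) ∧
      (∀ β : ℝ, ∃ α ∈ A, α ∈ Icc β (β + Real.pi)) ∧
      (∀ α ∈ A, ∃ s : ℝ, c < F α s ∧ EvIn G α s) := by
  classical
  set M := sSup (f '' G) with hM
  have hbdd : BddAbove (f '' G) := ⟨B, by rintro _ ⟨z, _, rfl⟩; exact (abs_le.1 (hB z)).2⟩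
  have hfM : ∀ z ∈ G, f z ≤ M := fun z hz => le_csSup hbdd ⟨z, hz, rfl⟩
  have hcM : c < M := by
    obtain ⟨z0, hz0⟩ := hGn
    exact lt_of_lt_of_le (hG1 z0 hz0) (hfM z0 hz0)
  have hexM : ∀ t < M, ∃ z ∈ G, t < f z := by
    intro t ht
    obtain ⟨_, ⟨z, hz, rfl⟩, h⟩ := exists_lt_of_lt_csSup (hGn.image f) ht
    exact ⟨z, hz, h⟩
  let E : Set ℂ := {u | ∀ ε > 0, ∀ R : ℝ, ∃ z ∈ G, R < ‖z‖ ∧ ‖z / (‖z‖ : ℂ) - u‖ < ε ∧ M - ε < f z}
  have hE : IsClosed E := by
    rw [← closure_subset_iff_isClosed]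
    intro u hu ε hε R
    obtain ⟨u', hu', hd⟩ := Metric.mem_closure_iff.1 hu (ε / 2) (half_pos hε)
    obtain ⟨z, hz, h1, h2, h3⟩ := hu' (ε / 2) (half_pos hε) R
    refine ⟨z, hz, h1, ?_, by linarith⟩
    rw [dist_comm, dist_eq_norm] at hd
    have h4 := norm_sub_le_norm_sub_add_norm_sub (z / (‖z‖ : ℂ)) u' u
    linarith
  have hg : Continuous (fun α : ℝ => Complex.exp (α * Complex.I)) := by fun_prop
  refine ⟨(fun α : ℝ => Complex.exp (α * Complex.I)) ⁻¹' E, hE.preimage hg, ?_, ?_, ?_, ?_⟩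
  · intro α hα
    show Complex.exp (((α + 2 * Real.pi : ℝ) : ℂ) * Complex.I) ∈ E
    have h := j8345_per α (-1)
    have e : α - ((-1 : ℤ) : ℝ) * (2 * Real.pi) = α + 2 * Real.pi := by push_cast; ring
    rw [e] at h
    rw [h]
    exact hα
  · intro α hα
    show Complex.exp (((α - 2 * Real.pi : ℝ) : ℂ) * Complex.I) ∈ E
    have h := j8345_per α 1
    have e : α - ((1 : ℤ) : ℝ) * (2 * Real.pi) = α - 2 * Real.pi := by push_cast; ring
    rw [e] at h
    rw [h]
    exact hα
  · intro β
    by_contra hno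
    have hno' : ∀ u ∈ E, ‖u‖ = 1 → 0 < j8345_ip β u := by
      intro u hu hu1
      by_contra hcon
      obtain ⟨α, hα, hαu⟩ := j8345_half β u hu1 (not_lt.1 hcon)
      exact hno ⟨α, by show Complex.exp (α * Complex.I) ∈ E; rw [hαu]; exact hu, hα⟩
    -- the claim
    have hclaim : ∃ δ > 0, ∃ R > 0, ∀ z ∈ G, R < ‖z‖ → M - δ < f z → δ * ‖z‖ ≤ j8345_ip β z := by
      by_contra hcl
      push Not at hcl
      have hcl' : ∀ k : ℕ, ∃ z ∈ G, (k : ℝ) + 1 < ‖z‖ ∧ M - 1 / ((k : ℝ) + 1) < f z ∧
          j8345_ip β z < 1 / ((k : ℝ) + 1) * ‖z‖ := by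
        intro k
        obtain ⟨z, hz, h1, h2, h3⟩ := hcl (1 / ((k : ℝ) + 1)) (by positivity) ((k : ℝ) + 1) (by positivity)
        exact ⟨z, hz, h1, h2, h3⟩
      choose z hzG hzn hzf hzi using hcl'
      have hzpos : ∀ k, 0 < ‖z k‖ := fun k => lt_trans (by positivity) (hzn k)
      obtain ⟨u, hu, φ, hφ, hlim⟩ := (isCompact_sphere (0 : ℂ) 1).tendsto_subseq
        (x := fun k => z k / (‖z k‖ : ℂ)) (fun k => by
          rw [mem_sphere_zero_iff_norm, norm_div, Complex.norm_real, norm_norm,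
            div_self (hzpos k).ne'])
      have hu1 : ‖u‖ = 1 := by rwa [mem_sphere_zero_iff_norm] at hu
      have hφt : Filter.Tendsto (fun n => ((φ n : ℕ) : ℝ) + 1) Filter.atTop Filter.atTop :=
        Filter.tendsto_atTop_add_const_right _ _ (tendsto_natCast_atTop_atTop.comp hφ.tendsto_atTop)
      have hinv : Filter.Tendsto (fun n => 1 / (((φ n : ℕ) : ℝ) + 1)) Filter.atTop (nhds 0) := by
        have := hφt.inv_tendsto_atTop
        refine this.congr (fun n => ?_)
        rw [Pi.inv_apply, one_div]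
      have huE : u ∈ E := by
        intro ε hε R
        have e1 := (Metric.tendsto_nhds.1 hlim) ε hε
        have e2 := hinv.eventually (gt_mem_nhds hε)
        have e3 := hφt.eventually (Filter.eventually_gt_atTop R)
        obtain ⟨n, hn⟩ := ((e1.and e2).and e3).exists
        obtain ⟨⟨h1, h2⟩, h3⟩ := hn
        refine ⟨z (φ n), hzG _, lt_trans h3 (hzn _), ?_, ?_⟩
        · rw [← dist_eq_norm]; exact h1
        · have := hzf (φ n)
          linarith
      have hip0 : j8345_ip β u ≤ 0 := by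
        have e1 : Filter.Tendsto (fun n => j8345_ip β (z (φ n) / (‖z (φ n)‖ : ℂ))) Filter.atTop
            (nhds (j8345_ip β u)) := ((j8345_ip_cont β).tendsto u).comp hlim
        refine le_of_tendsto_of_tendsto' e1 hinv fun n => ?_
        rw [j8345_ip_div, div_le_iff₀ (hzpos _)]
        exact (hzi _).le
      exact absurd (hno' u huE hu1) (not_lt.2 hip0)
    obtain ⟨δ, hδ, R, hR, hcl⟩ := hclaim
    obtain ⟨c2, hc2, hc2M⟩ := exists_between (max_lt hcM (show M - δ < M by linarith))
    have hc2c : c < c2 := lt_of_le_of_lt (le_max_left _ _) hc2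
    have hc2δ : M - δ < c2 := lt_of_le_of_lt (le_max_right _ _) hc2
    -- the comparison
    have hcomp : ∀ η > 0, ∀ z ∈ G, c2 < f z → f z ≤ c2 + η * (j8345_ip β z + R) := by
      intro η hη
      set l : ℂ → ℝ := fun z => c2 + η * (j8345_ip β z + R) with hl
      have hlc : Continuous l := continuous_const.add (continuous_const.mul ((j8345_ip_cont β).add continuous_const))
      set U : Set ℂ := {z | z ∈ G ∧ c2 < f z ∧ l z < f z} with hU
      have hUo : IsOpen U := hGo.inter ((isOpen_lt continuous_const hf).inter (isOpen_lt hlc hf))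
      have hlow : ∀ z ∈ G, c2 < f z → c2 ≤ l z := by
        intro z hz hfz
        have h0 : 0 ≤ j8345_ip β z + R := by
          rcases le_or_gt ‖z‖ R with h | h
          · have := (abs_le.1 (j8345_ip_le β z)).1
            linarith
          · have h1 := hcl z hz h (by linarith)
            have h2 : 0 ≤ δ * ‖z‖ := by positivity
            linarith
        have : 0 ≤ η * (j8345_ip β z + R) := mul_nonneg hη.le h0
        show c2 ≤ c2 + η * (j8345_ip β z + R)
        linarith
      have hUb : Bornology.IsBounded U := by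
        refine (Metric.isBounded_closedBall (x := (0 : ℂ)) (r := max R ((M - c2) / (η * δ)))).subset ?_
        intro z hz
        rw [mem_closedBall_zero_iff]
        rcases le_or_gt ‖z‖ R with h | h
        · exact h.trans (le_max_left _ _)
        · refine le_trans ?_ (le_max_right _ _)
          rw [le_div_iff₀ (by positivity)]
          have h1 := hcl z hz.1 h (by linarith [hz.2.1])
          have h2 : c2 + η * (j8345_ip β z + R) < f z := hz.2.2
          have h3 := hfM z hz.1
          have h4 : η * (δ * ‖z‖) ≤ η * (j8345_ip β z + R) :=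
            mul_le_mul_of_nonneg_left (by linarith) hη.le
          nlinarith
      have hfr : ∀ z ∈ frontier U, f z ≤ l z := by
        intro z hz
        have hzc : z ∈ closure U := frontier_subset_closure hz
        have h1 : c2 ≤ f z := by
          have hcs : IsClosed {z | c2 ≤ f z} := isClosed_le continuous_const hf
          exact (closure_minimal (fun y hy => hy.2.1.le) hcs) hzc
        have h2 : c2 ≤ l z := by
          have hcs : IsClosed {z | c2 ≤ l z} := isClosed_le continuous_const hlc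
          exact (closure_minimal (fun y hy => hlow y hy.1 hy.2.1) hcs) hzc
        have h3 : z ∈ closure G := closure_mono (fun y hy => hy.1) hzc
        have h4 : z ∉ frontier G := fun h => absurd (hG2 z h) (not_le.2 (lt_of_lt_of_le hc2c h1))
        have h5 : z ∈ G := by
          have : z ∈ interior G := by
            by_contra hni
            exact h4 ⟨h3, hni⟩
          exact interior_subset this
        have h6 : z ∉ U := by
          intro h
          have : z ∈ interior U := by rwa [hUo.interior_eq]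
          exact hz.2 this
        by_contra hcon
        push Not at hcon
        exact h6 ⟨h5, lt_of_le_of_lt h2 hcon, hcon⟩
      have hNC := NC U (η * Real.sin β) (-(η * Real.cos β)) (c2 + η * R) hUo hUb (fun z hz => by
        have := hfr z hz
        have e : l z = η * Real.sin β * z.re + -(η * Real.cos β) * z.im + (c2 + η * R) := by
          show c2 + η * (Real.sin β * z.re - Real.cos β * z.im + R) = _
          ring
        rwa [e] at this)
      intro z hz hfz
      by_contra hcon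
      push Not at hcon
      have h1 := hNC z ⟨hz, hfz, hcon⟩
      have e : l z = η * Real.sin β * z.re + -(η * Real.cos β) * z.im + (c2 + η * R) := by
        show c2 + η * (Real.sin β * z.re - Real.cos β * z.im + R) = _
        ring
      rw [← e] at h1
      have h2 : l z < f z := hcon
      linarith
    obtain ⟨z, hz, hfz⟩ := hexM c2 hc2M
    have h1 := hcomp ((f z - c2) / (2 * (|j8345_ip β z + R| + 1)))
      (div_pos (by linarith) (by positivity)) z hz hfz
    have h2 : (f z - c2) / (2 * (|j8345_ip β z + R| + 1)) * (j8345_ip β z + R) ≤ (f z - c2) / 2 := by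
      have h3 : j8345_ip β z + R ≤ |j8345_ip β z + R| + 1 := by linarith [le_abs_self (j8345_ip β z + R)]
      have h4 : 0 < |j8345_ip β z + R| + 1 := by positivity
      rw [div_mul_eq_mul_div, div_le_div_iff₀ (by positivity) (by norm_num)]
      nlinarith [mul_le_mul_of_nonneg_left h3 (show 0 ≤ f z - c2 by linarith)]
    linarith
  · intro α hα
    have hα' : ∀ ε > 0, ∀ R : ℝ, ∃ z ∈ G, R < ‖z‖ ∧
      ‖z / (‖z‖ : ℂ) - Complex.exp (α * Complex.I)‖ < ε ∧ M - ε < f z := hα
    set δ : ℝ := (M - c) / 3 with hδ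
    have hδ0 : 0 < δ := by rw [hδ]; linarith
    obtain ⟨T, hT, ε', hε', hAS⟩ := AS α δ hδ0
    have hε0 : 0 < min (min (1 / 2) (ε' / 2)) δ := by positivity
    obtain ⟨z, hz, hzR, hzu, hzf⟩ := hα' (min (min (1 / 2) (ε' / 2)) δ) hε0 (2 * T)
    set ε : ℝ := min (min (1 / 2) (ε' / 2)) δ with hε
    have hε1 : ε ≤ 1 / 2 := (min_le_left _ _).trans (min_le_left _ _)
    have hε2 : ε ≤ ε' / 2 := (min_le_left _ _).trans (min_le_right _ _)
    have hε3 : ε ≤ δ := min_le_right _ _
    have hzpos : 0 < ‖z‖ := by linarith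
    obtain ⟨s, σ, hzs, hσ, hs⟩ := j8345_coord α z hzpos hzu
    have hσ2 : ‖z‖ / 2 < σ := by nlinarith
    have hσT : T ≤ σ := by linarith
    have hsσ : |s| ≤ ε' * σ := by
      have h1 : ‖z‖ * ε ≤ ‖z‖ * (ε' / 2) := mul_le_mul_of_nonneg_left hε2 hzpos.le
      have h2 : ε' * (‖z‖ / 2) ≤ ε' * σ := mul_le_mul_of_nonneg_left hσ2.le hε'.le
      linarith
    have hF1 := hAS σ hσT s hsσ
    rw [← hzs] at hF1
    have hF1' := abs_lt.1 hF1
    have hMδ : M - 3 * δ = c := by rw [hδ]; ring
    have hF : M - 2 * δ < F α s := by linarith [hF1'.1, hF1'.2]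
    refine ⟨s, by linarith, σ, ?_⟩
    have hray : ∀ σ', σ ≤ σ' → c < f (ray α s σ') := by
      intro σ' hσ'
      have h1 : |s| ≤ ε' * σ' := hsσ.trans (mul_le_mul_of_nonneg_left hσ' hε'.le)
      have h2 := abs_lt.1 (hAS σ' (hσT.trans hσ') s h1)
      linarith [h2.1, h2.2]
    have hcont : Continuous (fun σ' : ℝ => ray α s σ') := by
      unfold ray
      fun_prop
    have hpre : IsPreconnected ((fun σ' : ℝ => ray α s σ') '' Ici σ) :=
      (isPreconnected_Ici).image _ hcont.continuousOn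
    intro σ' hσ'
    by_contra hcon
    have hnf : ∀ τ, σ ≤ τ → ray α s τ ∉ frontier G := fun τ hτ h =>
      absurd (hG2 _ h) (not_le.2 (hray τ hτ))
    obtain ⟨y, _, hy1, hy2⟩ := hpre G (closure G)ᶜ hGo isClosed_closure.isOpen_compl
      (by
        rintro _ ⟨τ, hτ, rfl⟩
        by_cases h : ray α s τ ∈ G
        · exact Or.inl h
        · refine Or.inr (fun hc => hnf τ hτ ⟨hc, fun hi => h (interior_subset hi)⟩))
      ⟨ray α s σ, ⟨σ, Set.mem_Ici.2 le_rfl, rfl⟩, by rw [← hzs]; exact hz⟩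
      ⟨ray α s σ', ⟨σ', hσ', rfl⟩, fun hc => hnf σ' hσ' ⟨hc, fun hi => hcon (interior_subset hi)⟩⟩
    exact hy2 (subset_closure hy1)

end Pool.Agent.Helper968.SC.J3
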