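import Mathlib
import Pool.Agent.Helper968.SC.Base
set_option autoImplicit false
open Set Metric
namespace Pool.Agent.Helper968.SC.J4

theorem per_8346 (R : ℝ → ℝ → Prop) (per : ∀ α s, R (α + 2 * Real.pi) s ↔ R α s) (k : ℤ) :
    ∀ α s, R (α - 2 * Real.pi * k) s ↔ R α s := by
  induction k using Int.induction_on with
  | zero => intro α s; simp
  | succ n ih =>
    intro α s
    rw [← ih α s, ← per (α - 2 * Real.pi * (((n : ℤ) + 1 : ℤ) : ℝ)) s]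
    have : α - 2 * Real.pi * (((n : ℤ) + 1 : ℤ) : ℝ) + 2 * Real.pi = α - 2 * Real.pi * ((n : ℤ) : ℝ) := by
      push_cast; ring
    rw [this]
  | pred n ih =>
    intro α s
    rw [← ih α s, ← per (α - 2 * Real.pi * ((-(n : ℤ) : ℤ) : ℝ)) s]
    have : α - 2 * Real.pi * ((-(n : ℤ) - 1 : ℤ) : ℝ) = α - 2 * Real.pi * ((-(n : ℤ) : ℤ) : ℝ) + 2 * Real.pi := by
      push_cast; ring
    rw [this]

theorem inter_8346 (RG RH : ℝ → ℝ → Prop)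
    (noalt : ∀ a1 s1 a2 s2 a3 s3 a4 s4 : ℝ, (a1 < a2 ∨ (a1 = a2 ∧ s1 < s2)) →
      (a2 < a3 ∨ (a2 = a3 ∧ s2 < s3)) → (a3 < a4 ∨ (a3 = a4 ∧ s3 < s4)) →
      (a4 < a1 + 2 * Real.pi ∨ (a4 = a1 + 2 * Real.pi ∧ s4 < s1)) →
      RG a1 s1 → RH a2 s2 → RG a3 s3 → RH a4 s4 → False)
    (AG AH : Set ℝ) (cG : IsClosed AG) (cH : IsClosed AH)
    (pG : ∀ α ∈ AG, α + 2 * Real.pi ∈ AG)
    (pH' : ∀ α ∈ AH, α - 2 * Real.pi ∈ AH)
    (wG : ∀ β : ℝ, ∃ α ∈ AG, α ∈ Icc β (β + Real.pi))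
    (wH : ∀ β : ℝ, ∃ α ∈ AH, α ∈ Icc β (β + Real.pi))
    (sG : ∀ α ∈ AG, ∃ s, RG α s) (sH : ∀ α ∈ AH, ∃ s, RH α s) :
    ∃ ν, ν ∈ AG ∧ ν ∈ AH := by
  by_contra hno
  push Not at hno
  have hπ := Real.pi_pos
  obtain ⟨g0, hg0, -⟩ := wG 0
  have hg0' := pG g0 hg0
  have hcomp : IsCompact (AH ∩ Icc g0 (g0 + 2 * Real.pi)) := isCompact_Icc.inter_left cH
  have hne : (AH ∩ Icc g0 (g0 + 2 * Real.pi)).Nonempty := by
    obtain ⟨α, hα, hα2⟩ := wH g0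
    exact ⟨α, hα, hα2.1, by linarith [hα2.2]⟩
  obtain ⟨hm, hhm, hmin⟩ := hcomp.exists_isLeast hne
  obtain ⟨hp, hhp, hmax⟩ := hcomp.exists_isGreatest hne
  have hmp : hm ≤ hp := hmin hhp
  have h1 : g0 < hm := lt_of_le_of_ne hhm.2.1 (fun h => hno g0 hg0 (h ▸ hhm.1))
  have h2 : hp < g0 + 2 * Real.pi := lt_of_le_of_ne hhp.2.2 (fun h => hno _ hg0' (h ▸ hhp.1))
  have hA : ∀ g ∈ AG, hm < g → g < hp → False := by
    intro g hg hgm hgp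
    obtain ⟨s1, hs1⟩ := sG g0 hg0
    obtain ⟨s2, hs2⟩ := sH hm hhm.1
    obtain ⟨s3, hs3⟩ := sG g hg
    obtain ⟨s4, hs4⟩ := sH hp hhp.1
    exact noalt g0 s1 hm s2 g s3 hp s4 (Or.inl h1) (Or.inl hgm) (Or.inl hgp) (Or.inl h2) hs1 hs2 hs3 hs4
  -- g1
  have hc1 : IsCompact (AG ∩ Icc g0 hm) := isCompact_Icc.inter_left cG
  obtain ⟨g1, hg1, hg1max⟩ := hc1.exists_isGreatest ⟨g0, hg0, le_rfl, h1.le⟩
  have hc2 : IsCompact (AG ∩ Icc hp (g0 + 2 * Real.pi)) := isCompact_Icc.inter_left cG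
  obtain ⟨g2, hg2, hg2min⟩ := hc2.exists_isLeast ⟨g0 + 2 * Real.pi, hg0', h2.le, le_rfl⟩
  have h3 : g1 < hm := lt_of_le_of_ne hg1.2.2 (fun h => hno g1 hg1.1 (h ▸ hhm.1))
  have h4 : hp < g2 := lt_of_le_of_ne hg2.2.1 (fun h => hno g2 hg2.1 (h ▸ hhp.1))
  have hB : ∀ g ∈ AG, g1 < g → g < g2 → False := by
    intro g hg hga hgb
    by_cases c1 : g ≤ hm
    · have : g ≤ g1 := hg1max ⟨hg, le_trans hg1.2.1 hga.le, c1⟩
      linarith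
    · by_cases c2 : hp ≤ g
      · have : g2 ≤ g := hg2min ⟨hg, c2, by linarith [hg2.2.2]⟩
        linarith
      · push Not at c1 c2
        exact hA g hg c1 c2
  have h5 : g2 - g1 ≤ Real.pi := by
    by_contra hlt
    push Not at hlt
    obtain ⟨α, hα, hα2⟩ := wG ((g1 + g2 - Real.pi) / 2)
    exact hB α hα (by linarith [hα2.1]) (by linarith [hα2.2])
  have hC : ∀ h ∈ AH, hp < h → h < hm + 2 * Real.pi → False := by
    intro h hh ha hb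
    by_cases c1 : h ≤ g0 + 2 * Real.pi
    · have : h ≤ hp := hmax ⟨hh, by linarith, c1⟩
      linarith
    · push Not at c1
      have : hm ≤ h - 2 * Real.pi := hmin ⟨pH' h hh, by linarith, by linarith⟩
      linarith
  obtain ⟨α, hα, hα2⟩ := wH ((hp + (hm + 2 * Real.pi) - Real.pi) / 2)
  exact hC α hα (by linarith [hα2.1]) (by linarith [hα2.2])

theorem case_8346 (RG RH : ℝ → ℝ → Prop)
    (perG : ∀ α s, RG (α + 2 * Real.pi) s ↔ RG α s) (perH : ∀ α s, RH (α + 2 * Real.pi) s ↔ RH α s)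
    (disj : ∀ α s, RG α s → RH α s → False)
    (noalt : ∀ a1 s1 a2 s2 a3 s3 a4 s4 : ℝ, (a1 < a2 ∨ (a1 = a2 ∧ s1 < s2)) →
      (a2 < a3 ∨ (a2 = a3 ∧ s2 < s3)) → (a3 < a4 ∨ (a3 = a4 ∧ s3 < s4)) →
      (a4 < a1 + 2 * Real.pi ∨ (a4 = a1 + 2 * Real.pi ∧ s4 < s1)) →
      RG a1 s1 → RH a2 s2 → RG a3 s3 → RH a4 s4 → False)
    (AG AH : Set ℝ) (cG : IsClosed AG) (cH : IsClosed AH)
    (wG : ∀ β : ℝ, ∃ α ∈ AG, α ∈ Icc β (β + Real.pi))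
    (wH : ∀ β : ℝ, ∃ α ∈ AH, α ∈ Icc β (β + Real.pi))
    (sG : ∀ α ∈ AG, ∃ s, RG α s) (sH : ∀ α ∈ AH, ∃ s, RH α s)
    (ν a b : ℝ) (ha : RG ν a) (hb : RH ν b) (hab : a < b) :
      (∃ s3 s4 : ℝ, s3 < s4 ∧ RH (ν + Real.pi) s3 ∧ RG (ν + Real.pi) s4) ∧
      (∀ α s : ℝ, RH α s → ∃ k : ℤ, α - 2 * Real.pi * k ∈ Icc ν (ν + Real.pi)) ∧
      (∀ α s : ℝ, RG α s → ∃ k : ℤ, α - 2 * Real.pi * k ∈ Icc (ν + Real.pi) (ν + 2 * Real.pi)) := by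
  have hπ := Real.pi_pos
  have star : ∀ α' s' α s : ℝ, RG α' s' → RH α s → ν < α' → α < ν + 2 * Real.pi →
      (α' < α ∨ (α' = α ∧ s' < s)) → False := by
    intro α' s' α s hG hH h1 h2 h3
    exact noalt ν a ν b α' s' α s (Or.inr ⟨rfl, hab⟩) (Or.inl h1) h3 (Or.inl h2) ha hb hG hH
  have near : ∀ ε, 0 < ε → ∃ g ∈ AG, ∃ h ∈ AH, |g - (ν + Real.pi)| < ε ∧ |h - (ν + Real.pi)| < ε := by
    intro ε hε
    set e := min (ε / 2) (Real.pi / 2) with he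
    have e0 : 0 < e := lt_min (by linarith) (by linarith)
    have e1 : e ≤ ε / 2 := min_le_left _ _
    have e2 : e ≤ Real.pi / 2 := min_le_right _ _
    obtain ⟨g, hg, hg2⟩ := wG (ν + e)
    obtain ⟨h, hh, hh2⟩ := wH (ν + Real.pi - e)
    obtain ⟨s', hs'⟩ := sG g hg
    obtain ⟨s, hs⟩ := sH h hh
    have hgh : h ≤ g := by
      by_contra hlt
      push Not at hlt
      exact star g s' h s hs' hs (by linarith [hg2.1]) (by linarith [hh2.2]) (Or.inl hlt)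
    refine ⟨g, hg, h, hh, ?_, ?_⟩
    · rw [abs_lt]; constructor <;> linarith [hg2.1, hg2.2, hh2.1, hh2.2]
    · rw [abs_lt]; constructor <;> linarith [hg2.1, hg2.2, hh2.1, hh2.2]
  have mG : ν + Real.pi ∈ AG := by
    rw [← cG.closure_eq, Metric.mem_closure_iff]
    intro ε hε
    obtain ⟨g, hg, h, hh, h1, h2⟩ := near ε hε
    exact ⟨g, hg, by rw [dist_comm, Real.dist_eq]; exact h1⟩
  have mH : ν + Real.pi ∈ AH := by
    rw [← cH.closure_eq, Metric.mem_closure_iff]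
    intro ε hε
    obtain ⟨g, hg, h, hh, h1, h2⟩ := near ε hε
    exact ⟨h, hh, by rw [dist_comm, Real.dist_eq]; exact h2⟩
  obtain ⟨s4, hs4⟩ := sG _ mG
  obtain ⟨s3, hs3⟩ := sH _ mH
  refine ⟨⟨s3, s4, ?_, hs3, hs4⟩, ?_, ?_⟩
  · rcases lt_trichotomy s3 s4 with h | h | h
    · exact h
    · exact (disj _ _ hs4 (h ▸ hs3)).elim
    · exact (star _ s4 _ s3 hs4 hs3 (by linarith) (by linarith) (Or.inr ⟨rfl, h⟩)).elim
  · intro α s hα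
    obtain ⟨k, hk, -⟩ := existsUnique_sub_zsmul_mem_Ico (show (0:ℝ) < 2 * Real.pi by positivity) α ν
    simp only [zsmul_eq_mul, mem_Ico] at hk
    have hk' : α - 2 * Real.pi * k = α - k * (2 * Real.pi) := by ring
    refine ⟨k, ?_, ?_⟩
    · rw [hk']; exact hk.1
    · by_contra hlt
      push Not at hlt
      exact star _ s4 _ s hs4 ((per_8346 RH perH k α s).2 hα) (by linarith)
        (by rw [hk']; exact hk.2) (Or.inl hlt)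
  · intro α s hα
    obtain ⟨k, hk, -⟩ := existsUnique_sub_zsmul_mem_Ioc (show (0:ℝ) < 2 * Real.pi by positivity) α ν
    simp only [zsmul_eq_mul, mem_Ioc] at hk
    have hk' : α - 2 * Real.pi * k = α - k * (2 * Real.pi) := by ring
    refine ⟨k, ?_, ?_⟩
    · by_contra hlt
      push Not at hlt
      exact star _ s _ s3 ((per_8346 RG perG k α s).2 hα) hs3 (by rw [hk']; exact hk.1)
        (by linarith) (Or.inl hlt)
    · rw [hk']; exact hk.2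

/-- Pure combinatorics of directions of rays: `RG α s` / `RH α s` mean that the ray with angle `α`
and offset `s` lies in `G` / `H`. -/
theorem comb_pair (RG RH : ℝ → ℝ → Prop)
    (perG : ∀ α s, RG (α + 2 * Real.pi) s ↔ RG α s) (perH : ∀ α s, RH (α + 2 * Real.pi) s ↔ RH α s)
    (disj : ∀ α s, RG α s → RH α s → False)
    (noalt : ∀ a1 s1 a2 s2 a3 s3 a4 s4 : ℝ, (a1 < a2 ∨ (a1 = a2 ∧ s1 < s2)) →
      (a2 < a3 ∨ (a2 = a3 ∧ s2 < s3)) → (a3 < a4 ∨ (a3 = a4 ∧ s3 < s4)) →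
      (a4 < a1 + 2 * Real.pi ∨ (a4 = a1 + 2 * Real.pi ∧ s4 < s1)) →
      RG a1 s1 → RH a2 s2 → RG a3 s3 → RH a4 s4 → False)
    (AG AH : Set ℝ) (cG : IsClosed AG) (cH : IsClosed AH)
    (pG : ∀ α ∈ AG, α + 2 * Real.pi ∈ AG) (pG' : ∀ α ∈ AG, α - 2 * Real.pi ∈ AG)
    (pH : ∀ α ∈ AH, α + 2 * Real.pi ∈ AH) (pH' : ∀ α ∈ AH, α - 2 * Real.pi ∈ AH)
    (wG : ∀ β : ℝ, ∃ α ∈ AG, α ∈ Icc β (β + Real.pi))
    (wH : ∀ β : ℝ, ∃ α ∈ AH, α ∈ Icc β (β + Real.pi))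
    (sG : ∀ α ∈ AG, ∃ s, RG α s) (sH : ∀ α ∈ AH, ∃ s, RH α s) :
    ∃ ν : ℝ, (∃ s1 s2 : ℝ, s1 < s2 ∧ RG ν s1 ∧ RH ν s2) ∧
      (∃ s3 s4 : ℝ, s3 < s4 ∧ RH (ν + Real.pi) s3 ∧ RG (ν + Real.pi) s4) ∧
      (∀ α s : ℝ, RH α s → ∃ k : ℤ, α - 2 * Real.pi * k ∈ Icc ν (ν + Real.pi)) ∧
      (∀ α s : ℝ, RG α s → ∃ k : ℤ, α - 2 * Real.pi * k ∈ Icc (ν + Real.pi) (ν + 2 * Real.pi)) := by
  obtain ⟨ν, h1, h2⟩ := inter_8346 RG RH noalt AG AH cG cH pG pH' wG wH sG sH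
  obtain ⟨a, ha⟩ := sG ν h1
  obtain ⟨b, hb⟩ := sH ν h2
  rcases lt_trichotomy a b with hab | hab | hab
  · exact ⟨ν, ⟨a, b, hab, ha, hb⟩,
      case_8346 RG RH perG perH disj noalt AG AH cG cH wG wH sG sH ν a b ha hb hab⟩
  · exact (disj ν a ha (hab ▸ hb)).elim
  · obtain ⟨⟨s3, s4, hs, hG, hH⟩, c3, c4⟩ := case_8346 RH RG perH perG
      (fun α s h h' => disj α s h' h)
      (fun a1 s1 a2 s2 a3 s3 a4 s4 e1 e2 e3 e4 r1 r2 r3 r4 =>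
        noalt a2 s2 a3 s3 a4 s4 (a1 + 2 * Real.pi) s1 e2 e3 e4
          (by
            rcases e1 with e1 | ⟨e1, e1'⟩
            · left; linarith
            · right; exact ⟨by rw [e1], e1'⟩) r2 r3 r4 ((perH a1 s1).2 r1))
      AH AG cH cG wH wG sH sG ν b a hb ha hab
    refine ⟨ν + Real.pi, ⟨s3, s4, hs, hG, hH⟩, ⟨b, a, hab, ?_, ?_⟩, ?_, ?_⟩
    · have : ν + Real.pi + Real.pi = ν + 2 * Real.pi := by ring
      rw [this]; exact (perH ν b).2 hb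
    · have : ν + Real.pi + Real.pi = ν + 2 * Real.pi := by ring
      rw [this]; exact (perG ν a).2 ha
    · intro α s hα
      obtain ⟨k, hk⟩ := c4 α s hα
      exact ⟨k, hk.1, by linarith [hk.2]⟩
    · intro α s hα
      obtain ⟨k, hk⟩ := c3 α s hα
      refine ⟨k - 1, ?_, ?_⟩
      · push_cast; linarith [hk.1]
      · push_cast; linarith [hk.2]

end Pool.Agent.Helper968.SC.J4
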