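import Mathlib
import Pool.Agent.Helper968.SC.Base
set_option autoImplicit false
open Set Metric
namespace Pool.Agent.Helper968.SC.J5

/-- From the structure at each level to the step structure. -/
theorem comb_final (F : ℝ → ℝ → ℝ) (m M : ℝ) (hlt : m < M)
    (hm : ∀ α s, m ≤ F α s) (hM : ∀ α s, F α s ≤ M)
    (L : ∀ c, m < c → c < M → ∃ ν : ℝ,
      (∀ α s : ℝ, c < F α s → ∃ k : ℤ, α - 2 * Real.pi * k ∈ Icc (ν + Real.pi) (ν + 2 * Real.pi)) ∧
      (∀ α s : ℝ, F α s < c → ∃ k : ℤ, α - 2 * Real.pi * k ∈ Icc ν (ν + Real.pi))) :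
    ∃ β : ℝ, (∀ α ∈ Ioo β (β + Real.pi), ∀ s, F α s = m) ∧
      (∀ α ∈ Ioo (β + Real.pi) (β + 2 * Real.pi), ∀ s, F α s = M) := by
  have hpi := Real.pi_pos
  have nogap : ∀ j : ℤ, ¬ (0 < 2 * Real.pi * (j : ℝ) ∧ 2 * Real.pi * (j : ℝ) < 2 * Real.pi) := by
    rintro j ⟨h1, h2⟩
    have h3 : (0 : ℝ) < j := by
      by_contra hcon
      rw [not_lt] at hcon
      nlinarith
    have h4 : (j : ℝ) < 1 := by
      by_contra hcon
      rw [not_lt] at hcon
      nlinarith
    have h5 : (0 : ℤ) < j := by exact_mod_cast h3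
    have h6 : j < (1 : ℤ) := by exact_mod_cast h4
    omega
  -- facts A and B
  have L' : ∀ c, m < c → c < M → ∃ ν : ℝ,
      (∀ (α s : ℝ) (k : ℤ), α - 2 * Real.pi * k ∈ Ioo ν (ν + Real.pi) → F α s ≤ c) ∧
      (∀ (α s : ℝ) (k : ℤ), α - 2 * Real.pi * k ∈ Ioo (ν + Real.pi) (ν + 2 * Real.pi) → c ≤ F α s) := by
    intro c h1 h2
    obtain ⟨ν, hA, hB⟩ := L c h1 h2
    refine ⟨ν, fun α s k hk => ?_, fun α s k hk => ?_⟩
    · by_contra hcon
      rw [not_le] at hcon
      obtain ⟨k', hk'⟩ := hA α s hcon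
      refine nogap (k - k') ?_
      push_cast
      obtain ⟨a1, a2⟩ := hk
      obtain ⟨b1, b2⟩ := hk'
      constructor <;> nlinarith
    · by_contra hcon
      rw [not_le] at hcon
      obtain ⟨k', hk'⟩ := hB α s hcon
      refine nogap (k' - k) ?_
      push_cast
      obtain ⟨a1, a2⟩ := hk
      obtain ⟨b1, b2⟩ := hk'
      constructor <;> nlinarith
  have hc1 : m < (m + M) / 2 := by linarith
  have hc2 : (m + M) / 2 < M := by linarith
  obtain ⟨ν0, hA0, hB0⟩ := L' ((m + M) / 2) hc1 hc2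
  have claim : ∀ c, m < c → c < M →
      (∀ α ∈ Ioo ν0 (ν0 + Real.pi), ∀ s, F α s ≤ c) ∧
      (∀ α ∈ Ioo (ν0 + Real.pi) (ν0 + 2 * Real.pi), ∀ s, c ≤ F α s) := by
    intro c h1 h2
    by_cases hcc : c = (m + M) / 2
    · subst hcc
      refine ⟨fun α hα s => hA0 α s 0 (by simpa using hα), fun α hα s => hB0 α s 0 (by simpa using hα)⟩
    obtain ⟨ν, hA, hB⟩ := L' c h1 h2
    set k : ℤ := ⌊(ν - ν0) / (2 * Real.pi)⌋ with hk
    have hk1 : (k : ℝ) * (2 * Real.pi) ≤ ν - ν0 := by
      rw [← le_div_iff₀ (by positivity)]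
      exact Int.floor_le _
    have hk2 : ν - ν0 < ((k : ℝ) + 1) * (2 * Real.pi) := by
      rw [← div_lt_iff₀ (by positivity)]
      exact Int.lt_floor_add_one _
    rcases hk1.lt_or_eq with h3 | h3
    · exfalso
      set d : ℝ := ν - ν0 - (k : ℝ) * (2 * Real.pi) with hd
      have hd0 : 0 < d := by linarith
      have hd2 : d < 2 * Real.pi := by linarith
      have e1 : F (ν0 + Real.pi + d / 2) 0 ≤ c := by
        refine hA _ 0 (-k) ?_
        push_cast
        constructor <;> linarith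
      have e2 : (m + M) / 2 ≤ F (ν0 + Real.pi + d / 2) 0 := by
        refine hB0 _ 0 0 ?_
        push_cast
        constructor <;> linarith
      have e3 : F (ν0 + d / 2) 0 ≤ (m + M) / 2 := by
        refine hA0 _ 0 0 ?_
        push_cast
        constructor <;> linarith
      have e4 : c ≤ F (ν0 + d / 2) 0 := by
        refine hB _ 0 (-(k + 1)) ?_
        push_cast
        constructor <;> linarith
      exact hcc (le_antisymm (by linarith) (by linarith))
    · refine ⟨fun α hα s => hA α s (-k) ?_, fun α hα s => hB α s (-k) ?_⟩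
      · obtain ⟨a1, a2⟩ := hα
        push_cast
        constructor <;> linarith
      · obtain ⟨a1, a2⟩ := hα
        push_cast
        constructor <;> linarith
  refine ⟨ν0, fun α hα s => le_antisymm ?_ (hm α s), fun α hα s => le_antisymm (hM α s) ?_⟩
  · by_contra hcon
    rw [not_le] at hcon
    have h1 := hM α s
    have h2 := (claim ((m + F α s) / 2) (by linarith) (by linarith)).1 α hα s
    linarith
  · by_contra hcon
    rw [not_le] at hcon
    have h1 := hm α s
    have h2 := (claim ((M + F α s) / 2) (by linarith) (by linarith)).2 α hα s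
    linarith

end Pool.Agent.Helper968.SC.J5
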