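import Mathlib
import Pool.Agent.Helper968.SC.Base
set_option autoImplicit false
open Set Metric
namespace Pool.Agent.Helper968.SC.J6

theorem perZ_aux {F : ℝ → ℝ → ℝ} (hper : ∀ α s, F (α + 2 * Real.pi) s = F α s) (α s : ℝ)
    (k : ℤ) : F (α + 2 * Real.pi * k) s = F α s := by
  have h : Function.Periodic (fun α => F α s) (2 * Real.pi) := fun α => hper α s
  have h1 := h.int_mul k α
  have h2 : α + 2 * Real.pi * (k : ℝ) = α + (k : ℝ) * (2 * Real.pi) := by ring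
  rw [h2]
  exact h1

theorem two_pts {a x : ℝ} {k k' : ℤ} (h1 : x - 2 * Real.pi * k ∈ Icc a (a + Real.pi))
    (h2 : x + Real.pi - 2 * Real.pi * k' ∈ Icc a (a + Real.pi)) :
    x = a + 2 * Real.pi * k ∨ x = a + Real.pi + 2 * Real.pi * k := by
  have hpi := Real.pi_pos
  obtain ⟨h3, h4⟩ := h1
  obtain ⟨h5, h6⟩ := h2
  have h7 : 0 ≤ (k' : ℝ) - k := by
    by_contra hcon
    push Not at hcon
    nlinarith
  have h8 : (k' : ℝ) - k ≤ 1 := by
    by_contra hcon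
    push Not at hcon
    nlinarith
  have h9 : (0 : ℤ) ≤ k' - k := by exact_mod_cast h7
  have h10 : k' - k ≤ (1 : ℤ) := by exact_mod_cast h8
  have h11 : k' = k ∨ k' = k + 1 := by omega
  rcases h11 with h | h
  · left
    subst h
    linarith
  · right
    subst h
    push_cast at h5 h6
    linarith

/-- From pairs of components to all components at one level `c`. -/
theorem comb_level (F : ℝ → ℝ → ℝ) (hper : ∀ α s, F (α + 2 * Real.pi) s = F α s)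
    (hmono : ∀ α, Monotone (F α) ∨ Antitone (F α)) (c : ℝ) {ι κ : Type} (i0 : ι) (j0 : κ)
    (RG : ι → ℝ → ℝ → Prop) (RH : κ → ℝ → ℝ → Prop)
    (perG : ∀ i α s, RG i (α + 2 * Real.pi) s ↔ RG i α s)
    (perH : ∀ j α s, RH j (α + 2 * Real.pi) s ↔ RH j α s)
    (hRG : ∀ i α s, RG i α s → c < F α s) (hRH : ∀ j α s, RH j α s → F α s < c)
    (hG : ∀ α s, c < F α s → ∃ i, RG i α s) (hH : ∀ α s, F α s < c → ∃ j, RH j α s)
    (C2 : ∀ i j, ∃ ν : ℝ, (∃ s1 s2 : ℝ, s1 < s2 ∧ RG i ν s1 ∧ RH j ν s2) ∧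
      (∃ s3 s4 : ℝ, s3 < s4 ∧ RH j (ν + Real.pi) s3 ∧ RG i (ν + Real.pi) s4) ∧
      (∀ α s : ℝ, RH j α s → ∃ k : ℤ, α - 2 * Real.pi * k ∈ Icc ν (ν + Real.pi)) ∧
      (∀ α s : ℝ, RG i α s →
        ∃ k : ℤ, α - 2 * Real.pi * k ∈ Icc (ν + Real.pi) (ν + 2 * Real.pi))) :
    ∃ ν : ℝ,
      (∀ α s : ℝ, c < F α s → ∃ k : ℤ, α - 2 * Real.pi * k ∈ Icc (ν + Real.pi) (ν + 2 * Real.pi)) ∧
      (∀ α s : ℝ, F α s < c → ∃ k : ℤ, α - 2 * Real.pi * k ∈ Icc ν (ν + Real.pi)) := by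
  obtain ⟨ν0, ⟨s1, s2, h12, hG1, hH2⟩, ⟨s3, s4, h34, hH3, hG4⟩, hC, hD⟩ := C2 i0 j0
  have hmon : Monotone (F (ν0 + Real.pi)) := by
    rcases hmono (ν0 + Real.pi) with h | h
    · exact h
    · have h1 := h h34.le
      have h2 := hRG i0 _ _ hG4
      have h3 := hRH j0 _ _ hH3
      linarith
  have hbad : ∀ (ν' : ℝ) (k : ℤ) (i : ι) (j : κ) (t1 t2 : ℝ), t1 < t2 → RG i ν' t1 →
      RH j ν' t2 → ν' = ν0 + Real.pi + 2 * Real.pi * k → False := by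
    intro ν' k i j t1 t2 ht hg hh he
    have h1 := hRG i _ _ hg
    have h2 := hRH j _ _ hh
    rw [he, perZ_aux hper] at h1 h2
    have h3 := hmon ht.le
    linarith
  refine ⟨ν0, ?_, ?_⟩
  · intro α s hα
    obtain ⟨i, hi⟩ := hG α s hα
    obtain ⟨ν', ⟨t1, t2, ht12, hg1, hh2⟩, ⟨t3, t4, ht34, hh3, hg4⟩, _, hD'⟩ := C2 i j0
    obtain ⟨k, hk⟩ := hC _ _ hh2
    obtain ⟨k', hk'⟩ := hC _ _ hh3
    rcases two_pts hk hk' with h | h
    · obtain ⟨m, hm⟩ := hD' α s hi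
      refine ⟨m + k, ?_⟩
      rw [h] at hm
      obtain ⟨hm1, hm2⟩ := hm
      constructor
      · push_cast
        linarith
      · push_cast
        linarith
    · exact (hbad ν' k i j0 t1 t2 ht12 hg1 hh2 h).elim
  · intro α s hα
    obtain ⟨j, hj⟩ := hH α s hα
    obtain ⟨ν', ⟨t1, t2, ht12, hg1, hh2⟩, ⟨t3, t4, ht34, hh3, hg4⟩, hC', _⟩ := C2 i0 j
    obtain ⟨k, hk⟩ := hD _ _ hg1
    obtain ⟨k', hk'⟩ := hD _ _ hg4
    have hk2 : ν' - 2 * Real.pi * k ∈ Icc (ν0 + Real.pi) (ν0 + Real.pi + Real.pi) :=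
      ⟨hk.1, by linarith [hk.2]⟩
    have hk2' : ν' + Real.pi - 2 * Real.pi * k' ∈ Icc (ν0 + Real.pi) (ν0 + Real.pi + Real.pi) :=
      ⟨hk'.1, by linarith [hk'.2]⟩
    rcases two_pts hk2 hk2' with h | h
    · exact (hbad ν' k i0 j t1 t2 ht12 hg1 hh2 h).elim
    · obtain ⟨m, hm⟩ := hC' α s hj
      refine ⟨m + (k + 1), ?_⟩
      rw [h] at hm
      obtain ⟨hm1, hm2⟩ := hm
      constructor
      · push_cast
        linarith
      · push_cast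
        linarith

end Pool.Agent.Helper968.SC.J6
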