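import Mathlib
import Pool.Agent.Helper968.SC.Base
import Pool.Agent.Helper968.SC.J1
import Pool.Agent.Helper968.SC.J2
import Pool.Agent.Helper968.SC.J3
import Pool.Agent.Helper968.SC.J4
import Pool.Agent.Helper968.SC.J5
import Pool.Agent.Helper968.SC.J6
set_option autoImplicit false
open Set Metric
namespace Pool.Agent.Helper968.SC.TwoD

theorem ray_per (α s σ : ℝ) : ray (α + 2 * Real.pi) s σ = ray α s σ := by
  unfold ray
  congr 1
  have : ((α + 2 * Real.pi : ℝ) : ℂ) * Complex.I = α * Complex.I + 2 * Real.pi * Complex.I := by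
    push_cast; ring
  rw [this, Complex.exp_add, Complex.exp_two_pi_mul_I, mul_one]

theorem evIn_per (G : Set ℂ) (α s : ℝ) : EvIn G (α + 2 * Real.pi) s ↔ EvIn G α s := by
  unfold EvIn
  simp only [ray_per]

theorem ray_cont (α s : ℝ) : Continuous (ray α s) := by
  unfold ray
  fun_prop

/-- values along a ray converge to the profile -/
theorem ev_near (f : ℂ → ℝ) (F : ℝ → ℝ → ℝ)
    (AS : ∀ α : ℝ, ∀ δ > 0, ∃ T > 0, ∃ ε > 0, ∀ σ : ℝ, T ≤ σ → ∀ s : ℝ, |s| ≤ ε * σ →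
      |f (ray α s σ) - F α s| < δ) (α s δ : ℝ) (hδ : 0 < δ) :
    ∃ T : ℝ, ∀ σ : ℝ, T ≤ σ → |f (ray α s σ) - F α s| < δ := by
  obtain ⟨T, hT, ε, hε, h⟩ := AS α δ hδ
  refine ⟨max T (|s| / ε), fun σ hσ => h σ ((le_max_left _ _).trans hσ) s ?_⟩
  have := (le_max_right T (|s| / ε)).trans hσ
  rw [div_le_iff₀ hε] at this
  linarith

/-- a component of an open superlevel set -/
theorem comp_frontier (f : ℂ → ℝ) (hf : Continuous f) (c : ℝ) (z0 : ℂ) (hz0 : c < f z0) :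
    IsOpen (connectedComponentIn {z | c < f z} z0) ∧
      IsConnected (connectedComponentIn {z | c < f z} z0) ∧
      (∀ z ∈ connectedComponentIn {z | c < f z} z0, c < f z) ∧
      (∀ z ∈ frontier (connectedComponentIn {z | c < f z} z0), f z ≤ c) := by
  have hO : IsOpen {z | c < f z} := isOpen_lt continuous_const hf
  have hopen : IsOpen (connectedComponentIn {z | c < f z} z0) := hO.connectedComponentIn
  have hsub : connectedComponentIn {z | c < f z} z0 ⊆ {z | c < f z} :=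
    connectedComponentIn_subset _ _
  refine ⟨hopen, isConnected_connectedComponentIn_iff.2 hz0, fun z hz => hsub hz, ?_⟩
  intro z hz
  by_contra hcon
  rw [not_le] at hcon
  have h1 : IsOpen (connectedComponentIn {z | c < f z} z) := hO.connectedComponentIn
  have h2 : z ∈ connectedComponentIn {z | c < f z} z := mem_connectedComponentIn hcon
  have h3 : z ∈ closure (connectedComponentIn {z | c < f z} z0) := frontier_subset_closure hz
  obtain ⟨y, hy1, hy2⟩ := mem_closure_iff.1 h3 _ h1 h2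
  have h4 := connectedComponentIn_eq hy1
  have h5 := connectedComponentIn_eq hy2
  rw [h5, ← h4] at hz
  rw [h1.frontier_eq] at hz
  exact hz.2 h2

theorem ray_in_comp (f : ℂ → ℝ) (F : ℝ → ℝ → ℝ)
    (AS : ∀ α : ℝ, ∀ δ > 0, ∃ T > 0, ∃ ε > 0, ∀ σ : ℝ, T ≤ σ → ∀ s : ℝ, |s| ≤ ε * σ →
      |f (ray α s σ) - F α s| < δ) (c α s : ℝ) (h : c < F α s) :
    ∃ z0 : ℂ, c < f z0 ∧ EvIn (connectedComponentIn {z | c < f z} z0) α s := by
  obtain ⟨T, hT⟩ := ev_near f F AS α s (F α s - c) (by linarith)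
  have hT' : ∀ σ, T ≤ σ → c < f (ray α s σ) := by
    intro σ hσ
    have := (abs_lt.1 (hT σ hσ)).1
    linarith
  refine ⟨ray α s T, hT' T le_rfl, T, ?_⟩
  intro σ hσ
  have hpre : IsPreconnected (ray α s '' Ici T) :=
    isPreconnected_Ici.image _ (ray_cont α s).continuousOn
  have hsub : ray α s '' Ici T ⊆ {z | c < f z} := by
    rintro _ ⟨σ', hσ', rfl⟩
    exact hT' σ' hσ'
  exact hpre.subset_connectedComponentIn (mem_image_of_mem _ (mem_Ici.2 le_rfl)) hsub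
    (mem_image_of_mem _ hσ)

theorem level (f : ℂ → ℝ) (hf : Continuous f) (B : ℝ) (hB : ∀ z, |f z| ≤ B)
    (NC1 : ∀ (U : Set ℂ) (a b c : ℝ), IsOpen U → Bornology.IsBounded U →
      (∀ z ∈ frontier U, f z ≤ a * z.re + b * z.im + c) →
      ∀ z ∈ U, f z ≤ a * z.re + b * z.im + c)
    (NC2 : ∀ (U : Set ℂ) (a b c : ℝ), IsOpen U → Bornology.IsBounded U →
      (∀ z ∈ frontier U, a * z.re + b * z.im + c ≤ f z) →
      ∀ z ∈ U, a * z.re + b * z.im + c ≤ f z)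
    (F : ℝ → ℝ → ℝ)
    (AS : ∀ α : ℝ, ∀ δ > 0, ∃ T > 0, ∃ ε > 0, ∀ σ : ℝ, T ≤ σ → ∀ s : ℝ, |s| ≤ ε * σ →
      |f (ray α s σ) - F α s| < δ)
    (hmono : ∀ α, Monotone (F α) ∨ Antitone (F α))
    (hper : ∀ α s, F (α + 2 * Real.pi) s = F α s) (c : ℝ)
    (hex1 : ∃ α s, c < F α s) (hex2 : ∃ α s, F α s < c) :
    ∃ ν : ℝ,
      (∀ α s : ℝ, c < F α s → ∃ k : ℤ, α - 2 * Real.pi * k ∈ Icc (ν + Real.pi) (ν + 2 * Real.pi)) ∧
      (∀ α s : ℝ, F α s < c → ∃ k : ℤ, α - 2 * Real.pi * k ∈ Icc ν (ν + Real.pi)) := by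
  -- the negated function
  have hf' : Continuous fun z => - f z := hf.neg
  have hB' : ∀ z, |- f z| ≤ B := fun z => by rw [abs_neg]; exact hB z
  have NC1' : ∀ (U : Set ℂ) (a b c : ℝ), IsOpen U → Bornology.IsBounded U →
      (∀ z ∈ frontier U, - f z ≤ a * z.re + b * z.im + c) →
      ∀ z ∈ U, - f z ≤ a * z.re + b * z.im + c := by
    intro U a b c hU hb h z hz
    have := NC2 U (-a) (-b) (-c) hU hb (fun z hz => by have := h z hz; linarith) z hz
    linarith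
  have AS' : ∀ α : ℝ, ∀ δ > 0, ∃ T > 0, ∃ ε > 0, ∀ σ : ℝ, T ≤ σ → ∀ s : ℝ, |s| ≤ ε * σ →
      |- f (ray α s σ) - (fun α s => - F α s) α s| < δ := by
    intro α δ hδ
    obtain ⟨T, hT, ε, hε, h⟩ := AS α δ hδ
    refine ⟨T, hT, ε, hε, fun σ hσ s hs => ?_⟩
    have := h σ hσ s hs
    rw [abs_sub_comm] at this
    have he : - f (ray α s σ) - (fun α s => - F α s) α s = F α s - f (ray α s σ) := by
      simp only; ring
    rw [he]
    exact this
  let P : ℂ → Prop := fun z0 => c < f z0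
  let Q : ℂ → Prop := fun z0 => - c < - f z0
  let GG : {z0 : ℂ // P z0} → Set ℂ := fun i => connectedComponentIn {z | c < f z} i.1
  let HH : {z0 : ℂ // Q z0} → Set ℂ := fun j => connectedComponentIn {z | -c < - f z} j.1
  have hGG : ∀ i, IsOpen (GG i) ∧ IsConnected (GG i) ∧ (∀ z ∈ GG i, c < f z) ∧
      (∀ z ∈ frontier (GG i), f z ≤ c) := fun i => comp_frontier f hf c i.1 i.2
  have hHH : ∀ j, IsOpen (HH j) ∧ IsConnected (HH j) ∧ (∀ z ∈ HH j, -c < - f z) ∧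
      (∀ z ∈ frontier (HH j), - f z ≤ - c) := fun j =>
    comp_frontier (fun z => - f z) hf' (-c) j.1 j.2
  obtain ⟨i0⟩ : Nonempty {z0 : ℂ // P z0} := by
    obtain ⟨α, s, h⟩ := hex1
    obtain ⟨z0, hz0, -⟩ := ray_in_comp f F AS c α s h
    exact ⟨⟨z0, hz0⟩⟩
  obtain ⟨j0⟩ : Nonempty {z0 : ℂ // Q z0} := by
    obtain ⟨α, s, h⟩ := hex2
    obtain ⟨z0, hz0, -⟩ := ray_in_comp (fun z => - f z) (fun α s => - F α s) AS' (-c) α s
      (by linarith)
    exact ⟨⟨z0, hz0⟩⟩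
  refine J6.comb_level F hper hmono c i0 j0
    (fun i α s => c < F α s ∧ EvIn (GG i) α s) (fun j α s => F α s < c ∧ EvIn (HH j) α s)
    ?_ ?_ ?_ ?_ ?_ ?_ ?_
  · intro i α s
    simp only [hper, evIn_per]
  · intro j α s
    simp only [hper, evIn_per]
  · intro i α s h
    exact h.1
  · intro j α s h
    exact h.1
  · intro α s h
    obtain ⟨z0, hz0, hev⟩ := ray_in_comp f F AS c α s h
    exact ⟨⟨z0, hz0⟩, h, hev⟩
  · intro α s h
    obtain ⟨z0, hz0, hev⟩ := ray_in_comp (fun z => - f z) (fun α s => - F α s) AS' (-c) α s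
      (by linarith)
    exact ⟨⟨z0, hz0⟩, h, hev⟩
  · intro i j
    obtain ⟨gO, gC, gI, gF⟩ := hGG i
    obtain ⟨hO, hC, hI, hF⟩ := hHH j
    have hd : Disjoint (GG i) (HH j) := by
      rw [Set.disjoint_left]
      intro z hz1 hz2
      have h1 := gI z hz1
      have h2 := hI z hz2
      linarith
    obtain ⟨AG, cG, pG, pG', wG, sG⟩ := J3.wide f hf B hB NC1 F AS c (GG i) gO gC.nonempty gI gF
    obtain ⟨AH, cH, pH, pH', wH, sH⟩ := J3.wide (fun z => - f z) hf' B hB' NC1'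
      (fun α s => - F α s) AS' (-c) (HH j) hO hC.nonempty hI hF
    refine J4.comb_pair (fun α s => c < F α s ∧ EvIn (GG i) α s)
      (fun α s => F α s < c ∧ EvIn (HH j) α s) ?_ ?_ ?_ ?_ AG AH cG cH pG pG' pH pH' wG wH ?_ ?_
    · intro α s
      simp only [hper, evIn_per]
    · intro α s
      simp only [hper, evIn_per]
    · rintro α s ⟨h1, -⟩ ⟨h2, -⟩
      linarith
    · intro a1 s1 a2 s2 a3 s3 a4 s4 h12 h23 h34 h41 r1 r2 r3 r4
      exact J2.rays_cross J1.disc_cross (GG i) (HH j) gO hO gC hC hd a1 s1 a2 s2 a3 s3 a4 s4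
        h12 h23 h34 h41 r1.2 r2.2 r3.2 r4.2
    · intro α hα
      exact sG α hα
    · intro α hα
      obtain ⟨s, h1, h2⟩ := sH α hα
      exact ⟨s, by linarith, h2⟩

/-- the planar theorem -/
theorem twoD (f : ℂ → ℝ) (hf : Continuous f) (B : ℝ) (hB : ∀ z, |f z| ≤ B)
    (NC1 : ∀ (U : Set ℂ) (a b c : ℝ), IsOpen U → Bornology.IsBounded U →
      (∀ z ∈ frontier U, f z ≤ a * z.re + b * z.im + c) →
      ∀ z ∈ U, f z ≤ a * z.re + b * z.im + c)
    (NC2 : ∀ (U : Set ℂ) (a b c : ℝ), IsOpen U → Bornology.IsBounded U →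
      (∀ z ∈ frontier U, a * z.re + b * z.im + c ≤ f z) →
      ∀ z ∈ U, a * z.re + b * z.im + c ≤ f z)
    (F : ℝ → ℝ → ℝ)
    (AS : ∀ α : ℝ, ∀ δ > 0, ∃ T > 0, ∃ ε > 0, ∀ σ : ℝ, T ≤ σ → ∀ s : ℝ, |s| ≤ ε * σ →
      |f (ray α s σ) - F α s| < δ)
    (hmono : ∀ α, Monotone (F α) ∨ Antitone (F α))
    (hper : ∀ α s, F (α + 2 * Real.pi) s = F α s) :
    ∃ β m M : ℝ, (∀ α ∈ Ioo β (β + Real.pi), ∀ s, F α s = m) ∧
      (∀ α ∈ Ioo (β + Real.pi) (β + 2 * Real.pi), ∀ s, F α s = M) := by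
  have hFB : ∀ α s, |F α s| ≤ B := by
    intro α s
    apply le_of_forall_pos_le_add
    intro δ hδ
    obtain ⟨T, hT⟩ := ev_near f F AS α s δ hδ
    have h1 := hT T le_rfl
    have h2 := hB (ray α s T)
    have h3 : F α s = f (ray α s T) - (f (ray α s T) - F α s) := by ring
    rw [h3]
    exact (abs_sub _ _).trans (by linarith)
  set R : Set ℝ := range (fun p : ℝ × ℝ => F p.1 p.2) with hR
  have hRne : R.Nonempty := ⟨F 0 0, ⟨(0, 0), rfl⟩⟩
  have hRa : BddAbove R := ⟨B, by rintro _ ⟨p, rfl⟩; exact (abs_le.1 (hFB p.1 p.2)).2⟩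
  have hRb : BddBelow R := ⟨-B, by rintro _ ⟨p, rfl⟩; exact (abs_le.1 (hFB p.1 p.2)).1⟩
  have hm : ∀ α s, sInf R ≤ F α s := fun α s => csInf_le hRb ⟨(α, s), rfl⟩
  have hM : ∀ α s, F α s ≤ sSup R := fun α s => le_csSup hRa ⟨(α, s), rfl⟩
  rcases (le_trans (hm 0 0) (hM 0 0)).eq_or_lt with h | h
  · refine ⟨0, sInf R, sInf R, fun α _ s => ?_, fun α _ s => ?_⟩
    · exact le_antisymm ((hM α s).trans h.symm.le) (hm α s)
    · exact le_antisymm ((hM α s).trans h.symm.le) (hm α s)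
  · obtain ⟨β, h1, h2⟩ := J5.comb_final F (sInf R) (sSup R) h hm hM (by
      intro c hc1 hc2
      refine level f hf B hB NC1 NC2 F AS hmono hper c ?_ ?_
      · obtain ⟨_, ⟨p, rfl⟩, hp⟩ := exists_lt_of_lt_csSup hRne hc2
        exact ⟨p.1, p.2, hp⟩
      · obtain ⟨_, ⟨p, rfl⟩, hp⟩ := exists_lt_of_csInf_lt hRne hc1
        exact ⟨p.1, p.2, hp⟩)
    exact ⟨β, sInf R, sSup R, h1, h2⟩

end Pool.Agent.Helper968.SC.TwoD
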