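import Mathlib
import Pool.Agent.Helper968.SC.Base
import Pool.Agent.Helper968.SC.TwoD
import Pool.Agent.Helper968.SC.G1
import Pool.Agent.Helper968.SC.G2
import Pool.Agent.Helper968.SC.G3
import Pool.Agent.Helper968.SC.G4
import Pool.Agent.Helper968.SC.G5
import Pool.Agent.Helper968.SC.G6a
import Pool.Agent.Helper968.SC.G6b
import Pool.Agent.Helper968.SC.G7
import Pool.Agent.Helper968.SC.G8
import Pool.Agent.Helper968.SC.G9
import Pool.Agent.Helper968.SC.G10
import Pool.Agent.Helper968.SC.G11a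
import Pool.Agent.Helper968.SC.G11c
import Pool.Agent.Helper968.SC.G12
import Pool.Agent.Helper968.SC.G13
import Pool.Agent.Helper968.SC.G14
import Pool.Agent.Helper968.SC.Final
set_option autoImplicit false
open Set Metric
namespace Pool.Agent.Helper968.SC

theorem noCap {K : Set E3} (hK : Body K) (hP : PP K) (g1 g2 : E3 ≃ᵢ E3)
    (b : OrthonormalBasis (Fin 3) ℝ E3) (U : Set ℂ) (hU : IsOpen U)
    (hUb : Bornology.IsBounded U)
    (hfr : ∀ z ∈ frontier U, hs (g1 '' K) (chart b z) < hs (g2 '' K) (chart b z)) :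
    ∀ z ∈ U, hs (g1 '' K) (chart b z) < hs (g2 '' K) (chart b z) :=
  G4.noCap
    (fun _ _ hK hL b U hU hUb hfr z1 hz1 h1 => G1.local_contact hK hL b U hU hUb hfr z1 hz1 h1)
    (fun _ _ hK hL g hg hS X hXn hXc hXs ρ hρ h1 h2 =>
      G2.connected_contact (fun _ _ hK g hg h => G3.iso_eq hK g hg h)
        hK hL g hg hS X hXn hXc hXs ρ hρ h1 h2)
    hK hP g1 g2 b U hU hUb hfr

theorem segFaces {K : Set E3} (hK : Body K) (hP : PP K) : SegFaces K :=
  G5.segFaces hK (fun g1 g2 b U hU hUb hfr => noCap hK hP g1 g2 b U hU hUb hfr)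

theorem St_good {K : Set E3} (hK : Body K) (hP : PP K) (e : E3) (he : ‖e‖ = 1)
    (hg : Good K e) : St K e :=
  G7.St_good hK (segFaces hK hP) (fun g1 g2 b U hU hUb hfr => noCap hK hP g1 g2 b U hU hUb hfr)
    (fun b hb α => G6a.asymp hK (segFaces hK hP) b hb α)
    (fun b α => G6b.FF_mono hK (segFaces hK hP) b α)
    (fun b hb α c h => G6b.FF_const hK (segFaces hK hP) b hb α c h)
    (fun b α s => G6b.FF_periodic b α s)
    (fun f hf B hB NC1 NC2 F AS hmono hper => TwoD.twoD f hf B hB NC1 NC2 F AS hmono hper)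
    e he hg

theorem Good_smul {K : Set E3} {e : E3} (hg : Good K e) (c : ℝ) : Good K (c • e) := by
  intro w hw p hp q hq t ht
  refine hg w hw p hp q hq (t * c) ?_
  rw [ht, smul_smul]

/-- the step structure in every direction -/
theorem St_all {K : Set E3} (hK : Body K) (hP : PP K) (e : E3) (he : ‖e‖ = 1) : St K e := by
  have hd := G8.good_dense hK (segFaces hK hP)
  have hmem : e ∈ closure {e : E3 | e ≠ 0 ∧ Good K e} := hd e
  obtain ⟨x, hx, hlim⟩ := mem_closure_iff_seq_limit.1 hmem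
  have hn : Filter.Tendsto (fun n => ‖x n‖) Filter.atTop (nhds 1) := by
    have := hlim.norm
    rwa [he] at this
  have hlim2 : Filter.Tendsto (fun n => (‖x n‖)⁻¹ • x n) Filter.atTop (nhds e) := by
    have := (hn.inv₀ one_ne_zero).smul hlim
    simpa using this
  refine G9.St_closed hK (fun n => (‖x n‖)⁻¹ • x n) e (fun n => ?_) hlim2 ?_
  · refine St_good hK hP _ ?_ (Good_smul (hx n).2 _)
    rw [norm_smul, norm_inv, norm_norm]
    exact inv_mul_cancel₀ (norm_ne_zero_iff.2 (hx n).1)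
  · intro h0
    rw [h0, norm_zero] at he
    exact zero_ne_one he

theorem RotInv_nondeg {K : Set E3} (hK : Body K) (hP : PP K) (n p q : E3) (hn : ‖n‖ = 1)
    (hface : face K n = segment ℝ p q) (hpq : p ≠ q) : RotInv K n p q :=
  G11c.RotInv_nondeg hK
    (fun n p q hn hface w e hDw he hen hew hDe =>
      G11a.key_nondeg hK (St_all hK hP) n p q hn hface w e hDw he hen hew hDe)
    (fun n q D hn hD hD0 key => G10.rot_const hK n q D hn hD hD0 key) n p q hn hface hpq

theorem RotInv_strict {K : Set E3} (hK : Body K) (hP : PP K)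
    (hstrict : ∀ w : E3, w ≠ 0 → ∀ x ∈ face K w, ∀ y ∈ face K w, x = y)
    (n x0 : E3) (hn : ‖n‖ = 1) (hx0 : x0 ∈ face K n) : RotInv K n x0 x0 :=
  G11c.RotInv_strict hK hstrict
    (fun n x0 hn hx0 w e hw he hen hew =>
      G11a.key_strict hK (St_all hK hP) hstrict n x0 hn hx0 w e hw he hen hew)
    (fun n q D hn hD hD0 key => G10.rot_const hK n q D hn hD hD0 key) n x0 hn hx0

theorem sausage {K : Set E3} (hK : Body K) (hP : PP K) :
    ∃ a b : E3, ∃ r : ℝ, 0 < r ∧ K = {x | Metric.infDist x (segment ℝ a b) ≤ r} :=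
  Final.sausage_final hK (segFaces hK hP)
    (fun n p q hn hface hpq => RotInv_nondeg hK hP n p q hn hface hpq)
    (fun hstrict n x0 hn hx0 => RotInv_strict hK hP hstrict n x0 hn hx0)
    (fun n n' p q hn hn' hnn hDn hDn' hpq hR =>
      G12.face_transfer hK (segFaces hK hP) n n' p q hn hn' hnn hDn hDn' hpq hR)
    (fun b t p q p' q' hq hq' hR hR' => G13.final_form hK b t p q p' q' hq hq' hR hR')
    (fun m D κ h => G14.sausage_of_hs hK m D κ h)

end Pool.Agent.Helper968.SC
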